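import Pool.Agent.WM77.Adapt

/-!
The determinant in an adapted basis.
-/

namespace Pool.Agent.WM77

open Module Matrix

section
variable {ι : Type*} [Fintype ι] [DecidableEq ι]

theorem det_one_add_nil (m : Matrix ι ι ℂ) (hm : IsNilpotent m) : (1 + m).det = 1 := by
  have h1 : IsNilpotent (-m) := hm.neg
  have h2 := (Matrix.isNilpotent_charpoly_sub_pow_of_isNilpotent h1).eq_zero
  have h3 := congrArg (Polynomial.eval 1) (sub_eq_zero.mp h2)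
  rw [Matrix.eval_charpoly, Polynomial.eval_pow, Polynomial.eval_X, one_pow, sub_neg_eq_add,
    map_one] at h3
  exact h3

theorem Adapted.det_eq {Φ N : Matrix ι ι ℂ} {s : ι → ℤ} {α : ι → ℂ} (h : Adapted Φ N s α)
    (hα : ∀ i, α i ≠ 0) : Φ.det = ∏ i, α i := by
  obtain ⟨P, Q, Ψ, E, H, hPQ, hΨ, hH, hc, hn, h1, h2, h3⟩ := h
  have hdet : P.det * Q.det = 1 := by rw [← Matrix.det_mul, hPQ, Matrix.det_one]
  have hΨd : Ψ.det = ∏ i, α i := by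
    rw [hΨ, Matrix.det_mul, Matrix.det_mul, Matrix.det_diagonal]
    calc P.det * (∏ i, α i) * Q.det = (P.det * Q.det) * ∏ i, α i := by ring
      _ = ∏ i, α i := by rw [hdet, one_mul]
  have hΨ0 : Ψ.det ≠ 0 := by
    rw [hΨd]
    exact Finset.prod_ne_zero_iff.mpr fun i _ => hα i
  have hu : IsUnit Ψ.det := isUnit_iff_ne_zero.mpr hΨ0
  have e1 : Φ = Ψ * (1 + Ψ⁻¹ * (Φ - Ψ)) := by
    rw [Matrix.mul_add, Matrix.mul_one, ← Matrix.mul_assoc, Matrix.mul_nonsing_inv _ hu,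
      Matrix.one_mul]
    abel
  have e2 : IsNilpotent (Ψ⁻¹ * (Φ - Ψ)) := by
    have c1 : Commute Ψ (Φ - Ψ) := (hc.sub_left (Commute.refl _)).symm
    have c2 : Commute Ψ⁻¹ (Φ - Ψ) := by
      rw [Commute, SemiconjBy]
      calc Ψ⁻¹ * (Φ - Ψ) = Ψ⁻¹ * ((Φ - Ψ) * Ψ) * Ψ⁻¹ := by
            rw [Matrix.mul_assoc, Matrix.mul_assoc, Matrix.mul_nonsing_inv _ hu, Matrix.mul_one]
        _ = Ψ⁻¹ * (Ψ * (Φ - Ψ)) * Ψ⁻¹ := by rw [c1.eq]
        _ = (Φ - Ψ) * Ψ⁻¹ := by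
            rw [← Matrix.mul_assoc, Matrix.nonsing_inv_mul _ hu, Matrix.one_mul]
    exact Commute.isNilpotent_mul_left c2 hn
  rw [e1, Matrix.det_mul, det_one_add_nil _ e2, mul_one, hΨd]

theorem Adapted.sum_eq {Φ N : Matrix ι ι ℂ} {s : ι → ℤ} {α : ι → ℂ} (h : Adapted Φ N s α) :
    ∑ i, s i = 0 := by
  obtain ⟨P, Q, Ψ, E, H, hPQ, hΨ, hH, hc, hn, h1, h2, h3⟩ := h
  have hQP : Q * P = 1 := mul_eq_one_comm.mp hPQ
  have e1 : H.trace = 0 := by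
    rw [← h3, Matrix.trace_sub, Matrix.trace_mul_comm, sub_self]
  rw [hH, Matrix.trace_mul_comm, ← Matrix.mul_assoc, hQP, Matrix.one_mul,
    Matrix.trace_diagonal] at e1
  exact_mod_cast e1

end

end Pool.Agent.WM77
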