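import Pool.Agent.WM77.Mult

/-!
Adapted bases, their tensor products and the pure part.
-/

namespace Pool.Agent.WM77

open Module Matrix Kronecker

section
variable {ι κ : Type*} [Fintype ι] [DecidableEq ι] [Fintype κ] [DecidableEq κ]

/-- there is a basis adapted to `Φ` and `N`, with weights `s` and eigenvalues `α` -/
def Adapted (Φ N : Matrix ι ι ℂ) (s : ι → ℤ) (α : ι → ℂ) : Prop :=
  ∃ P Q Ψ E H : Matrix ι ι ℂ, P * Q = 1 ∧ Ψ = P * Matrix.diagonal α * Q ∧
    H = P * (Matrix.diagonal fun i => (s i : ℂ)) * Q ∧ Commute Φ Ψ ∧ IsNilpotent (Φ - Ψ) ∧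
    H * N = N * H - (2 : ℂ) • N ∧ H * E = E * H + (2 : ℂ) • E ∧ E * N - N * E = H

omit [Fintype ι] [DecidableEq ι] [Fintype κ] [DecidableEq κ] in
theorem sub_kron (A B : Matrix ι ι ℂ) (C : Matrix κ κ ℂ) :
    (A - B) ⊗ₖ C = A ⊗ₖ C - B ⊗ₖ C := by
  ext p p'
  simp only [Matrix.kroneckerMap_apply, Matrix.sub_apply, sub_mul]

omit [Fintype ι] [DecidableEq ι] [Fintype κ] [DecidableEq κ] in
theorem kron_sub (A : Matrix ι ι ℂ) (C D : Matrix κ κ ℂ) :
    A ⊗ₖ (C - D) = A ⊗ₖ C - A ⊗ₖ D := by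
  ext p p'
  simp only [Matrix.kroneckerMap_apply, Matrix.sub_apply, mul_sub]

omit [Fintype ι] [Fintype κ] in
theorem kron_diag (a : ι → ℂ) (b : κ → ℂ) :
    (Matrix.diagonal a) ⊗ₖ (Matrix.diagonal b) = Matrix.diagonal fun p : ι × κ => a p.1 * b p.2 := by
  ext p p'
  rw [Matrix.kroneckerMap_apply]
  by_cases h1 : p.1 = p'.1
  · by_cases h2 : p.2 = p'.2
    · have : p = p' := Prod.ext h1 h2
      subst this
      simp
    · rw [Matrix.diagonal_apply_ne _ h2, mul_zero, Matrix.diagonal_apply_ne]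
      intro h
      exact h2 (by rw [h])
  · rw [Matrix.diagonal_apply_ne _ h1, zero_mul, Matrix.diagonal_apply_ne]
    intro h
    exact h1 (by rw [h])

theorem Adapted.kron {Φ N : Matrix ι ι ℂ} {s : ι → ℤ} {α : ι → ℂ} (h : Adapted Φ N s α)
    {Φ' N' : Matrix κ κ ℂ} {s' : κ → ℤ} {α' : κ → ℂ} (h' : Adapted Φ' N' s' α') :
    Adapted (Φ ⊗ₖ Φ') (N ⊗ₖ (1 : Matrix κ κ ℂ) + (1 : Matrix ι ι ℂ) ⊗ₖ N')
      (fun p => s p.1 + s' p.2) (fun p => α p.1 * α' p.2) := by
  obtain ⟨P, Q, Ψ, E, H, hPQ, hΨ, hH, hc, hn, h1, h2, h3⟩ := h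
  obtain ⟨P', Q', Ψ', E', H', hPQ', hΨ', hH', hc', hn', h1', h2', h3'⟩ := h'
  have kk : ∀ (A B : Matrix ι ι ℂ) (A' B' : Matrix κ κ ℂ),
      (A ⊗ₖ A') * (B ⊗ₖ B') = (A * B) ⊗ₖ (A' * B') := fun A B A' B' =>
    (Matrix.mul_kronecker_mul A B A' B').symm
  refine ⟨P ⊗ₖ P', Q ⊗ₖ Q', Ψ ⊗ₖ Ψ', E ⊗ₖ (1 : Matrix κ κ ℂ) + (1 : Matrix ι ι ℂ) ⊗ₖ E',
    H ⊗ₖ (1 : Matrix κ κ ℂ) + (1 : Matrix ι ι ℂ) ⊗ₖ H', ?_, ?_, ?_, ?_, ?_, ?_, ?_, ?_⟩
  · rw [kk, hPQ, hPQ', Matrix.one_kronecker_one]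
  · rw [hΨ, hΨ', ← kron_diag, kk, kk]
  · have e1 : (Matrix.diagonal fun p : ι × κ => ((s p.1 + s' p.2 : ℤ) : ℂ))
        = (Matrix.diagonal fun i => (s i : ℂ)) ⊗ₖ (1 : Matrix κ κ ℂ)
          + (1 : Matrix ι ι ℂ) ⊗ₖ (Matrix.diagonal fun i => (s' i : ℂ)) := by
      rw [← Matrix.diagonal_one, ← Matrix.diagonal_one, kron_diag, kron_diag,
        Matrix.diagonal_add]
      congr 1
      funext p
      push_cast
      ring
    rw [e1, mul_add, add_mul, kk, kk, kk, kk, Matrix.mul_one, Matrix.mul_one, ← hH, ← hH',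
      hPQ, hPQ']
  · rw [Commute, SemiconjBy, kk, kk, hc.eq, hc'.eq]
  · have e1 : Φ ⊗ₖ Φ' - Ψ ⊗ₖ Ψ' = (Φ - Ψ) ⊗ₖ Φ' + Ψ ⊗ₖ (Φ' - Ψ') := by
      rw [sub_kron, kron_sub]
      abel
    rw [e1]
    have c1 : Commute (Φ - Ψ) Ψ := hc.sub_left (Commute.refl _)
    have c2 : Commute Φ' (Φ' - Ψ') := (Commute.refl _).sub_right hc'
    apply Commute.isNilpotent_add
    · rw [Commute, SemiconjBy, kk, kk, c1.eq, c2.eq]
    · obtain ⟨k, hk⟩ := hn
      refine ⟨k, ?_⟩
      have : ∀ k : ℕ, ((Φ - Ψ) ⊗ₖ Φ') ^ k = ((Φ - Ψ) ^ k) ⊗ₖ (Φ' ^ k) := by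
        intro k
        induction k with
        | zero => simp
        | succ k ih => rw [pow_succ, ih, kk, ← pow_succ, ← pow_succ]
      rw [this, hk, Matrix.zero_kronecker]
    · obtain ⟨k, hk⟩ := hn'
      refine ⟨k, ?_⟩
      have : ∀ k : ℕ, (Ψ ⊗ₖ (Φ' - Ψ')) ^ k = (Ψ ^ k) ⊗ₖ ((Φ' - Ψ') ^ k) := by
        intro k
        induction k with
        | zero => simp
        | succ k ih => rw [pow_succ, ih, kk, ← pow_succ, ← pow_succ]
      rw [this, hk, Matrix.kronecker_zero]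
  · simp only [mul_add, add_mul, kk, Matrix.mul_one, Matrix.one_mul, h1, h1', sub_kron,
      kron_sub, Matrix.smul_kronecker, Matrix.kronecker_smul, smul_add]
    abel
  · simp only [mul_add, add_mul, kk, Matrix.mul_one, Matrix.one_mul, h2, h2', Matrix.add_kronecker,
      Matrix.kronecker_add, Matrix.smul_kronecker, Matrix.kronecker_smul, smul_add]
    abel
  · rw [← h3, ← h3']
    simp only [mul_add, add_mul, kk, Matrix.mul_one, Matrix.one_mul, sub_kron,
      kron_sub]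
    abel

theorem Adapted.reindex (e : ι ≃ κ) {Φ N : Matrix ι ι ℂ} {s : ι → ℤ} {α : ι → ℂ}
    (h : Adapted Φ N s α) :
    Adapted (Matrix.reindex e e Φ) (Matrix.reindex e e N) (fun i => s (e.symm i))
      (fun i => α (e.symm i)) := by
  obtain ⟨P, Q, Ψ, E, H, hPQ, hΨ, hH, hc, hn, h1, h2, h3⟩ := h
  have hm : ∀ A B : Matrix ι ι ℂ, Matrix.reindex e e A * Matrix.reindex e e B
      = Matrix.reindex e e (A * B) := by
    intro A B
    simp only [Matrix.reindex_apply, Matrix.submatrix_mul_equiv]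
  have hs : ∀ A B : Matrix ι ι ℂ, Matrix.reindex e e A - Matrix.reindex e e B
      = Matrix.reindex e e (A - B) := fun A B => rfl
  have ha : ∀ A B : Matrix ι ι ℂ, Matrix.reindex e e A + Matrix.reindex e e B
      = Matrix.reindex e e (A + B) := fun A B => rfl
  have hsm : ∀ (c : ℂ) (A : Matrix ι ι ℂ), c • Matrix.reindex e e A
      = Matrix.reindex e e (c • A) := fun c A => rfl
  have hd : ∀ a : ι → ℂ, Matrix.diagonal (fun i => a (e.symm i))
      = Matrix.reindex e e (Matrix.diagonal a) := by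
    intro a
    ext i j
    simp only [Matrix.reindex_apply, Matrix.submatrix_apply, Matrix.diagonal_apply,
      EmbeddingLike.apply_eq_iff_eq]
  refine ⟨Matrix.reindex e e P, Matrix.reindex e e Q, Matrix.reindex e e Ψ, Matrix.reindex e e E,
    Matrix.reindex e e H, ?_, ?_, ?_, ?_, ?_, ?_, ?_, ?_⟩
  · rw [hm, hPQ]
    simp
  · rw [hd, hm, hm, hΨ]
  · have : (Matrix.diagonal fun i => (((fun i => s (e.symm i)) i : ℤ) : ℂ))
        = Matrix.reindex e e (Matrix.diagonal fun i => (s i : ℂ)) := hd (fun i => (s i : ℂ))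
    rw [this, hm, hm, hH]
  · rw [Commute, SemiconjBy, hm, hm, hc.eq]
  · rw [hs]
    obtain ⟨k, hk⟩ := hn
    refine ⟨k, ?_⟩
    have : ∀ (A : Matrix ι ι ℂ) (k : ℕ), (Matrix.reindex e e A) ^ k = Matrix.reindex e e (A ^ k) := by
      intro A k
      induction k with
      | zero => simp
      | succ k ih => rw [pow_succ, ih, hm, ← pow_succ]
    rw [this, hk]
    rfl
  · rw [hm, hm, hsm, hs, h1]
  · rw [hm, hm, hsm, ha, h2]
  · rw [hm, hm, hs, h3]

open Classical in
theorem Adapted.pure (q : ℝ) {Φ N : Matrix ι ι ℂ} {s : ι → ℤ} {α : ι → ℂ}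
    (h : Adapted Φ N s α) : ∃ M, IsMono (Matrix.toLin' N) M ∧
      pureDim q (Matrix.toLin' Φ) M
        = (Finset.univ.filter fun i => ‖α i‖ = q ^ ((s i : ℝ) / 2)).card := by
  obtain ⟨P, Q, Ψ, E, H, hPQ, hΨ, hH, hc, hn, h1, h2, h3⟩ := h
  have hQP : Q * P = 1 := mul_eq_one_comm.mp hPQ
  have cP : ∀ A : Matrix ι ι ℂ, P * (Q * A) = A := by
    intro A
    rw [← Matrix.mul_assoc, hPQ, Matrix.one_mul]
  have cQ : ∀ A : Matrix ι ι ℂ, Q * (P * A) = A := by
    intro A
    rw [← Matrix.mul_assoc, hQP, Matrix.one_mul]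
  have hR : Rel s (Q * N * P) (Q * E * P) := by
    have e1 : (Matrix.diagonal fun i => (s i : ℂ)) = Q * H * P := by
      rw [hH]
      simp only [Matrix.mul_assoc, hQP, Matrix.mul_one, cQ]
    refine ⟨?_, ?_, ?_⟩
    · rw [e1]
      have := congrArg (fun A => Q * A * P) h1
      simp only [Matrix.mul_sub, Matrix.sub_mul, Matrix.mul_smul, Matrix.smul_mul] at this
      simpa only [Matrix.mul_assoc, cP] using this
    · rw [e1]
      have := congrArg (fun A => Q * A * P) h2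
      simp only [Matrix.mul_add, Matrix.add_mul, Matrix.mul_smul, Matrix.smul_mul] at this
      simpa only [Matrix.mul_assoc, cP] using this
    · rw [e1]
      have := congrArg (fun A => Q * A * P) h3
      simp only [Matrix.mul_sub, Matrix.sub_mul] at this
      simpa only [Matrix.mul_assoc, cP] using this
  have hcc : Commute (Q * Φ * P) (Matrix.diagonal α) := by
    have e1 : Matrix.diagonal α = Q * Ψ * P := by
      rw [hΨ]
      simp only [Matrix.mul_assoc, hQP, Matrix.mul_one, cQ]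
    rw [e1, Commute, SemiconjBy]
    have := congrArg (fun A => Q * A * P) hc.eq
    simpa only [Matrix.mul_assoc, cP] using this
  have hnn : IsNilpotent (Q * Φ * P - Matrix.diagonal α) := by
    have e1 : Q * Φ * P - Matrix.diagonal α = Q * (Φ - Ψ) * P := by
      rw [Matrix.mul_sub, Matrix.sub_mul, hΨ]
      simp only [Matrix.mul_assoc, hQP, Matrix.mul_one, cQ]
    rw [e1]
    obtain ⟨k, hk⟩ := hn
    refine ⟨k, ?_⟩
    have : ∀ k : ℕ, (Q * (Φ - Ψ) * P) ^ k = Q * (Φ - Ψ) ^ k * P := by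
      intro k
      induction k with
      | zero => simp [hQP]
      | succ k ih =>
        rw [pow_succ, ih, pow_succ]
        simp only [Matrix.mul_assoc, cP]
    rw [this, hk]
    simp
  let e : (ι → ℂ) ≃ₗ[ℂ] (ι → ℂ) := Matrix.toLin'OfInv hQP hPQ
  have he : ∀ x, e x = Matrix.toLin' P x := fun x => rfl
  have hN : ∀ x, e (Matrix.toLin' (Q * N * P) x) = Matrix.toLin' N (e x) := by
    intro x
    rw [he, he, ← LinearMap.comp_apply, ← LinearMap.comp_apply, ← Matrix.toLin'_mul,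
      ← Matrix.toLin'_mul]
    simp only [Matrix.mul_assoc, cP]
  have hΦ : ∀ x, e (Matrix.toLin' (Q * Φ * P) x) = Matrix.toLin' Φ (e x) := by
    intro x
    rw [he, he, ← LinearMap.comp_apply, ← LinearMap.comp_apply, ← Matrix.toLin'_mul,
      ← Matrix.toLin'_mul]
    simp only [Matrix.mul_assoc, cP]
  refine ⟨_, hR.isMono.map e hN, ?_⟩
  rw [pureDim_map e q hΦ, pureDim_eq q s hcc hnn]

end

section
variable {b : ℕ}

theorem kpow_succ (A : Matrix (Fin b) (Fin b) ℂ) (k : ℕ) :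
    kpow A (k + 1) = Matrix.reindex (Fin.consEquiv (fun _ => Fin b))
      (Fin.consEquiv (fun _ => Fin b)) (A ⊗ₖ kpow A k) := by
  ext f g
  simp [kpow, Fin.prod_univ_succ, Matrix.kroneckerMap_apply, Fin.tail]

theorem ksum_succ (A : Matrix (Fin b) (Fin b) ℂ) (k : ℕ) :
    ksum A (k + 1) = Matrix.reindex (Fin.consEquiv (fun _ => Fin b))
      (Fin.consEquiv (fun _ => Fin b)) (A ⊗ₖ (1 : Matrix (Fin k → Fin b) (Fin k → Fin b) ℂ)
        + (1 : Matrix (Fin b) (Fin b) ℂ) ⊗ₖ ksum A k) := by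
  ext f g
  have e1 : ∀ i : Fin (k + 1), (∏ j ∈ Finset.univ.erase i, if f j = g j then (1 : ℂ) else 0)
      = if ∀ j, j ≠ i → f j = g j then 1 else 0 := by
    intro i
    split_ifs with h
    · apply Finset.prod_eq_one
      intro j hj
      rw [if_pos (h j (Finset.ne_of_mem_erase hj))]
    · push Not at h
      obtain ⟨j, hj, hj2⟩ := h
      exact Finset.prod_eq_zero (Finset.mem_erase.mpr ⟨hj, Finset.mem_univ j⟩) (if_neg hj2)
  have e2 : ∀ i : Fin k, (∏ j ∈ Finset.univ.erase i,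
      if Fin.tail f j = Fin.tail g j then (1 : ℂ) else 0)
      = if ∀ j, j ≠ i → Fin.tail f j = Fin.tail g j then 1 else 0 := by
    intro i
    split_ifs with h
    · apply Finset.prod_eq_one
      intro j hj
      rw [if_pos (h j (Finset.ne_of_mem_erase hj))]
    · push Not at h
      obtain ⟨j, hj, hj2⟩ := h
      exact Finset.prod_eq_zero (Finset.mem_erase.mpr ⟨hj, Finset.mem_univ j⟩) (if_neg hj2)
  simp only [ksum, Matrix.of_apply, e1, e2, Matrix.reindex_apply, Matrix.submatrix_apply,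
    Matrix.add_apply, Matrix.kroneckerMap_apply, Fin.consEquiv, Equiv.coe_fn_symm_mk,
    Matrix.one_apply]
  rw [Fin.sum_univ_succ]
  congr 1
  · congr 1
    have : (∀ j : Fin (k + 1), j ≠ 0 → f j = g j) ↔ Fin.tail f = Fin.tail g := by
      constructor
      · intro h
        funext j
        exact h j.succ (Fin.succ_ne_zero j)
      · intro h j hj
        obtain ⟨j', rfl⟩ := Fin.exists_succ_eq.mpr hj
        exact congrFun h j'
    simp only [this]
  · rw [Finset.mul_sum]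
    refine Finset.sum_congr rfl fun i _ => ?_
    have : (∀ j : Fin (k + 1), j ≠ i.succ → f j = g j) ↔
        (f 0 = g 0 ∧ ∀ j : Fin k, j ≠ i → Fin.tail f j = Fin.tail g j) := by
      constructor
      · intro h
        refine ⟨h 0 (Fin.succ_ne_zero i).symm, fun j hj => h j.succ ?_⟩
        intro h'
        exact hj (Fin.succ_injective _ h')
      · rintro ⟨h0, h⟩ j hj
        by_cases hj0 : j = 0
        · rw [hj0]; exact h0
        · obtain ⟨j', rfl⟩ := Fin.exists_succ_eq.mpr hj0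
          exact h j' fun h' => hj (by rw [h'])
    simp only [this]
    by_cases h0 : f 0 = g 0
    · simp only [h0, true_and, if_true, one_mul]
      rfl
    · simp only [h0, false_and, if_false, mul_zero, zero_mul]

theorem Adapted.one : Adapted (1 : Matrix (Fin 0 → Fin b) (Fin 0 → Fin b) ℂ) 0 (fun _ => 0)
    (fun _ => 1) := by
  refine ⟨1, 1, 1, 0, 0, by simp, ?_, ?_, Commute.refl _, ?_, by simp, by simp, by simp⟩
  · simp
  · simp
  · rw [sub_self]
    exact IsNilpotent.zero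

theorem Adapted.kpow {Φ N : Matrix (Fin b) (Fin b) ℂ} {s : Fin b → ℤ} {α : Fin b → ℂ}
    (h : Adapted Φ N s α) (k : ℕ) :
    Adapted (kpow Φ k) (ksum N k) (fun f => ∑ i, s (f i)) (fun f => ∏ i, α (f i)) := by
  induction k with
  | zero =>
    have e1 : WM77.kpow Φ 0 = 1 := by
      ext f g
      rw [Subsingleton.elim f g]
      simp [WM77.kpow]
    have e2 : ksum N 0 = 0 := by
      ext f g
      simp [ksum]
    rw [e1, e2]
    simpa using Adapted.one
  | succ k ih =>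
    rw [kpow_succ, ksum_succ]
    have := (h.kron ih).reindex (Fin.consEquiv (fun _ => Fin b))
    convert this using 2
    · rw [Fin.sum_univ_succ]
      rfl
    · rw [Fin.prod_univ_succ]
      rfl

end

end Pool.Agent.WM77
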