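import Pool.Agent.FS77.Walk

/-!
Anti-concentration of sums of independent letters.
-/

namespace Pool.Agent.WM77

open Finset

section
variable {b : ℕ} (d : Fin b → ℝ)

open Classical in
/-- the number of words with sum `x` -/
noncomputable def ZZ (k : ℕ) (x : ℝ) : ℝ := ∑ f : Fin k → Fin b, if ∑ i, d (f i) = x then 1 else 0

theorem ZZ_succ (k : ℕ) (x : ℝ) : ZZ d (k + 1) x = ∑ j, ZZ d k (x - d j) := by
  unfold ZZ
  rw [← (Fin.consEquiv (fun _ => Fin b)).sum_comp, Fintype.sum_prod_type]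
  refine Finset.sum_congr rfl fun j _ => Finset.sum_congr rfl fun f _ => ?_
  have : (∑ i, d ((Fin.consEquiv (fun _ => Fin b)) (j, f) i) = x) ↔ (∑ i, d (f i) = x - d j) := by
    rw [Fin.sum_univ_succ]
    simp only [Fin.consEquiv, Equiv.coe_fn_mk, Fin.cons_zero, Fin.cons_succ]
    constructor <;> intro h <;> linarith
  simp only [this]

theorem ZZ_zero (x : ℝ) : ZZ d 0 x = if x = 0 then 1 else 0 := by
  unfold ZZ
  simp only [Finset.univ_eq_empty, Finset.sum_empty, Finset.sum_const, Finset.card_univ,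
    Fintype.card_pi, Finset.prod_empty, one_smul]
  split_ifs with h1 h2 h2
  · rfl
  · exact absurd h1.symm h2
  · exact absurd h2.symm h1
  · rfl

theorem ZZ_nonneg (k : ℕ) (x : ℝ) : 0 ≤ ZZ d k x := by
  unfold ZZ
  apply Finset.sum_nonneg
  intro f _
  split_ifs <;> norm_num

/-- words and a multiset of `l` of the two letters -/
noncomputable def UU (a c : ℝ) (k l : ℕ) (x : ℝ) : ℝ :=
  ∑ p ∈ antidiagonal l, (l.choose p.1 : ℝ) * ZZ d k (x - p.1 * c - p.2 * a)

theorem UU_zero (a c : ℝ) (hac : a ≠ c) (l : ℕ) (x : ℝ) :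
    UU d a c 0 l x ≤ (l.choose (l / 2) : ℝ) := by
  unfold UU
  simp only [ZZ_zero]
  by_cases h : ∃ p ∈ antidiagonal l, x - (p.1 : ℝ) * c - (p.2 : ℝ) * a = 0
  · obtain ⟨p, hp, hx⟩ := h
    rw [Finset.sum_eq_single_of_mem p hp]
    · rw [if_pos hx, mul_one]
      exact_mod_cast Nat.choose_le_middle _ _
    · intro p' hp' hne
      rw [if_neg, mul_zero]
      intro hx'
      apply hne
      rw [Finset.HasAntidiagonal.mem_antidiagonal] at hp hp'
      have e1 : (p.1 : ℝ) + p.2 = l := by exact_mod_cast hp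
      have e2 : (p'.1 : ℝ) + p'.2 = l := by exact_mod_cast hp'
      have e3 : ((p.1 : ℝ) - p'.1) * (c - a) = 0 := by
        have h2 : (p.2 : ℝ) = l - p.1 := by linarith
        have h2' : (p'.2 : ℝ) = l - p'.1 := by linarith
        rw [h2] at hx
        rw [h2'] at hx'
        linear_combination hx' - hx
      rcases mul_eq_zero.mp e3 with h3 | h3
      · have h4 : p.1 = p'.1 := by exact_mod_cast sub_eq_zero.mp h3
        apply Prod.ext
        · exact h4.symm
        · omega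
      · exact absurd (sub_eq_zero.mp h3).symm hac
  · push Not at h
    rw [Finset.sum_eq_zero]
    · exact Nat.cast_nonneg _
    · intro p hp
      rw [if_neg (h p hp), mul_zero]

theorem UU_two (a c : ℝ) (k l : ℕ) (x : ℝ) :
    UU d a c k (l + 1) x = UU d a c k l (x - a) + UU d a c k l (x - c) := by
  unfold UU
  rw [Finset.sum_antidiagonal_choose_succ_mul
    (fun i j => ZZ d k (x - (i : ℝ) * c - (j : ℝ) * a)) l]
  congr 1
  · refine Finset.sum_congr rfl fun p _ => ?_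
    congr 2
    push_cast
    ring
  · refine Finset.sum_congr rfl fun p hp => ?_
    rw [Finset.HasAntidiagonal.mem_antidiagonal] at hp
    congr 1
    · congr 1
      rw [← hp]
      exact Nat.choose_symm_add.symm
    · congr 1
      push_cast
      ring

theorem UU_succ (a c : ℝ) (k l : ℕ) (x : ℝ) :
    UU d a c (k + 1) l x = ∑ j, UU d a c k l (x - d j) := by
  unfold UU
  simp only [ZZ_succ, Finset.mul_sum]
  rw [Finset.sum_comm]
  refine Finset.sum_congr rfl fun j _ => Finset.sum_congr rfl fun p _ => ?_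
  congr 2
  ring

/-- the average of `G` -/
noncomputable def RR (c : ℝ) (k : ℕ) (G : ℕ → ℝ) : ℝ :=
  ∑ p ∈ antidiagonal k, (k.choose p.1 : ℝ) * (c ^ p.2 * G p.1)

theorem RR_succ (c : ℝ) (k : ℕ) (G : ℕ → ℝ) :
    RR c (k + 1) G = c * RR c k G + RR c k (fun l => G (l + 1)) := by
  unfold RR
  rw [Finset.sum_antidiagonal_choose_succ_mul (fun i j => c ^ j * G i) k, Finset.mul_sum]
  congr 1
  · refine Finset.sum_congr rfl fun p _ => ?_
    ring
  · refine Finset.sum_congr rfl fun p hp => ?_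
    rw [Finset.HasAntidiagonal.mem_antidiagonal] at hp
    congr 2
    rw [← hp]
    exact Nat.choose_symm_add.symm

theorem RR_mono (c : ℝ) (hc : 0 ≤ c) (k : ℕ) (G G' : ℕ → ℝ) (h : ∀ l, G l ≤ G' l) :
    RR c k G ≤ RR c k G' := by
  unfold RR
  apply Finset.sum_le_sum
  intro p _
  apply mul_le_mul_of_nonneg_left _ (Nat.cast_nonneg _)
  exact mul_le_mul_of_nonneg_left (h _) (pow_nonneg hc _)

theorem RR_add (c : ℝ) (k : ℕ) (G G' : ℕ → ℝ) (s t : ℝ) :
    RR c k (fun l => s * G l + t * G' l) = s * RR c k G + t * RR c k G' := by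
  unfold RR
  rw [Finset.mul_sum, Finset.mul_sum, ← Finset.sum_add_distrib]
  refine Finset.sum_congr rfl fun p _ => ?_
  ring

theorem RR_two (c : ℝ) (k : ℕ) : RR c k (fun l => 2 ^ l) = (c + 2) ^ k := by
  unfold RR
  rw [add_comm c 2, (Commute.all (2 : ℝ) c).add_pow']
  refine Finset.sum_congr rfl fun p _ => ?_
  rw [nsmul_eq_mul]
  ring

theorem RR_inv (c : ℝ) (hc : 0 ≤ c) (k : ℕ) :
    RR c k (fun l => 2 ^ l / (l + 1)) ≤ (c + 2) ^ (k + 1) / (2 * (k + 1)) := by
  have h1 : (c + 2) ^ (k + 1) = c ^ (k + 1)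
      + ∑ p ∈ antidiagonal k, ((k + 1).choose (p.1 + 1) : ℝ) * (2 ^ (p.1 + 1) * c ^ p.2) := by
    rw [add_comm c 2, (Commute.all (2 : ℝ) c).add_pow', Finset.Nat.sum_antidiagonal_succ]
    simp only [pow_zero, one_mul, Nat.choose_zero_right, one_smul, nsmul_eq_mul]
  have hk : (0 : ℝ) < 2 * ((k : ℝ) + 1) := by positivity
  rw [le_div_iff₀ hk, h1]
  have h2 : RR c k (fun l => 2 ^ l / (l + 1)) * (2 * ((k : ℝ) + 1))
      = ∑ p ∈ antidiagonal k, ((k + 1).choose (p.1 + 1) : ℝ) * (2 ^ (p.1 + 1) * c ^ p.2) := by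
    unfold RR
    rw [Finset.sum_mul]
    refine Finset.sum_congr rfl fun p _ => ?_
    have h3 : ((k : ℝ) + 1) * (k.choose p.1 : ℝ) = ((k + 1).choose (p.1 + 1) : ℝ) * (p.1 + 1) := by
      exact_mod_cast Nat.add_one_mul_choose_eq k p.1
    have h4 : (0 : ℝ) < (p.1 : ℝ) + 1 := by positivity
    have h5 : (k.choose p.1 : ℝ) * (c ^ p.2 * (2 ^ p.1 / ((p.1 : ℝ) + 1))) * (2 * ((k : ℝ) + 1))
        = (((k : ℝ) + 1) * (k.choose p.1 : ℝ)) * (2 ^ (p.1 + 1) * c ^ p.2) / ((p.1 : ℝ) + 1) := by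
      field_simp
      ring
    rw [h5, h3]
    field_simp
  rw [h2]
  have := pow_nonneg hc (k + 1)
  linarith

theorem UU_le (i₀ i₁ : Fin b) (hd : d i₀ ≠ d i₁) (k : ℕ) : ∀ (l : ℕ) (x : ℝ),
    UU d (d i₀) (d i₁) k l x ≤ RR ((b : ℝ) - 2) k (fun j => ((j + l).choose ((j + l) / 2) : ℝ)) := by
  have hne : i₀ ≠ i₁ := fun h => hd (by rw [h])
  have hb : 2 ≤ b := by
    have h1 := i₀.2
    have h2 := i₁.2
    have h3 : (i₀ : ℕ) ≠ i₁ := fun h => hne (Fin.ext h)
    omega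
  have hb' : (0 : ℝ) ≤ (b : ℝ) - 2 := by
    have : (2 : ℝ) ≤ b := by exact_mod_cast hb
    linarith
  induction k with
  | zero =>
    intro l x
    refine (UU_zero d _ _ hd l x).trans (le_of_eq ?_)
    simp [RR]
  | succ k ih =>
    intro l x
    rw [UU_succ, RR_succ]
    have h1 : ∑ j, UU d (d i₀) (d i₁) k l (x - d j)
        = UU d (d i₀) (d i₁) k (l + 1) x
          + ∑ j ∈ (univ.erase i₀).erase i₁, UU d (d i₀) (d i₁) k l (x - d j) := by
      rw [← Finset.add_sum_erase _ _ (Finset.mem_univ i₀),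
        ← Finset.add_sum_erase _ _ (Finset.mem_erase.mpr ⟨hne.symm, Finset.mem_univ i₁⟩),
        UU_two, add_assoc]
    rw [h1, add_comm]
    apply add_le_add
    · have hcard : (((univ.erase i₀).erase i₁).card : ℝ) = (b : ℝ) - 2 := by
        rw [Finset.card_erase_of_mem (Finset.mem_erase.mpr ⟨hne.symm, Finset.mem_univ i₁⟩),
          Finset.card_erase_of_mem (Finset.mem_univ i₀), Finset.card_univ, Fintype.card_fin,
          Nat.sub_sub, Nat.cast_sub (by omega)]
        norm_num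
      calc ∑ j ∈ (univ.erase i₀).erase i₁, UU d (d i₀) (d i₁) k l (x - d j)
          ≤ ∑ j ∈ (univ.erase i₀).erase i₁,
            RR ((b : ℝ) - 2) k (fun j => ((j + l).choose ((j + l) / 2) : ℝ)) :=
            Finset.sum_le_sum fun j _ => ih l _
        _ = ((b : ℝ) - 2) * RR ((b : ℝ) - 2) k (fun j => ((j + l).choose ((j + l) / 2) : ℝ)) := by
            rw [Finset.sum_const, nsmul_eq_mul, hcard]
    · have h2 := ih (l + 1) x
      have h3 : (fun j : ℕ => ((j + (l + 1)).choose ((j + (l + 1)) / 2) : ℝ))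
          = fun j : ℕ => (((j + 1) + l).choose (((j + 1) + l) / 2) : ℝ) := by
        funext j
        have : j + (l + 1) = (j + 1) + l := by ring
        rw [this]
      rw [h3] at h2
      exact h2

theorem ZZ_le (i₀ i₁ : Fin b) (hd : d i₀ ≠ d i₁) (k : ℕ) (x : ℝ) :
    ZZ d k x ≤ Real.sqrt (b / (2 * (k + 1))) * b ^ k := by
  have hne : i₀ ≠ i₁ := fun h => hd (by rw [h])
  have hb : 2 ≤ b := by
    have h1 := i₀.2
    have h2 := i₁.2
    have h3 : (i₀ : ℕ) ≠ i₁ := fun h => hne (Fin.ext h)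
    omega
  have hbr : (2 : ℝ) ≤ b := by exact_mod_cast hb
  have hb' : (0 : ℝ) ≤ (b : ℝ) - 2 := by linarith
  have hb0 : (0 : ℝ) < b := by linarith
  have h0 := UU_le d i₀ i₁ hd k 0 x
  have h1 : UU d (d i₀) (d i₁) k 0 x = ZZ d k x := by
    simp [UU]
  rw [h1] at h0
  set t : ℝ := Real.sqrt (2 * (k + 1) / b) with ht
  have ht2 : t ^ 2 = 2 * (k + 1) / b := Real.sq_sqrt (by positivity)
  have htpos : 0 < t := Real.sqrt_pos.mpr (by positivity)
  have hG : ∀ l : ℕ, ((l + 0).choose ((l + 0) / 2) : ℝ)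
      ≤ (t / 2) * (2 ^ l / (l + 1)) + (1 / (2 * t)) * 2 ^ l := by
    intro l
    rw [add_zero]
    have hl : (0 : ℝ) < (l : ℝ) + 1 := by positivity
    have h2 : (l.choose (l / 2) : ℝ) ≤ 2 ^ l / Real.sqrt (l + 1) := by
      rw [le_div_iff₀ (Real.sqrt_pos.mpr hl)]
      refine (pow_le_pow_iff_left₀ (by positivity) (by positivity) (two_ne_zero)).mp ?_
      rw [mul_pow, Real.sq_sqrt hl.le]
      have := FS77.middle_sq l
      have h2 : ((l : ℝ) + 1) * (l.choose (l / 2) : ℝ) ^ 2 ≤ 4 ^ l := by exact_mod_cast this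
      calc (l.choose (l / 2) : ℝ) ^ 2 * (l + 1)
          = ((l : ℝ) + 1) * (l.choose (l / 2) : ℝ) ^ 2 := by ring
        _ ≤ 4 ^ l := h2
        _ = (2 ^ l) ^ 2 := by rw [← pow_mul, mul_comm, pow_mul]; norm_num
    set y : ℝ := Real.sqrt (l + 1) with hy
    have hy2 : y ^ 2 = l + 1 := Real.sq_sqrt hl.le
    have hypos : 0 < y := Real.sqrt_pos.mpr hl
    have h3 : 1 / y ≤ (t / 2) * (1 / ((l : ℝ) + 1)) + 1 / (2 * t) := by
      rw [← hy2]
      have h4 : 0 ≤ (t - y) ^ 2 / (2 * t * y ^ 2) := by positivity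
      have h5 : (t / 2) * (1 / y ^ 2) + 1 / (2 * t) - 1 / y = (t - y) ^ 2 / (2 * t * y ^ 2) := by
        field_simp
        ring
      linarith
    have h4 : (0 : ℝ) < 2 ^ l := by positivity
    calc (l.choose (l / 2) : ℝ) ≤ 2 ^ l / y := h2
      _ = 2 ^ l * (1 / y) := by ring
      _ ≤ 2 ^ l * ((t / 2) * (1 / ((l : ℝ) + 1)) + 1 / (2 * t)) :=
          mul_le_mul_of_nonneg_left h3 h4.le
      _ = (t / 2) * (2 ^ l / (l + 1)) + (1 / (2 * t)) * 2 ^ l := by ring
  have h2 := RR_mono ((b : ℝ) - 2) hb' k _ _ hG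
  rw [RR_add, RR_two] at h2
  have h3 := RR_inv ((b : ℝ) - 2) hb' k
  have e : (b : ℝ) - 2 + 2 = b := by ring
  rw [e] at h2 h3
  have h4 : (t / 2) * RR ((b : ℝ) - 2) k (fun l => 2 ^ l / (l + 1))
      ≤ (t / 2) * ((b : ℝ) ^ (k + 1) / (2 * (k + 1))) :=
    mul_le_mul_of_nonneg_left h3 (by positivity)
  have h5 : (t / 2) * ((b : ℝ) ^ (k + 1) / (2 * (k + 1))) = (1 / (2 * t)) * b ^ k := by
    have h6 : (b : ℝ) ^ (k + 1) / (2 * (k + 1)) = b ^ k / t ^ 2 := by
      rw [ht2]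
      field_simp
      ring
    rw [h6]
    field_simp
  have h6 : Real.sqrt (b / (2 * (k + 1))) = 1 / t := by
    rw [ht, one_div, ← Real.sqrt_inv, inv_div]
  rw [h6]
  have h7 : 1 / t * (b : ℝ) ^ k = (1 / (2 * t)) * b ^ k + (1 / (2 * t)) * b ^ k := by
    field_simp
    ring
  rw [h7]
  linarith

open Classical in
theorem count_le (k : ℕ) (x : ℝ) (i₀ i₁ : Fin b) (hd : d i₀ ≠ d i₁) :
    (((univ : Finset (Fin k → Fin b)).filter fun f => ∑ i, d (f i) = x).card : ℝ)
      ≤ Real.sqrt (b / (2 * (k + 1))) * b ^ k := by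
  have h := ZZ_le d i₀ i₁ hd k x
  unfold ZZ at h
  rw [Finset.card_filter]
  push_cast
  exact h

end

end Pool.Agent.WM77
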