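import Pool.Agent.WM77.Anti

/-!
Anti-concentration of sums of independent letters with different distributions.
-/

namespace Pool.Agent.WM77

open Finset

theorem RR_inv' (c p : ℝ) (hc : 0 ≤ c) (hp : 0 < p) (k : ℕ) :
    RR c k (fun l => p ^ l / (l + 1)) ≤ (c + p) ^ (k + 1) / (p * (k + 1)) := by
  have h1 : (c + p) ^ (k + 1) = c ^ (k + 1)
      + ∑ x ∈ antidiagonal k, ((k + 1).choose (x.1 + 1) : ℝ) * (p ^ (x.1 + 1) * c ^ x.2) := by
    rw [add_comm c p, (Commute.all p c).add_pow', Finset.Nat.sum_antidiagonal_succ]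
    simp only [pow_zero, one_mul, Nat.choose_zero_right, one_smul, nsmul_eq_mul]
  have hk : (0 : ℝ) < p * ((k : ℝ) + 1) := by positivity
  rw [le_div_iff₀ hk, h1]
  have h2 : RR c k (fun l => p ^ l / (l + 1)) * (p * ((k : ℝ) + 1))
      = ∑ x ∈ antidiagonal k, ((k + 1).choose (x.1 + 1) : ℝ) * (p ^ (x.1 + 1) * c ^ x.2) := by
    unfold RR
    rw [Finset.sum_mul]
    refine Finset.sum_congr rfl fun x _ => ?_
    have h3 : ((k : ℝ) + 1) * (k.choose x.1 : ℝ) = ((k + 1).choose (x.1 + 1) : ℝ) * (x.1 + 1) := by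
      exact_mod_cast Nat.add_one_mul_choose_eq k x.1
    have h4 : (0 : ℝ) < (x.1 : ℝ) + 1 := by positivity
    have h5 : (k.choose x.1 : ℝ) * (c ^ x.2 * (p ^ x.1 / ((x.1 : ℝ) + 1))) * (p * ((k : ℝ) + 1))
        = (((k : ℝ) + 1) * (k.choose x.1 : ℝ)) * (p ^ (x.1 + 1) * c ^ x.2) / ((x.1 : ℝ) + 1) := by
      field_simp
      ring
    rw [h5, h3]
    field_simp
  rw [h2]
  have := pow_nonneg hc (k + 1)
  linarith

/-- the averages -/
noncomputable def hh (p : ℝ) (J l : ℕ) : ℝ := RR (1 - p) J fun i => p ^ i / ((l : ℝ) + i + 1)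

theorem hh_zero (p : ℝ) (l : ℕ) : hh p 0 l = 1 / ((l : ℝ) + 1) := by
  simp [hh, RR]

theorem hh_succ (p : ℝ) (J l : ℕ) : hh p (J + 1) l = (1 - p) * hh p J l + p * hh p J (l + 1) := by
  unfold hh
  rw [RR_succ]
  congr 1
  have h := RR_add (1 - p) J (fun i => p ^ i / (((l + 1 : ℕ) : ℝ) + i + 1)) (fun _ => 0) p 0
  simp only [zero_mul, add_zero] at h
  rw [← h]
  congr 1
  funext i
  push_cast
  rw [pow_succ]
  ring

theorem hh_anti (p : ℝ) (hp : 0 ≤ p) (hp1 : p ≤ 1) (J l : ℕ) : hh p J (l + 1) ≤ hh p J l := by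
  apply RR_mono _ (by linarith)
  intro i
  apply div_le_div_of_nonneg_left (pow_nonneg hp _) (by positivity)
  push_cast
  linarith

theorem hh_le (p : ℝ) (hp : 0 < p) (hp1 : p ≤ 1) (J : ℕ) : hh p J 0 ≤ 1 / (p * (J + 1)) := by
  have h := RR_inv' (1 - p) p (by linarith) hp J
  have e : 1 - p + p = 1 := by ring
  rw [e, one_pow] at h
  refine le_trans (le_of_eq ?_) h
  unfold hh
  congr 1
  funext i
  push_cast
  rw [zero_add]

/-- pending subsets -/
noncomputable def EE (l : ℕ) (D : ℕ → ℝ) (h : ℝ → ℝ) (x : ℝ) : ℝ :=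
  ∑ S ∈ (range l).powerset, h (x - ∑ i ∈ S, D i)

theorem EE_zero (D : ℕ → ℝ) (h : ℝ → ℝ) (x : ℝ) : EE 0 D h x = h x := by
  simp [EE]

theorem EE_succ (l : ℕ) (D : ℕ → ℝ) (δ : ℝ) (h : ℝ → ℝ) (x : ℝ) :
    EE (l + 1) (Function.update D l δ) h x = EE l D h x + EE l D h (x - δ) := by
  unfold EE
  rw [Finset.range_add_one, Finset.sum_powerset_insert Finset.notMem_range_self]
  have h1 : ∀ S ∈ (range l).powerset, ∑ i ∈ S, Function.update D l δ i = ∑ i ∈ S, D i := by
    intro S hS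
    refine Finset.sum_congr rfl fun i hi => ?_
    have h2 := Finset.mem_range.mp (Finset.mem_powerset.mp hS hi)
    rw [Function.update_of_ne (by omega)]
  congr 1
  · refine Finset.sum_congr rfl fun S hS => ?_
    rw [h1 S hS]
  · refine Finset.sum_congr rfl fun S hS => ?_
    have h3 : l ∉ S := by
      intro hl
      have h2 := Finset.mem_range.mp (Finset.mem_powerset.mp hS hl)
      omega
    rw [Finset.sum_insert h3, h1 S hS, Function.update_self]
    congr 1
    ring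

theorem EE_sum {β : Type*} (s : Finset β) (l : ℕ) (D : ℕ → ℝ) (h : ℝ → ℝ) (a : β → ℝ) (x : ℝ) :
    EE l D (fun y => ∑ j ∈ s, h (y - a j)) x = ∑ j ∈ s, EE l D h (x - a j) := by
  unfold EE
  rw [Finset.sum_comm]
  refine Finset.sum_congr rfl fun j _ => Finset.sum_congr rfl fun S _ => ?_
  congr 1
  ring

theorem EE_base (l : ℕ) (D : ℕ → ℝ) (hD : ∀ i < l, 0 < D i) (x : ℝ) :
    EE l D (fun y => if y = 0 then 1 else 0) x ≤ (l.choose (l / 2) : ℝ) := by
  unfold EE
  rw [← Finset.sum_filter]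
  simp only [Finset.sum_const, nsmul_eq_mul, mul_one]
  set A := (range l).powerset.filter fun S => x - ∑ i ∈ S, D i = 0 with hA
  set g : Finset ℕ → Finset (Fin l) := fun S => univ.filter fun i : Fin l => (i : ℕ) ∈ S with hg
  have hsub : ∀ S ∈ A, ∀ T ∈ A, g S ⊆ g T → S ⊆ T := by
    intro S hS T hT hST i hi
    rw [hA, mem_filter, mem_powerset] at hS hT
    have hil := mem_range.mp (hS.1 hi)
    have h1 : (⟨i, hil⟩ : Fin l) ∈ g S := by simp [hg, hi]
    have h2 := hST h1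
    simpa [hg] using h2
  have hinj : Set.InjOn g (A : Set (Finset ℕ)) := by
    intro S hS T hT hST
    apply Finset.Subset.antisymm
    · exact hsub S hS T hT (by rw [hST])
    · exact hsub T hT S hS (by rw [hST])
  have hanti : IsAntichain (· ⊆ ·) ((A.image g : Finset (Finset (Fin l))) : Set (Finset (Fin l))) := by
    intro S' hS' T' hT' hne hsub'
    rw [Finset.mem_coe, Finset.mem_image] at hS' hT'
    obtain ⟨S, hS, rfl⟩ := hS'
    obtain ⟨T, hT, rfl⟩ := hT'
    have h1 := hsub S hS T hT hsub'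
    apply hne
    congr 1
    by_contra hST
    have h2 : S ⊂ T := Finset.ssubset_iff_subset_ne.mpr ⟨h1, hST⟩
    obtain ⟨a, haT, haS⟩ := Finset.exists_of_ssubset h2
    rw [hA, mem_filter, mem_powerset] at hS hT
    have h3 : ∑ i ∈ S, D i < ∑ i ∈ T, D i := by
      apply Finset.sum_lt_sum_of_subset h1 haT haS
      · exact hD a (mem_range.mp (hT.1 haT))
      · intro j hj _
        exact (hD j (mem_range.mp (hT.1 hj))).le
    linarith [hS.2, hT.2]
  have h1 := hanti.sperner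
  rw [Fintype.card_fin, Finset.card_image_of_injOn hinj] at h1
  exact_mod_cast h1

section

open Classical in
/-- the number of words with sum `x` -/
noncomputable def ZP {k : ℕ} {b : Fin k → ℕ} (d : ∀ i, Fin (b i) → ℝ) (x : ℝ) : ℝ :=
  ∑ f : (∀ i, Fin (b i)), if ∑ i, d i (f i) = x then 1 else 0

theorem ZP_succ {k : ℕ} {b : Fin (k + 1) → ℕ} (d : ∀ i, Fin (b i) → ℝ) (x : ℝ) :
    ZP d x = ∑ j, ZP (fun i => d i.succ) (x - d 0 j) := by
  unfold ZP
  rw [← (Fin.consEquiv (fun i => Fin (b i))).sum_comp, Fintype.sum_prod_type]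
  refine Finset.sum_congr rfl fun j _ => Finset.sum_congr rfl fun f _ => ?_
  have : (∑ i, d i ((Fin.consEquiv (fun i => Fin (b i))) (j, f) i) = x)
      ↔ (∑ i : Fin k, d i.succ (f i) = x - d 0 j) := by
    rw [Fin.sum_univ_succ]
    simp only [Fin.consEquiv, Equiv.coe_fn_mk, Fin.cons_zero, Fin.cons_succ]
    constructor <;> intro h <;> linarith
  simp only [this]

theorem ZP_zero {b : Fin 0 → ℕ} (d : ∀ i, Fin (b i) → ℝ) (x : ℝ) :
    ZP d x = if x = 0 then 1 else 0 := by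
  unfold ZP
  simp only [Finset.univ_eq_empty, Finset.sum_empty, Finset.sum_const, Finset.card_univ,
    Fintype.card_pi, Finset.prod_empty, one_smul]
  split_ifs with h1 h2 h2
  · rfl
  · exact absurd h1.symm h2
  · exact absurd h2.symm h1
  · rfl

theorem mid_le (t : ℝ) (ht : 0 < t) (l : ℕ) :
    (l.choose (l / 2) : ℝ) ≤ 2 ^ l * ((t / 2) * (1 / ((l : ℝ) + 1)) + 1 / (2 * t)) := by
  have hl : (0 : ℝ) < (l : ℝ) + 1 := by positivity
  have h2 : (l.choose (l / 2) : ℝ) ≤ 2 ^ l / Real.sqrt (l + 1) := by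
    rw [le_div_iff₀ (Real.sqrt_pos.mpr hl)]
    refine (pow_le_pow_iff_left₀ (by positivity) (by positivity) (two_ne_zero)).mp ?_
    rw [mul_pow, Real.sq_sqrt hl.le]
    have := FS77.middle_sq l
    have h2 : ((l : ℝ) + 1) * (l.choose (l / 2) : ℝ) ^ 2 ≤ 4 ^ l := by exact_mod_cast this
    calc (l.choose (l / 2) : ℝ) ^ 2 * (l + 1)
        = ((l : ℝ) + 1) * (l.choose (l / 2) : ℝ) ^ 2 := by ring
      _ ≤ 4 ^ l := h2
      _ = (2 ^ l) ^ 2 := by rw [← pow_mul, mul_comm, pow_mul]; norm_num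
  set y : ℝ := Real.sqrt (l + 1) with hy
  have hy2 : y ^ 2 = l + 1 := Real.sq_sqrt hl.le
  have hypos : 0 < y := Real.sqrt_pos.mpr hl
  have h3 : 1 / y ≤ (t / 2) * (1 / ((l : ℝ) + 1)) + 1 / (2 * t) := by
    rw [← hy2]
    have h4 : 0 ≤ (t - y) ^ 2 / (2 * t * y ^ 2) := by positivity
    have h5 : (t / 2) * (1 / y ^ 2) + 1 / (2 * t) - 1 / y = (t - y) ^ 2 / (2 * t * y ^ 2) := by
      field_simp
      ring
    linarith
  calc (l.choose (l / 2) : ℝ) ≤ 2 ^ l / y := h2
    _ = 2 ^ l * (1 / y) := by ring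
    _ ≤ 2 ^ l * ((t / 2) * (1 / ((l : ℝ) + 1)) + 1 / (2 * t)) :=
        mul_le_mul_of_nonneg_left h3 (by positivity)

theorem EE_le (B : ℕ) (t : ℝ) (ht : 0 < t) (k : ℕ) : ∀ (b : Fin k → ℕ) (d : ∀ i, Fin (b i) → ℝ)
    (φ : Fin k → Bool), (∀ i, b i ≤ B) →
    (∀ i, φ i = true → ∃ j₀ j₁, d i j₀ ≠ d i j₁) → ∀ (l : ℕ) (D : ℕ → ℝ), (∀ i < l, 0 < D i) →
    ∀ x, EE l D (ZP d) x ≤ (∏ i, (b i : ℝ)) * (2 ^ l *
      ((t / 2) * hh (2 / B) (∑ i, if φ i = true then 1 else 0) l + 1 / (2 * t))) := by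
  induction k with
  | zero =>
    intro b d φ _ _ l D hD x
    have h1 : ZP d = fun y => if y = 0 then (1 : ℝ) else 0 := funext fun y => ZP_zero d y
    rw [h1]
    refine (EE_base l D hD x).trans ((mid_le t ht l).trans (le_of_eq ?_))
    simp [hh_zero]
  | succ k ih =>
    intro b d φ hb hφ l D hD x
    have h1 : ZP d = fun y => ∑ j, ZP (fun i => d i.succ) (y - d 0 j) :=
      funext fun y => ZP_succ d y
    rw [h1, EE_sum]
    have ih' := ih (fun i => b i.succ) (fun i => d i.succ) (fun i => φ i.succ)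
      (fun i => hb i.succ) (fun i hi => hφ i.succ hi)
    set P : ℝ := ∏ i : Fin k, (b i.succ : ℝ) with hP
    set J : ℕ := ∑ i : Fin k, if φ i.succ = true then 1 else 0 with hJ
    have hP0 : 0 ≤ P := Finset.prod_nonneg fun i _ => Nat.cast_nonneg _
    rw [Fin.prod_univ_succ, Fin.sum_univ_succ, ← hP, ← hJ]
    by_cases h0 : φ 0 = true
    · rw [if_pos h0, add_comm 1 J, hh_succ]
      obtain ⟨j₀, j₁, hlt⟩ : ∃ j₀ j₁, d 0 j₀ < d 0 j₁ := by
        obtain ⟨j₀, j₁, hne⟩ := hφ 0 h0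
        rcases lt_or_gt_of_ne hne with h | h
        · exact ⟨j₀, j₁, h⟩
        · exact ⟨j₁, j₀, h⟩
      have hne : j₀ ≠ j₁ := fun h => absurd hlt (by rw [h]; exact lt_irrefl _)
      have hb2 : 2 ≤ b 0 := by
        have h1 := j₀.2
        have h2 := j₁.2
        have h3 : (j₀ : ℕ) ≠ j₁ := fun h => hne (Fin.ext h)
        omega
      have hB2 : 2 ≤ B := hb2.trans (hb 0)
      have hBr : (2 : ℝ) ≤ B := by exact_mod_cast hB2
      have hbr : (2 : ℝ) ≤ b 0 := by exact_mod_cast hb2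
      have hbB : (b 0 : ℝ) ≤ B := by exact_mod_cast hb 0
      have hp0 : (0 : ℝ) ≤ 2 / B := by positivity
      have hp1 : (2 : ℝ) / B ≤ 1 := by
        rw [div_le_one (by linarith)]
        exact hBr
      have e1 : ∑ j, EE l D (ZP fun i => d i.succ) (x - d 0 j)
          = EE (l + 1) (Function.update D l (d 0 j₁ - d 0 j₀)) (ZP fun i => d i.succ) (x - d 0 j₀)
            + ∑ j ∈ (univ.erase j₀).erase j₁, EE l D (ZP fun i => d i.succ) (x - d 0 j) := by
        rw [← Finset.add_sum_erase _ _ (Finset.mem_univ j₀),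
          ← Finset.add_sum_erase _ _ (Finset.mem_erase.mpr ⟨hne.symm, Finset.mem_univ j₁⟩),
          EE_succ, add_assoc]
        have : x - d 0 j₀ - (d 0 j₁ - d 0 j₀) = x - d 0 j₁ := by ring
        rw [this]
      rw [e1]
      have e2 := ih' (l + 1) (Function.update D l (d 0 j₁ - d 0 j₀)) (by
        intro i hi
        by_cases hil : i = l
        · rw [hil, Function.update_self]
          linarith
        · rw [Function.update_of_ne hil]
          exact hD i (by omega)) (x - d 0 j₀)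
      have hcard : (((univ.erase j₀).erase j₁).card : ℝ) = (b 0 : ℝ) - 2 := by
        rw [Finset.card_erase_of_mem (Finset.mem_erase.mpr ⟨hne.symm, Finset.mem_univ j₁⟩),
          Finset.card_erase_of_mem (Finset.mem_univ j₀), Finset.card_univ, Fintype.card_fin,
          Nat.sub_sub, Nat.cast_sub (by omega)]
        norm_num
      have e3 : ∑ j ∈ (univ.erase j₀).erase j₁, EE l D (ZP fun i => d i.succ) (x - d 0 j)
          ≤ ((b 0 : ℝ) - 2) * (P * (2 ^ l * ((t / 2) * hh (2 / B) J l + 1 / (2 * t)))) := by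
        calc ∑ j ∈ (univ.erase j₀).erase j₁, EE l D (ZP fun i => d i.succ) (x - d 0 j)
            ≤ ∑ j ∈ (univ.erase j₀).erase j₁,
              P * (2 ^ l * ((t / 2) * hh (2 / B) J l + 1 / (2 * t))) :=
              Finset.sum_le_sum fun j _ => ih' l D hD _
          _ = _ := by rw [Finset.sum_const, nsmul_eq_mul, hcard]
      refine (add_le_add e2 e3).trans ?_
      have h4 := hh_anti (2 / B) hp0 hp1 J l
      have h5 : 0 ≤ (2 - (b 0 : ℝ) * (2 / B)) * (hh (2 / B) J l - hh (2 / B) J (l + 1)) := by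
        apply mul_nonneg _ (by linarith)
        have : (b 0 : ℝ) * (2 / B) ≤ 2 := by
          rw [← mul_div_assoc, div_le_iff₀ (by linarith)]
          linarith
        linarith
      have h6 : 0 ≤ P * (2 ^ l * (t / 2)) * ((2 - (b 0 : ℝ) * (2 / B))
          * (hh (2 / B) J l - hh (2 / B) J (l + 1))) := by positivity
      have h7 : (b 0 : ℝ) * P * (2 ^ l * ((t / 2) * ((1 - 2 / (B : ℝ)) * hh (2 / B) J l
            + 2 / (B : ℝ) * hh (2 / B) J (l + 1)) + 1 / (2 * t)))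
          - (P * (2 ^ (l + 1) * ((t / 2) * hh (2 / B) J (l + 1) + 1 / (2 * t)))
            + ((b 0 : ℝ) - 2) * (P * (2 ^ l * ((t / 2) * hh (2 / B) J l + 1 / (2 * t)))))
          = P * (2 ^ l * (t / 2)) * ((2 - (b 0 : ℝ) * (2 / B))
          * (hh (2 / B) J l - hh (2 / B) J (l + 1))) := by
        rw [pow_succ]
        ring
      linarith
    · rw [if_neg h0, zero_add]
      calc ∑ j, EE l D (ZP fun i => d i.succ) (x - d 0 j)
          ≤ ∑ _j : Fin (b 0), P * (2 ^ l * ((t / 2) * hh (2 / B) J l + 1 / (2 * t))) :=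
            Finset.sum_le_sum fun j _ => ih' l D hD _
        _ = _ := by
            rw [Finset.sum_const, Finset.card_univ, Fintype.card_fin, nsmul_eq_mul]
            ring

theorem ZP_le {k : ℕ} (B : ℕ) (b : Fin k → ℕ) (d : ∀ i, Fin (b i) → ℝ) (φ : Fin k → Bool)
    (hb : ∀ i, b i ≤ B) (hφ : ∀ i, φ i = true → ∃ j₀ j₁, d i j₀ ≠ d i j₁)
    (hB : 2 ≤ B) (x : ℝ) :
    ZP d x ≤ Real.sqrt (B / (2 * (((∑ i, if φ i = true then 1 else 0 : ℕ) : ℝ) + 1)))
      * ∏ i, (b i : ℝ) := by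
  set J : ℕ := ∑ i, if φ i = true then 1 else 0 with hJ
  have hBr : (2 : ℝ) ≤ B := by exact_mod_cast hB
  set t : ℝ := Real.sqrt (2 * (J + 1) / B) with ht
  have ht2 : t ^ 2 = 2 * (J + 1) / B := Real.sq_sqrt (by positivity)
  have htpos : 0 < t := Real.sqrt_pos.mpr (by positivity)
  have h1 := EE_le B t htpos k b d φ hb hφ 0 (fun _ => 0) (fun i hi => absurd hi (by omega)) x
  rw [EE_zero, ← hJ, pow_zero, one_mul] at h1
  have hp0 : (0 : ℝ) < 2 / B := by positivity
  have hp1 : (2 : ℝ) / B ≤ 1 := by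
    rw [div_le_one (by linarith)]
    exact hBr
  have h2 := hh_le (2 / B) hp0 hp1 J
  have h3 : (t / 2) * hh (2 / B) J 0 ≤ 1 / (2 * t) := by
    calc (t / 2) * hh (2 / B) J 0 ≤ (t / 2) * (1 / (2 / B * (J + 1))) :=
          mul_le_mul_of_nonneg_left h2 (by positivity)
      _ = 1 / (2 * t) := by
          have h4 : 1 / (2 / (B : ℝ) * (J + 1)) = 1 / t ^ 2 := by
            rw [ht2]
            congr 1
            field_simp
          rw [h4]
          field_simp
  have h6 : Real.sqrt (B / (2 * ((J : ℝ) + 1))) = 1 / t := by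
    rw [ht, one_div, ← Real.sqrt_inv, inv_div]
  rw [h6]
  have hP0 : 0 ≤ ∏ i, (b i : ℝ) := Finset.prod_nonneg fun i _ => Nat.cast_nonneg _
  have h7 : (t / 2) * hh (2 / B) J 0 + 1 / (2 * t) ≤ 1 / t := by
    have : 1 / t = 1 / (2 * t) + 1 / (2 * t) := by
      field_simp
      ring
    rw [this]
    linarith
  calc ZP d x ≤ (∏ i, (b i : ℝ)) * ((t / 2) * hh (2 / B) J 0 + 1 / (2 * t)) := h1
    _ ≤ (∏ i, (b i : ℝ)) * (1 / t) := mul_le_mul_of_nonneg_left h7 hP0
    _ = _ := by ring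

end

end Pool.Agent.WM77
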