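import Mathlib

/-!
The monodromy filtration of a nilpotent operator and the pure part of a pair `(Φ, N)`.
-/

namespace Pool.Agent.WM77

open Module

section
variable {V : Type*} [AddCommGroup V] [Module ℂ V]

/-- `M` is the monodromy filtration of `N`: it is increasing, separated and exhaustive,
`N (M s) ⊆ M (s - 2)`, and `N ^ s` induces an isomorphism `gr_s → gr_{-s}` for all `s ≥ 0`, where
`gr_s = M s / M (s - 1)`. -/
structure IsMono (N : Module.End ℂ V) (M : ℤ → Submodule ℂ V) : Prop where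
  mono : ∀ s, M (s - 1) ≤ M s
  bot : ∃ s, M s = ⊥
  top : ∃ s, M s = ⊤
  shift : ∀ s, ∀ x ∈ M s, N x ∈ M (s - 2)
  inj : ∀ s : ℕ, ∀ x ∈ M s, (N ^ s) x ∈ M (-s - 1) → x ∈ M (s - 1)
  surj : ∀ s : ℕ, ∀ y ∈ M (-s), ∃ x ∈ M s, y - (N ^ s) x ∈ M (-s - 1)

/-- The multiplicity of `α` as an eigenvalue of `Φ` on `gr_s = M s / M (s - 1)`. -/
noncomputable def mult (Φ : Module.End ℂ V) (M : ℤ → Submodule ℂ V) (α : ℂ) (s : ℤ) : ℕ :=
  finrank ℂ ↥(M s ⊓ Φ.maxGenEigenspace α) - finrank ℂ ↥(M (s - 1) ⊓ Φ.maxGenEigenspace α)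

open Classical in
/-- The number of the eigenvalues `α` of `Φ` on the spaces `gr_s` (all `s`, with multiplicity)
that satisfy `|α| = q ^ (s / 2)`. -/
noncomputable def pureDim (q : ℝ) (Φ : Module.End ℂ V) (M : ℤ → Submodule ℂ V) : ℕ :=
  ∑ᶠ p : ℂ × ℤ, if ‖p.1‖ = q ^ ((p.2 : ℝ) / 2) then mult Φ M p.1 p.2 else 0

end

/-- The matrix `N` has exactly one monodromy filtration `M`, and the number of the eigenvalues `α`
of the matrix `Φ` on the spaces `gr_s = M s / M (s - 1)` with `|α| = q ^ (s / 2)` is `r`. -/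
def PureCount {κ : Type} [Fintype κ] [DecidableEq κ] (q : ℝ) (Φ N : Matrix κ κ ℂ) (r : ℕ) : Prop :=
  ∃ M, (∀ M', IsMono (Matrix.toLin' N) M' ↔ M' = M) ∧ pureDim q (Matrix.toLin' Φ) M = r

/-- The `k`-th Kronecker power of the matrix `A`. -/
def kpow {b : ℕ} (A : Matrix (Fin b) (Fin b) ℂ) (k : ℕ) :
    Matrix (Fin k → Fin b) (Fin k → Fin b) ℂ :=
  Matrix.of fun f g => ∏ i, A (f i) (g i)

/-- The operator `∑ 1 ⊗ ⋯ ⊗ A ⊗ ⋯ ⊗ 1` on the `k`-th tensor power. -/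
def ksum {b : ℕ} (A : Matrix (Fin b) (Fin b) ℂ) (k : ℕ) :
    Matrix (Fin k → Fin b) (Fin k → Fin b) ℂ :=
  Matrix.of fun f g => ∑ i, A (f i) (g i) * ∏ j ∈ Finset.univ.erase i, if f j = g j then 1 else 0

end Pool.Agent.WM77
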