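import Pool.Agent.WM77.Defs

/-!
Tensor products of several operators.
-/

namespace Pool.Agent.WM77

/-- The Kronecker product `A 1 ⊗ ⋯ ⊗ A k`. -/
def kprod {k : ℕ} {b : Fin k → ℕ} (A : ∀ i, Matrix (Fin (b i)) (Fin (b i)) ℂ) :
    Matrix (∀ i, Fin (b i)) (∀ i, Fin (b i)) ℂ :=
  Matrix.of fun f g => ∏ i, A i (f i) (g i)

/-- The operator `∑ 1 ⊗ ⋯ ⊗ A i ⊗ ⋯ ⊗ 1` on the tensor product. -/
def kder {k : ℕ} {b : Fin k → ℕ} (A : ∀ i, Matrix (Fin (b i)) (Fin (b i)) ℂ) :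
    Matrix (∀ i, Fin (b i)) (∀ i, Fin (b i)) ℂ :=
  Matrix.of fun f g => ∑ i, A i (f i) (g i) * ∏ j ∈ Finset.univ.erase i, if f j = g j then 1 else 0

end Pool.Agent.WM77
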