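import Pool.Agent.WM77.Defs

/-!
Jordan blocks and isobaric pairs.
-/

namespace Pool.Agent.WM77

/-- The number of Jordan blocks of size `n ≥ 1` of the nilpotent matrix `N`. -/
noncomputable def blocks {b : ℕ} (N : Matrix (Fin b) (Fin b) ℂ) (n : ℕ) : ℕ :=
  (N ^ (n - 1)).rank + (N ^ (n + 1)).rank - 2 * (N ^ n).rank

/-- For every `n ≥ 1` the eigenvalues `c` of `Φ` on the primitive part of `gr_(n-1)` (the cokernel
of `N : gr_(n+1) → gr_(n-1)`) have the same absolute value; the multiplicity of `c` on the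
primitive part is `mult c (n - 1) - mult (q c) (n + 1)`. -/
def Isobaric {b : ℕ} (q : ℝ) (Φ N : Matrix (Fin b) (Fin b) ℂ) : Prop :=
  ∀ M, IsMono (Matrix.toLin' N) M → ∀ n : ℕ, 1 ≤ n → ∀ c c' : ℂ,
    mult (Matrix.toLin' Φ) M (q * c) (n + 1) < mult (Matrix.toLin' Φ) M c (n - 1) →
    mult (Matrix.toLin' Φ) M (q * c') (n + 1) < mult (Matrix.toLin' Φ) M c' (n - 1) → ‖c‖ = ‖c'‖

end Pool.Agent.WM77
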