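import Pool.Agent.WM77.Strings

/-!
Existence of adapted bases for `N Φ = q Φ N`.
-/

namespace Pool.Agent.WM77

open Module Matrix

section
variable {V : Type*} [AddCommGroup V] [Module ℂ V]

theorem maxGen_sub (A n : Module.End ℂ V) (hc : Commute A n) (hn : IsNilpotent n) (x : V)
    (hx : ∃ k : ℕ, (A ^ k) x = 0) : ∃ k : ℕ, ((A - n) ^ k) x = 0 := by
  obtain ⟨k, hk⟩ := hx
  obtain ⟨l, hl⟩ := hn
  refine ⟨k + l, ?_⟩
  have hc' : Commute A (-n) := hc.neg_right
  rw [sub_eq_add_neg, hc'.add_pow', LinearMap.sum_apply]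
  apply Finset.sum_eq_zero
  rintro ⟨i, j⟩ hij
  have hij : i + j = k + l := by simpa using hij
  rw [LinearMap.smul_apply]
  by_cases hj : l ≤ j
  · obtain ⟨d, rfl⟩ := Nat.exists_eq_add_of_le hj
    have h1 : (-n) ^ (l + d) = 0 := by
      rw [pow_add, neg_pow, hl, mul_zero, zero_mul]
    rw [h1, mul_zero, LinearMap.zero_apply, smul_zero]
  · have hi : k ≤ i := by omega
    obtain ⟨d, rfl⟩ := Nat.exists_eq_add_of_le hi
    have h2 : Commute (A ^ (k + d)) ((-n) ^ j) := hc'.pow_pow _ _
    rw [h2.eq, Module.End.mul_apply, add_comm k d, pow_add, Module.End.mul_apply, hk, map_zero,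
      map_zero, smul_zero]

variable [FiniteDimensional ℂ V] {Φ N : Module.End ℂ V} {q : ℂ}

theorem exists_ss (hq0 : q ≠ 0) (hc : ∀ x, N (Φ x) = q • Φ (N x)) :
    ∃ Ψ : Module.End ℂ V, Ψ.IsSemisimple ∧ Commute Φ Ψ ∧ IsNilpotent (Φ - Ψ) ∧
      ∀ x, N (Ψ x) = q • Ψ (N x) := by
  obtain ⟨n, hn, Ψ, hΨ, hnn, hss, hsum⟩ :=
    Module.End.exists_isNilpotent_isSemisimple (K := ℂ) (f := Φ)
  have c1 : Commute Φ Ψ := Algebra.commute_of_mem_adjoin_self hΨ
  have c2 : Commute Φ n := Algebra.commute_of_mem_adjoin_self hn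
  have hn2 : Φ - Ψ = n := by rw [hsum, add_sub_cancel_right]
  have key : ∀ (a : ℂ) (x : V), x ∈ Φ.maxGenEigenspace a → Ψ x = a • x := by
    intro a x hx
    have h1 : x ∈ Ψ.maxGenEigenspace a := by
      rw [Module.End.mem_maxGenEigenspace] at hx ⊢
      have h2 : Ψ - a • (1 : Module.End ℂ V) = (Φ - a • (1 : Module.End ℂ V)) - n := by
        rw [hsum]
        abel
      rw [h2]
      apply maxGen_sub _ _ _ hnn x hx
      apply Commute.sub_left c2
      rw [Commute, SemiconjBy]
      ext y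
      simp
    rw [hss.isFinitelySemisimple.maxGenEigenspace_eq_eigenspace,
      Module.End.mem_eigenspace_iff] at h1
    exact h1
  refine ⟨Ψ, hss, c1, by rw [hn2]; exact hnn, ?_⟩
  have h3 : (⊤ : Submodule ℂ V) ≤ LinearMap.ker (N ∘ₗ Ψ - q • (Ψ ∘ₗ N)) := by
    rw [← Module.End.iSup_maxGenEigenspace_eq_top Φ]
    apply iSup_le
    intro a x hx
    have h4 : N x ∈ Φ.maxGenEigenspace (q⁻¹ * a) := by
      rw [Module.End.mem_maxGenEigenspace] at hx ⊢
      obtain ⟨k, hk⟩ := hx
      refine ⟨k, ?_⟩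
      have h5 : ∀ (j : ℕ) (y : V), ((Φ - (q⁻¹ * a) • (1 : Module.End ℂ V)) ^ j) (N y)
          = (q⁻¹) ^ j • N (((Φ - a • (1 : Module.End ℂ V)) ^ j) y) := by
        intro j
        induction j with
        | zero => intro y; simp
        | succ j ih =>
          intro y
          have h6 : (Φ - (q⁻¹ * a) • (1 : Module.End ℂ V)) (N y)
              = q⁻¹ • N ((Φ - a • (1 : Module.End ℂ V)) y) := by
            simp only [LinearMap.sub_apply, LinearMap.smul_apply, Module.End.one_apply, map_sub,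
              map_smul, hc, smul_sub, smul_smul, inv_mul_cancel₀ hq0, one_smul]
          rw [pow_succ, Module.End.mul_apply, h6, map_smul, ih, smul_smul, pow_succ (Φ - _),
            Module.End.mul_apply, pow_succ' (q⁻¹)]
      rw [h5, hk, map_zero, smul_zero]
    rw [LinearMap.mem_ker, LinearMap.sub_apply, LinearMap.smul_apply, LinearMap.comp_apply,
      LinearMap.comp_apply, key a x hx, key _ _ h4, map_smul, smul_smul, ← mul_assoc,
      mul_inv_cancel₀ hq0, one_mul, sub_self]
  intro x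
  have h4 := h3 (Submodule.mem_top (x := x))
  rw [LinearMap.mem_ker, LinearMap.sub_apply, LinearMap.smul_apply, LinearMap.comp_apply,
    LinearMap.comp_apply] at h4
  exact sub_eq_zero.mp h4

end

theorem exists_adapted {b : ℕ} (q : ℝ) (hq : 1 < q) (Φ N : Matrix (Fin b) (Fin b) ℂ)
    (hΦ : Φ.det ≠ 0) (hN : IsNilpotent N) (hc : N * Φ = (q : ℂ) • (Φ * N)) :
    ∃ (s : Fin b → ℤ) (α : Fin b → ℂ), Adapted Φ N s α ∧ ∀ i, α i ≠ 0 := by
  have hq0 : (q : ℂ) ≠ 0 := by
    have : q ≠ 0 := by linarith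
    exact_mod_cast this
  have hql : ∀ l : ℕ, 0 < l → (q : ℂ) ^ l ≠ 1 := by
    intro l hl h
    have h1 : q ^ l = 1 := by exact_mod_cast h
    have h2 : 1 < q ^ l := one_lt_pow₀ hq (by omega)
    linarith
  have hcx : ∀ x, Matrix.toLin' N (Matrix.toLin' Φ x)
      = (q : ℂ) • Matrix.toLin' Φ (Matrix.toLin' N x) := by
    intro x
    rw [← LinearMap.comp_apply, ← Matrix.toLin'_mul, hc, map_smul, Matrix.toLin'_mul]
    rfl
  obtain ⟨Ψ, hss, hcomm, hnil, hcΨ⟩ := exists_ss hq0 hcx
  have hinjΦ : Function.Injective (Matrix.toLin' Φ) := by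
    intro v w h
    rw [Matrix.toLin'_apply, Matrix.toLin'_apply] at h
    exact Matrix.mulVec_injective_iff_isUnit.mpr
      ((Matrix.isUnit_iff_isUnit_det Φ).mpr (isUnit_iff_ne_zero.mpr hΦ)) h
  have hinj : Function.Injective Ψ := by
    rw [← LinearMap.ker_eq_bot, LinearMap.ker_eq_bot']
    intro x hx
    obtain ⟨k, hk⟩ := hnil
    have h1 : ∀ j : ℕ, ((Matrix.toLin' Φ - Ψ) ^ j) x = (Matrix.toLin' Φ ^ j) x := by
      intro j
      induction j with
      | zero => rfl
      | succ j ih =>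
        have h2 : Ψ ((Matrix.toLin' Φ ^ j) x) = 0 := by
          have h3 : Commute (Matrix.toLin' Φ ^ j) Ψ := Commute.pow_left hcomm j
          have h4 := LinearMap.congr_fun h3.eq x
          rw [Module.End.mul_apply, Module.End.mul_apply, hx, map_zero] at h4
          exact h4.symm
        rw [pow_succ', Module.End.mul_apply, ih, LinearMap.sub_apply, h2, sub_zero, pow_succ',
          Module.End.mul_apply]
    have h5 := h1 k
    rw [hk, LinearMap.zero_apply] at h5
    have h6 : ∀ j : ℕ, Function.Injective (Matrix.toLin' Φ ^ j) := by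
      intro j
      induction j with
      | zero => exact fun _ _ h => h
      | succ j ih =>
        rw [pow_succ]
        intro y z h
        rw [Module.End.mul_apply, Module.End.mul_apply] at h
        exact hinjΦ (ih h)
    exact h6 k (by rw [← h5, map_zero])
  have hNn : IsNilpotent (Matrix.toLin' N : Module.End ℂ (Fin b → ℂ)) := by
    obtain ⟨k, hk⟩ := hN
    exact ⟨k, by rw [← Matrix.toLin'_pow, hk, map_zero]⟩
  obtain ⟨ι, i1, i2, B, s, α, H, E, hB1, hB2, hE1, hE2, hE3⟩ :=
    adp_exists _ (Fin b → ℂ) Ψ (Matrix.toLin' N) q rfl hss hinj hNn hq0 hql hcΨ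
  have hcard : Fintype.card ι = b := by
    have := Module.finrank_eq_card_basis B
    rw [Module.finrank_fin_fun] at this
    exact this.symm
  let e : ι ≃ Fin b := (Fintype.equivFin ι).trans (finCongr hcard)
  let B' : Basis (Fin b) ℂ (Fin b → ℂ) := B.reindex e
  refine ⟨fun i => s (e.symm i), fun i => α (e.symm i), ?_, ?_⟩
  · have hB1' : ∀ i, H (B' i) = (s (e.symm i) : ℂ) • B' i := by
      intro i
      rw [Basis.reindex_apply]
      exact hB1 _
    have hB2' : ∀ i, Ψ (B' i) = α (e.symm i) • B' i := by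
      intro i
      rw [Basis.reindex_apply]
      exact hB2 _
    let P : Matrix (Fin b) (Fin b) ℂ := (Pi.basisFun ℂ (Fin b)).toMatrix B'
    let Q : Matrix (Fin b) (Fin b) ℂ := B'.toMatrix (Pi.basisFun ℂ (Fin b))
    have hPQ : P * Q = 1 := Basis.toMatrix_mul_toMatrix_flip _ _
    have hPc : ∀ i j, P i j = B' j i := fun i j => rfl
    have hdiag : ∀ (T : Module.End ℂ (Fin b → ℂ)) (t : Fin b → ℂ), (∀ i, T (B' i) = t i • B' i) →
        LinearMap.toMatrix' T = P * Matrix.diagonal t * Q := by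
      intro T t hT
      have h1 : LinearMap.toMatrix' T * P = P * Matrix.diagonal t := by
        ext i j
        rw [Matrix.mul_diagonal]
        have h2 : (LinearMap.toMatrix' T * P) i j = (LinearMap.toMatrix' T).mulVec (B' j) i := by
          simp only [Matrix.mul_apply, Matrix.mulVec, dotProduct, hPc]
        rw [h2, LinearMap.toMatrix'_mulVec, hT, hPc, Pi.smul_apply, smul_eq_mul, mul_comm]
      rw [← h1, Matrix.mul_assoc, hPQ, Matrix.mul_one]
    have hmul : ∀ S T : Module.End ℂ (Fin b → ℂ), LinearMap.toMatrix' (S * T)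
        = LinearMap.toMatrix' S * LinearMap.toMatrix' T := fun S T => LinearMap.toMatrix'_comp S T
    refine ⟨P, Q, LinearMap.toMatrix' Ψ, LinearMap.toMatrix' E, LinearMap.toMatrix' H, hPQ,
      hdiag Ψ _ hB2', hdiag H _ hB1', ?_, ?_, ?_, ?_, ?_⟩
    · have h1 := congrArg LinearMap.toMatrix' hcomm.eq
      rw [hmul, hmul, LinearMap.toMatrix'_toLin'] at h1
      exact h1
    · obtain ⟨k, hk⟩ := hnil
      refine ⟨k, ?_⟩
      have h1 : ∀ (T : Module.End ℂ (Fin b → ℂ)) (k : ℕ), LinearMap.toMatrix' (T ^ k)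
          = (LinearMap.toMatrix' T) ^ k := by
        intro T k
        induction k with
        | zero => simp
        | succ k ih => rw [pow_succ, hmul, ih, pow_succ]
      have h2 : Φ - LinearMap.toMatrix' Ψ = LinearMap.toMatrix' (Matrix.toLin' Φ - Ψ) := by
        rw [map_sub, LinearMap.toMatrix'_toLin']
      rw [h2, ← h1, hk, map_zero]
    · have h1 : H * Matrix.toLin' N = Matrix.toLin' N * H - (2 : ℂ) • Matrix.toLin' N :=
        LinearMap.ext hE2
      have h2 := congrArg LinearMap.toMatrix' h1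
      rw [map_sub, map_smul, hmul, hmul, LinearMap.toMatrix'_toLin'] at h2
      exact h2
    · have h1 : H * E = E * H + (2 : ℂ) • E := LinearMap.ext hE3
      have h2 := congrArg LinearMap.toMatrix' h1
      rw [map_add, map_smul, hmul, hmul] at h2
      exact h2
    · have h1 : E * Matrix.toLin' N - Matrix.toLin' N * E = H := LinearMap.ext hE1
      have h2 := congrArg LinearMap.toMatrix' h1
      rw [map_sub, hmul, hmul, LinearMap.toMatrix'_toLin'] at h2
      exact h2
  · intro i h
    have h1 : Ψ (B (e.symm i)) = 0 := by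
      rw [hB2, show α (e.symm i) = 0 from h, zero_smul]
    exact B.ne_zero (e.symm i) (hinj (by rw [h1, map_zero]))

end Pool.Agent.WM77
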