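import Pool.Agent.WM77.Exist
import Pool.Agent.WM77.Anti

/-!
The zero-one law.
-/

namespace Pool.Agent.WM77

open Module Matrix Finset

theorem pure_iff (q : ℝ) (hq : 1 < q) (a : ℂ) (ha : a ≠ 0) (t : ℝ) :
    ‖a‖ = q ^ (t / 2) ↔ Real.logb q ‖a‖ - t / 2 = 0 := by
  have hq0 : 0 < q := by linarith
  have ha' : 0 < ‖a‖ := norm_pos_iff.mpr ha
  constructor
  · intro h
    rw [h, Real.logb_rpow hq0 (by linarith), sub_self]
  · intro h
    rw [← sub_eq_zero.mp h, Real.rpow_logb hq0 (by linarith) ha']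

open Classical in
theorem pure_count {b : ℕ} (q : ℝ) (hq : 1 < q) (s : Fin b → ℤ) (α : Fin b → ℂ)
    (hα : ∀ i, α i ≠ 0) (k : ℕ) :
    ((univ : Finset (Fin k → Fin b)).filter fun f =>
      ‖∏ i, α (f i)‖ = q ^ (((∑ i, s (f i) : ℤ) : ℝ) / 2)).card
    = ((univ : Finset (Fin k → Fin b)).filter fun f =>
      ∑ i, (Real.logb q ‖α (f i)‖ - (s (f i) : ℝ) / 2) = 0).card := by
  congr 1
  ext f
  simp only [mem_filter, mem_univ, true_and]
  rw [pure_iff q hq _ (Finset.prod_ne_zero_iff.mpr fun i _ => hα (f i)), norm_prod,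
    Real.logb_prod _ _ (fun i _ => norm_ne_zero_iff.mpr (hα (f i)))]
  rw [Finset.sum_sub_distrib, ← Finset.sum_div]
  push_cast
  rfl

theorem zero_one {b : ℕ} (q : ℝ) (hq : 1 < q) (Φ N : Matrix (Fin b) (Fin b) ℂ)
    (hΦ : Φ.det ≠ 0) (hN : IsNilpotent N) (hc : N * Φ = (q : ℂ) • (Φ * N)) :
    (∀ k : ℕ, ∃! M, IsMono (Matrix.toLin' (ksum N k)) M) ∧
    ∀ M, IsMono (Matrix.toLin' N) M →
      (pureDim q (Matrix.toLin' Φ) M = b → ∀ (k : ℕ) (M'), IsMono (Matrix.toLin' (ksum N k)) M' →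
        pureDim q (Matrix.toLin' (kpow Φ k)) M' = b ^ k) ∧
      (pureDim q (Matrix.toLin' Φ) M ≠ b → ∀ k : ℕ, 1 ≤ k →
        ∀ M', IsMono (Matrix.toLin' (ksum N k)) M' →
        (pureDim q (Matrix.toLin' (kpow Φ k)) M' : ℝ)
          ≤ Real.sqrt (b / (2 * (k + 1))) * (b : ℝ) ^ k) := by
  classical
  obtain ⟨s, α, had, hα⟩ := exists_adapted q hq Φ N hΦ hN hc
  have hk := fun k : ℕ => (had.kpow k).pure q
  refine ⟨?_, ?_⟩
  · intro k
    obtain ⟨M, hM, _⟩ := hk k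
    exact ⟨M, hM, fun M' hM' => hM'.unique hM⟩
  intro M hM
  obtain ⟨M₁, hM₁, hp₁⟩ := had.pure q
  have hM' : M = M₁ := hM.unique hM₁
  subst hM'
  set d : Fin b → ℝ := fun i => Real.logb q ‖α i‖ - (s i : ℝ) / 2 with hd
  have hcount : ∀ (k : ℕ) (M'), IsMono (Matrix.toLin' (ksum N k)) M' →
      pureDim q (Matrix.toLin' (kpow Φ k)) M'
        = ((univ : Finset (Fin k → Fin b)).filter fun f => ∑ i, d (f i) = 0).card := by
    intro k M' hM'
    obtain ⟨M₂, hM₂, hp₂⟩ := hk k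
    have h1 : M' = M₂ := hM'.unique hM₂
    subst h1
    rw [hp₂]
    exact pure_count q hq s α hα k
  have hall : pureDim q (Matrix.toLin' Φ) M = b ↔ ∀ i, d i = 0 := by
    rw [hp₁]
    constructor
    · intro h i
      have h1 : (univ.filter fun i => ‖α i‖ = q ^ ((s i : ℝ) / 2)) = univ := by
        apply Finset.eq_univ_of_card
        rw [h, Fintype.card_fin]
      have h2 : i ∈ univ.filter fun i => ‖α i‖ = q ^ ((s i : ℝ) / 2) := by
        rw [h1]; exact mem_univ i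
      rw [mem_filter] at h2
      exact (pure_iff q hq _ (hα i) _).mp h2.2
    · intro h
      have h1 : (univ.filter fun i => ‖α i‖ = q ^ ((s i : ℝ) / 2)) = univ := by
        apply Finset.filter_true_of_mem
        intro i _
        exact (pure_iff q hq _ (hα i) _).mpr (h i)
      rw [h1, Finset.card_univ, Fintype.card_fin]
  refine ⟨?_, ?_⟩
  · intro h k M' hM'
    rw [hall] at h
    rw [hcount k M' hM', Finset.filter_true_of_mem]
    · simp
    · intro f _
      simp [h]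
  · intro h k hk1 M' hM'
    rw [hcount k M' hM']
    rw [Ne, hall] at h
    push Not at h
    obtain ⟨i₀, hi₀⟩ := h
    by_cases h2 : ∃ i₁, d i₀ ≠ d i₁
    · obtain ⟨i₁, hi₁⟩ := h2
      exact count_le d k 0 i₀ i₁ hi₁
    · push Not at h2
      have h3 : ((univ : Finset (Fin k → Fin b)).filter fun f => ∑ i, d (f i) = 0).card = 0 := by
        rw [Finset.card_eq_zero, Finset.filter_eq_empty_iff]
        intro f _ hf
        have h4 : ∑ i, d (f i) = k * d i₀ := by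
          rw [Finset.sum_congr rfl fun i _ => (h2 (f i)).symm]
          simp
        rw [h4] at hf
        rcases mul_eq_zero.mp hf with h5 | h5
        · have : k = 0 := by exact_mod_cast h5
          omega
        · exact hi₀ h5
      rw [h3]
      push_cast
      positivity

theorem zero_one' {b : ℕ} (q : ℝ) (hq : 1 < q) (Φ N : Matrix (Fin b) (Fin b) ℂ)
    (hΦ : Φ.det ≠ 0) (hN : IsNilpotent N) (hc : N * Φ = (q : ℂ) • (Φ * N)) :
    ∃ (r : ℕ) (p : ℕ → ℕ), PureCount q Φ N r ∧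
      (∀ k, PureCount q (kpow Φ k) (ksum N k) (p k)) ∧
      (r = b → ∀ k, p k = b ^ k) ∧
      (r ≠ b → ∀ k, 1 ≤ k → (p k : ℝ) ≤ Real.sqrt (b / (2 * (k + 1))) * b ^ k) := by
  obtain ⟨h1, h2⟩ := zero_one q hq Φ N hΦ hN hc
  obtain ⟨s, α, had, hα⟩ := exists_adapted q hq Φ N hΦ hN hc
  obtain ⟨M, hM, _⟩ := had.pure q
  have h3 : ∀ k : ℕ, ∃ M, IsMono (Matrix.toLin' (ksum N k)) M := fun k => (h1 k).exists
  choose Mk hMk using h3
  refine ⟨pureDim q (Matrix.toLin' Φ) M, fun k => pureDim q (Matrix.toLin' (kpow Φ k)) (Mk k),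
    ⟨M, fun M' => ⟨fun h => h.unique hM, fun h => by rw [h]; exact hM⟩, rfl⟩,
    fun k => ⟨Mk k, fun M' => ⟨fun h => h.unique (hMk k), fun h => by rw [h]; exact hMk k⟩, rfl⟩,
    fun h k => (h2 M hM).1 h k (Mk k) (hMk k),
    fun h k hk => (h2 M hM).2 h k hk (Mk k) (hMk k)⟩

end Pool.Agent.WM77
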