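import Pool.Agent.WM77.Adapt
import Pool.Agent.WM77.DefsP

/-!
Adapted bases of tensor products of several operators.
-/

namespace Pool.Agent.WM77

open Module Matrix Kronecker

theorem kprod_succ {k : ℕ} {b : Fin (k + 1) → ℕ} (A : ∀ i, Matrix (Fin (b i)) (Fin (b i)) ℂ) :
    kprod A = Matrix.reindex (Fin.consEquiv (fun i => Fin (b i)))
      (Fin.consEquiv (fun i => Fin (b i))) (A 0 ⊗ₖ kprod (fun i => A i.succ)) := by
  ext f g
  simp [kprod, Fin.prod_univ_succ, Matrix.kroneckerMap_apply, Fin.tail]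

theorem kder_succ {k : ℕ} {b : Fin (k + 1) → ℕ} (A : ∀ i, Matrix (Fin (b i)) (Fin (b i)) ℂ) :
    kder A = Matrix.reindex (Fin.consEquiv (fun i => Fin (b i)))
      (Fin.consEquiv (fun i => Fin (b i)))
      (A 0 ⊗ₖ (1 : Matrix (∀ i : Fin k, Fin (b i.succ)) (∀ i : Fin k, Fin (b i.succ)) ℂ)
        + (1 : Matrix (Fin (b 0)) (Fin (b 0)) ℂ) ⊗ₖ kder (fun i => A i.succ)) := by
  ext f g
  have e1 : ∀ i : Fin (k + 1), (∏ j ∈ Finset.univ.erase i, if f j = g j then (1 : ℂ) else 0)
      = if ∀ j, j ≠ i → f j = g j then 1 else 0 := by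
    intro i
    split_ifs with h
    · apply Finset.prod_eq_one
      intro j hj
      rw [if_pos (h j (Finset.ne_of_mem_erase hj))]
    · push Not at h
      obtain ⟨j, hj, hj2⟩ := h
      exact Finset.prod_eq_zero (Finset.mem_erase.mpr ⟨hj, Finset.mem_univ j⟩) (if_neg hj2)
  have e2 : ∀ i : Fin k, (∏ j ∈ Finset.univ.erase i,
      if Fin.tail f j = Fin.tail g j then (1 : ℂ) else 0)
      = if ∀ j, j ≠ i → Fin.tail f j = Fin.tail g j then 1 else 0 := by
    intro i
    split_ifs with h
    · apply Finset.prod_eq_one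
      intro j hj
      rw [if_pos (h j (Finset.ne_of_mem_erase hj))]
    · push Not at h
      obtain ⟨j, hj, hj2⟩ := h
      exact Finset.prod_eq_zero (Finset.mem_erase.mpr ⟨hj, Finset.mem_univ j⟩) (if_neg hj2)
  simp only [kder, Matrix.of_apply, e1, e2, Matrix.reindex_apply, Matrix.submatrix_apply,
    Matrix.add_apply, Matrix.kroneckerMap_apply, Fin.consEquiv, Equiv.coe_fn_symm_mk,
    Matrix.one_apply]
  rw [Fin.sum_univ_succ]
  congr 1
  · congr 1
    have : (∀ j : Fin (k + 1), j ≠ 0 → f j = g j) ↔ Fin.tail f = Fin.tail g := by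
      constructor
      · intro h
        funext j
        exact h j.succ (Fin.succ_ne_zero j)
      · intro h j hj
        obtain ⟨j', rfl⟩ := Fin.exists_succ_eq.mpr hj
        exact congrFun h j'
    simp only [this]
  · rw [Finset.mul_sum]
    refine Finset.sum_congr rfl fun i _ => ?_
    have : (∀ j : Fin (k + 1), j ≠ i.succ → f j = g j) ↔
        (f 0 = g 0 ∧ ∀ j : Fin k, j ≠ i → Fin.tail f j = Fin.tail g j) := by
      constructor
      · intro h
        refine ⟨h 0 (Fin.succ_ne_zero i).symm, fun j hj => h j.succ ?_⟩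
        intro h'
        exact hj (Fin.succ_injective _ h')
      · rintro ⟨h0, h⟩ j hj
        by_cases hj0 : j = 0
        · rw [hj0]; exact h0
        · obtain ⟨j', rfl⟩ := Fin.exists_succ_eq.mpr hj0
          exact h j' fun h' => hj (by rw [h'])
    simp only [this]
    by_cases h0 : f 0 = g 0
    · simp only [h0, true_and, if_true, one_mul]
      rfl
    · simp only [h0, false_and, if_false, mul_zero, zero_mul]

theorem Adapted.kprod {k : ℕ} : ∀ {b : Fin k → ℕ} {Φ N : ∀ i, Matrix (Fin (b i)) (Fin (b i)) ℂ}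
    {s : ∀ i, Fin (b i) → ℤ} {α : ∀ i, Fin (b i) → ℂ} (_ : ∀ i, Adapted (Φ i) (N i) (s i) (α i)),
    Adapted (kprod Φ) (kder N) (fun f => ∑ i, s i (f i)) (fun f => ∏ i, α i (f i)) := by
  induction k with
  | zero =>
    intro b Φ N s α _
    have e1 : WM77.kprod Φ = 1 := by
      ext f g
      rw [Subsingleton.elim f g]
      simp [WM77.kprod]
    have e2 : kder N = 0 := by
      ext f g
      simp [kder]
    rw [e1, e2]
    refine ⟨1, 1, 1, 0, 0, by simp, ?_, ?_, Commute.refl _, ?_, by simp, by simp, by simp⟩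
    · simp
    · simp
    · rw [sub_self]
      exact IsNilpotent.zero
  | succ k ih =>
    intro b Φ N s α h
    rw [kprod_succ, kder_succ]
    have := ((h 0).kron (ih fun i => h i.succ)).reindex (Fin.consEquiv (fun i => Fin (b i)))
    convert this using 2
    · rw [Fin.sum_univ_succ]
      rfl
    · rw [Fin.prod_univ_succ]
      rfl

end Pool.Agent.WM77
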