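import Pool.Agent.WM77.Final
import Pool.Agent.WM77.AntiP
import Pool.Agent.WM77.Prod
import Pool.Agent.WM77.Det

/-!
The law for products.
-/

namespace Pool.Agent.WM77

open Module Matrix Finset

theorem PureCount.eq_of {κ : Type} [Fintype κ] [DecidableEq κ] {q : ℝ} {Φ N : Matrix κ κ ℂ}
    {r : ℕ} (h : PureCount q Φ N r) {M : ℤ → Submodule ℂ (κ → ℂ)}
    (hM : IsMono (Matrix.toLin' N) M) : r = pureDim q (Matrix.toLin' Φ) M := by
  obtain ⟨M₀, h1, h2⟩ := h
  rw [← h2, (h1 M).mp hM]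

theorem two_letters {b : ℕ} (q : ℝ) (hq : 1 < q) (Φ N : Matrix (Fin b) (Fin b) ℂ)
    (s : Fin b → ℤ) (α : Fin b → ℂ) (hα : ∀ i, α i ≠ 0) (had : Adapted Φ N s α) (r : ℕ)
    (hr : PureCount q Φ N r) (hrb : r ≠ b) (h : 1 ≤ r ∨ ‖Φ.det‖ = 1) :
    ∃ i j, Real.logb q ‖α i‖ - (s i : ℝ) / 2 ≠ Real.logb q ‖α j‖ - (s j : ℝ) / 2 := by
  classical
  obtain ⟨M, hM, hp⟩ := had.pure q
  have hr' : r = (univ.filter fun i => ‖α i‖ = q ^ ((s i : ℝ) / 2)).card := by
    rw [hr.eq_of hM, hp]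
  have hbad : ∃ i, Real.logb q ‖α i‖ - (s i : ℝ) / 2 ≠ 0 := by
    by_contra hcon
    push Not at hcon
    apply hrb
    rw [hr', Finset.filter_true_of_mem, Finset.card_univ, Fintype.card_fin]
    intro i _
    exact (pure_iff q hq _ (hα i) _).mpr (hcon i)
  obtain ⟨i, hi⟩ := hbad
  by_contra hcon
  push Not at hcon
  rcases h with h | h
  · rw [hr'] at h
    obtain ⟨j, hj⟩ := Finset.card_pos.mp h
    rw [mem_filter] at hj
    have := (pure_iff q hq _ (hα j) _).mp hj.2
    exact hi (by rw [hcon i j, this])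
  · rw [had.det_eq hα, norm_prod] at h
    have h1 : ∑ j, Real.logb q ‖α j‖ = 0 := by
      rw [← Real.logb_prod _ _ (fun j _ => norm_ne_zero_iff.mpr (hα j)), h, Real.logb_one]
    have h2 : ∑ j, (s j : ℝ) / 2 = 0 := by
      rw [← Finset.sum_div]
      have : ((∑ j, s j : ℤ) : ℝ) = 0 := by rw [had.sum_eq]; norm_num
      push_cast at this
      rw [this, zero_div]
    have h3 : ∑ j, (Real.logb q ‖α j‖ - (s j : ℝ) / 2) = 0 := by
      rw [Finset.sum_sub_distrib, h1, h2, sub_zero]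
    rw [Finset.sum_congr rfl fun j _ => hcon j i, Finset.sum_const, Finset.card_univ,
      Fintype.card_fin, nsmul_eq_mul] at h3
    rcases mul_eq_zero.mp h3 with h4 | h4
    · have h5 : b = 0 := by exact_mod_cast h4
      exact absurd i.2 (by omega)
    · exact hi h4

theorem prod_law {k : ℕ} {b : Fin k → ℕ} (B : ℕ) (hB : ∀ i, b i ≤ B) (q : ℝ) (hq : 1 < q)
    (Φ N : ∀ i, Matrix (Fin (b i)) (Fin (b i)) ℂ) (hΦ : ∀ i, (Φ i).det ≠ 0)
    (hN : ∀ i, IsNilpotent (N i)) (hc : ∀ i, N i * Φ i = (q : ℂ) • (Φ i * N i)) :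
    ∃ (r : Fin k → ℕ) (p : ℕ), (∀ i, PureCount q (Φ i) (N i) (r i)) ∧
      PureCount q (kprod Φ) (kder N) p ∧
      ((∀ i, r i = b i) → p = ∏ i, b i) ∧
      ((∀ i, r i ≠ b i → 1 ≤ r i ∨ ‖(Φ i).det‖ = 1) → (∃ i, r i ≠ b i) →
        (p : ℝ) ≤ Real.sqrt (B / (2 * ((univ.filter fun i => r i ≠ b i).card + 1)))
          * ∏ i, (b i : ℝ)) := by
  classical
  choose s α had hα using fun i => exists_adapted q hq (Φ i) (N i) (hΦ i) (hN i) (hc i)
  choose M hM hp using fun i => (had i).pure q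
  have hadp := Adapted.kprod had
  obtain ⟨M', hM', hp'⟩ := hadp.pure q
  have hPC : ∀ i, PureCount q (Φ i) (N i) (pureDim q (Matrix.toLin' (Φ i)) (M i)) := fun i =>
    ⟨M i, fun M'' => ⟨fun h => h.unique (hM i), fun h => by rw [h]; exact hM i⟩, rfl⟩
  have hPC' : PureCount q (kprod Φ) (kder N) (pureDim q (Matrix.toLin' (kprod Φ)) M') :=
    ⟨M', fun M'' => ⟨fun h => h.unique hM', fun h => by rw [h]; exact hM'⟩, rfl⟩
  set r : Fin k → ℕ := fun i => pureDim q (Matrix.toLin' (Φ i)) (M i) with hr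
  set d : ∀ i, Fin (b i) → ℝ := fun i j => Real.logb q ‖α i j‖ - (s i j : ℝ) / 2 with hd
  have hcount : pureDim q (Matrix.toLin' (kprod Φ)) M'
      = ((univ : Finset (∀ i, Fin (b i))).filter fun f => ∑ i, d i (f i) = 0).card := by
    rw [hp']
    congr 1
    ext f
    simp only [mem_filter, mem_univ, true_and]
    rw [pure_iff q hq _ (Finset.prod_ne_zero_iff.mpr fun i _ => hα i (f i)), norm_prod,
      Real.logb_prod _ _ (fun i _ => norm_ne_zero_iff.mpr (hα i (f i)))]
    simp only [hd]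
    rw [Finset.sum_sub_distrib, ← Finset.sum_div]
    push_cast
    rfl
  refine ⟨r, _, hPC, hPC', ?_, ?_⟩
  · intro hall
    rw [hcount, Finset.filter_true_of_mem]
    · rw [Finset.card_univ, Fintype.card_pi]
      simp
    · intro f _
      apply Finset.sum_eq_zero
      intro i _
      have h1 : (univ.filter fun j => ‖α i j‖ = q ^ ((s i j : ℝ) / 2)) = univ := by
        apply Finset.eq_univ_of_card
        rw [← hp i, Fintype.card_fin]
        exact hall i
      have h2 : f i ∈ univ.filter fun j => ‖α i j‖ = q ^ ((s i j : ℝ) / 2) := by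
        rw [h1]; exact mem_univ _
      rw [mem_filter] at h2
      exact (pure_iff q hq _ (hα i (f i)) _).mp h2.2
  · intro hcond hex
    have hφ : ∀ i, (decide (r i ≠ b i)) = true → ∃ j₀ j₁, d i j₀ ≠ d i j₁ := by
      intro i hi
      have hi' : r i ≠ b i := of_decide_eq_true hi
      exact two_letters q hq (Φ i) (N i) (s i) (α i) (hα i) (had i) (r i) (hPC i) hi' (hcond i hi')
    have hB2 : 2 ≤ B := by
      obtain ⟨i, hi⟩ := hex
      obtain ⟨j₀, j₁, hj⟩ := hφ i (decide_eq_true hi)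
      have h1 := j₀.2
      have h2 := j₁.2
      have h3 : (j₀ : ℕ) ≠ j₁ := fun h => hj (by rw [Fin.ext h])
      have h4 := hB i
      omega
    have h := ZP_le B b d (fun i => decide (r i ≠ b i)) hB hφ hB2 0
    have hJ : (∑ i, if (decide (r i ≠ b i)) = true then 1 else 0 : ℕ)
        = (univ.filter fun i => r i ≠ b i).card := by
      rw [Finset.card_filter]
      refine Finset.sum_congr rfl fun i _ => ?_
      simp only [decide_eq_true_eq]
    rw [hJ] at h
    rw [hcount, Finset.card_filter]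
    push_cast
    unfold ZP at h
    exact h

end Pool.Agent.WM77
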