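import Pool.Agent.WM77.StrC
import Pool.Agent.WM77.DefsS

/-!
Self-dual pairs.
-/

namespace Pool.Agent.WM77

open Module Matrix Finset

section
variable {T : Type} [Fintype T] [DecidableEq T] (q : ℝ) (a : T → ℕ) (β : T → ℂ)

/-- the string `t` is pure -/
def Pur (t : T) : Prop := ‖β t‖ = q ^ (((a t : ℝ) - 1) / 2)

theorem pure_string (hq : 1 < q) (hβ : ∀ t, β t ≠ 0) (x : Σ t, Fin (a t)) :
    ‖aS (q : ℂ) a β x‖ = q ^ ((sS a x : ℝ) / 2) ↔ Pur q a β x.1 := by
  have hq0 : 0 < q := by linarith
  obtain ⟨t, j⟩ := x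
  unfold Pur
  have h1 : ‖aS (q : ℂ) a β ⟨t, j⟩‖ = ‖β t‖ * (q ^ (j : ℕ))⁻¹ := by
    simp only [aS, norm_mul, norm_pow, norm_inv, Complex.norm_real, Real.norm_eq_abs,
      abs_of_pos hq0, inv_pow]
  have h2 : q ^ ((sS a ⟨t, j⟩ : ℝ) / 2) = q ^ (((a t : ℝ) - 1) / 2) * (q ^ (j : ℕ))⁻¹ := by
    rw [← Real.rpow_natCast, ← Real.rpow_neg hq0.le, ← Real.rpow_add hq0]
    congr 1
    simp only [sS]
    push_cast
    ring
  rw [h1, h2]
  have h3 : (q ^ (j : ℕ))⁻¹ ≠ 0 := inv_ne_zero (pow_ne_zero _ hq0.ne')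
  exact mul_left_inj' h3

open Classical in
/-- half of the impure strings of length `n` have a large eigenvalue -/
theorem odd_count (hq : 1 < q) (hβ : ∀ t, β t ≠ 0) (n : ℕ) (hn : 1 ≤ n)
    (h : ∀ c, KK a β n c = KK a (dualB (q : ℂ) a β) n c) :
    (univ.filter fun t => a t = n ∧ q ^ (((n : ℝ) - 1) / 2) < ‖β t‖).card
      = (univ.filter fun t => a t = n ∧ ‖β t‖ < q ^ (((n : ℝ) - 1) / 2)).card := by
  have hq0 : 0 < q := by linarith
  set R : ℝ := q ^ (((n : ℝ) - 1) / 2) with hR
  have hRpos : 0 < R := Real.rpow_pos_of_pos hq0 _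
  set F := univ.filter fun t => a t = n with hF
  have h1 : F.val.map β = F.val.map (dualB (q : ℂ) a β) := by
    apply Multiset.ext.mpr
    intro c
    have h2 : ∀ γ : T → ℂ, Multiset.count c (F.val.map γ) = KK a γ n c := by
      intro γ
      rw [Multiset.count_map, KK]
      have : Multiset.filter (fun t => c = γ t) F.val
          = (univ.filter fun t => a t = n ∧ γ t = c).val := by
        rw [hF, Finset.filter_val, Finset.filter_val, Multiset.filter_filter]
        apply Multiset.filter_congr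
        intro t _
        constructor
        · rintro ⟨h1, h2⟩
          exact ⟨h2, h1.symm⟩
        · rintro ⟨h1, h2⟩
          exact ⟨h2.symm, h1⟩
      rw [this]
      rfl
    rw [h2, h2, h]
  have h3 := congrArg (Multiset.countP fun c : ℂ => R < ‖c‖) h1
  rw [Multiset.countP_map, Multiset.countP_map] at h3
  have h4 : ∀ (P : T → Prop) [DecidablePred P], (Multiset.filter P F.val).card
      = (univ.filter fun t => a t = n ∧ P t).card := by
    intro P _
    rw [hF, Finset.filter_val, Multiset.filter_filter]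
    have : (univ.filter fun t => a t = n ∧ P t).val = Multiset.filter (fun t => a t = n ∧ P t)
        (univ : Finset T).val := Finset.filter_val _ _
    rw [Finset.card_def, this]
    congr 1
    apply Multiset.filter_congr
    intro t _
    exact and_comm
  rw [h4, h4] at h3
  rw [h3]
  congr 1
  ext t
  simp only [mem_filter, mem_univ, true_and]
  apply and_congr_right
  intro hat
  have h5 : ‖dualB (q : ℂ) a β t‖ = R ^ 2 / ‖β t‖ := by
    simp only [dualB, norm_div, norm_pow, Complex.norm_real, Real.norm_eq_abs, abs_of_pos hq0]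
    congr 1
    rw [hR, ← Real.rpow_natCast (q ^ (((n : ℝ) - 1) / 2)) 2, ← Real.rpow_mul hq0.le,
      ← Real.rpow_natCast, hat]
    congr 1
    rw [Nat.cast_sub hn]
    push_cast
    ring
  have hb : 0 < ‖β t‖ := norm_pos_iff.mpr (hβ t)
  rw [h5, lt_div_iff₀ hb]
  constructor
  · intro h6
    nlinarith
  · intro h6
    nlinarith

open Classical in
theorem split_count (n : ℕ) :
    (univ.filter fun t => a t = n).card
      = (univ.filter fun t => a t = n ∧ Pur q a β t).card
        + (univ.filter fun t => a t = n ∧ q ^ (((n : ℝ) - 1) / 2) < ‖β t‖).card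
        + (univ.filter fun t => a t = n ∧ ‖β t‖ < q ^ (((n : ℝ) - 1) / 2)).card := by
  have h1 : (univ.filter fun t => a t = n)
      = ((univ.filter fun t => a t = n ∧ Pur q a β t)
        ∪ (univ.filter fun t => a t = n ∧ q ^ (((n : ℝ) - 1) / 2) < ‖β t‖))
        ∪ (univ.filter fun t => a t = n ∧ ‖β t‖ < q ^ (((n : ℝ) - 1) / 2)) := by
    ext t
    simp only [mem_filter, mem_univ, true_and, mem_union]
    constructor
    · intro h
      rcases lt_trichotomy ‖β t‖ (q ^ (((n : ℝ) - 1) / 2)) with h2 | h2 | h2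
      · exact Or.inr ⟨h, h2⟩
      · exact Or.inl (Or.inl ⟨h, by rw [Pur, h]; exact h2⟩)
      · exact Or.inl (Or.inr ⟨h, h2⟩)
    · rintro ((h | h) | h)
      · exact h.1
      · exact h.1
      · exact h.1
  rw [h1, Finset.card_union_of_disjoint, Finset.card_union_of_disjoint]
  · rw [Finset.disjoint_filter]
    rintro t _ ⟨h2, h3⟩ ⟨_, h4⟩
    rw [Pur, h2] at h3
    linarith
  · rw [Finset.disjoint_union_left, Finset.disjoint_filter, Finset.disjoint_filter]
    constructor
    · rintro t _ ⟨h2, h3⟩ ⟨_, h4⟩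
      rw [Pur, h2] at h3
      linarith
    · rintro t _ ⟨_, h3⟩ ⟨_, h4⟩
      linarith

end

theorem self_dual {b : ℕ} (q : ℝ) (hq : 1 < q) (Φ N S : Matrix (Fin b) (Fin b) ℂ)
    (hΦ : Φ.det ≠ 0) (hN : IsNilpotent N) (hc : N * Φ = (q : ℂ) • (Φ * N)) (hS : S.det ≠ 0)
    (h1 : Φᵀ * S * Φ = S) (h2 : Nᵀ * S + S * N = 0) :
    ∃ r, PureCount q Φ N r ∧ (∑ n ∈ range (b + 1), if Odd (blocks N n) then n else 0) ≤ r ∧
      (∃ k, b = r + 2 * k) ∧ (Isobaric q Φ N → r = b) ∧
      ((∀ n, 1 ≤ n → blocks N n ≤ 1) → r = b) := by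
  classical
  have hq0 : 0 < q := by linarith
  have hqc : (q : ℂ) ≠ 0 := by exact_mod_cast hq0.ne'
  obtain ⟨T, i1, i2, a, β, e, ha, hβ, had, hrank⟩ := exists_strings q hq Φ N hΦ hN hc
  have key : ∀ (P : (Σ t, Fin (a t)) → Prop) [DecidablePred P]
      [DecidablePred fun i : Fin b => P (e.symm i)],
      (univ.filter fun i : Fin b => P (e.symm i)).card = (univ.filter P).card := by
    intro P _ _
    refine Finset.card_bij (fun i _ => e.symm i) ?_ ?_ ?_
    · intro i hi
      rw [mem_filter] at hi ⊢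
      exact ⟨mem_univ _, hi.2⟩
    · intro i _ j _ hij
      exact e.symm.injective hij
    · intro x hx
      rw [mem_filter] at hx
      exact ⟨e x, by rw [mem_filter, e.symm_apply_apply]; exact ⟨mem_univ _, hx.2⟩,
        e.symm_apply_apply x⟩
  have hα : ∀ i, aS (q : ℂ) a β (e.symm i) ≠ 0 := fun i =>
    mul_ne_zero (hβ _) (pow_ne_zero _ (inv_ne_zero hqc))
  -- duality
  have hCC : ∀ s c, CC (q : ℂ) a β s c = CC (q : ℂ) a (dualB (q : ℂ) a β) s c := by
    intro s c
    rw [CC_dual (q : ℂ) a hqc β hβ s c, CC]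
    have h3 := dual_count had hα hΦ hS h1 h2 c s
    exact (key fun x => sS a x = s ∧ aS (q : ℂ) a β x = c).symm.trans
      (h3.trans (key fun x => -sS a x = s ∧ (aS (q : ℂ) a β x)⁻¹ = c))
  have hKK : ∀ n, 1 ≤ n → ∀ c, KK a β n c = KK a (dualB (q : ℂ) a β) n c := by
    intro n hn c
    have e1 := KK_eq (q : ℂ) a hqc β n hn c
    have e2 := KK_eq (q : ℂ) a hqc (dualB (q : ℂ) a β) n hn c
    rw [← hCC, ← hCC] at e2
    omega
  have hodd := fun n (hn : 1 ≤ n) => odd_count q a β hq hβ n hn (hKK n hn)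
  -- the number of blocks
  have hblocks : ∀ n, 1 ≤ n → blocks N n = (univ.filter fun t => a t = n).card := by
    intro n hn
    have e1 : ∑ t, (a t - (n - 1)) + ∑ t, (a t - (n + 1))
        = (univ.filter fun t => a t = n).card + 2 * ∑ t, (a t - n) := by
      rw [Finset.card_filter, Finset.mul_sum, ← Finset.sum_add_distrib, ← Finset.sum_add_distrib]
      refine Finset.sum_congr rfl fun t _ => ?_
      split_ifs <;> omega
    rw [blocks, hrank, hrank, hrank]
    omega
  obtain ⟨M, hM, hp⟩ := had.pure q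
  obtain ⟨M₁, hM₁, hm⟩ := had.mults
  have hMM : M₁ = M := hM₁.unique hM
  rw [hMM] at hm
  set r := pureDim q (Matrix.toLin' Φ) M with hr
  have hPC : PureCount q Φ N r := ⟨M, fun M' => ⟨fun h => h.unique hM,
    fun h => by rw [h]; exact hM⟩, rfl⟩
  have hrs : r = ∑ t, if Pur q a β t then a t else 0 := by
    rw [hp]
    have k1 := key fun x => ‖aS (q : ℂ) a β x‖ = q ^ ((sS a x : ℝ) / 2)
    rw [k1, Finset.card_filter, Fintype.sum_sigma]
    refine Finset.sum_congr rfl fun t _ => ?_
    rw [Finset.sum_congr rfl fun j _ => if_congr (pure_string q a β hq hβ ⟨t, j⟩) rfl rfl]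
    split_ifs <;> simp
  have hbs : b = ∑ t, a t := by
    have := Fintype.card_congr e
    rw [Fintype.card_sigma, Fintype.card_fin] at this
    simpa using this.symm
  have hab : ∀ t, a t ∈ range (b + 1) := by
    intro t
    rw [mem_range]
    have : a t ≤ ∑ t, a t := Finset.single_le_sum (fun _ _ => Nat.zero_le _) (mem_univ t)
    omega
  have hrn : r = ∑ n ∈ range (b + 1), n * (univ.filter fun t => a t = n ∧ Pur q a β t).card := by
    rw [hrs, ← Finset.sum_fiberwise_of_maps_to (fun t _ => hab t)]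
    refine Finset.sum_congr rfl fun n _ => ?_
    rw [← Finset.sum_filter, Finset.filter_filter, Finset.sum_congr rfl
      (g := fun _ => n) (fun t ht => (mem_filter.mp ht).2.1), Finset.sum_const, smul_eq_mul,
      mul_comm]
  have hbn : b = ∑ n ∈ range (b + 1), n * (univ.filter fun t => a t = n).card := by
    conv_lhs => rw [hbs]
    rw [← Finset.sum_fiberwise_of_maps_to (fun t _ => hab t)]
    refine Finset.sum_congr rfl fun n _ => ?_
    rw [Finset.sum_congr rfl
      (g := fun _ => n) (fun t ht => (mem_filter.mp ht).2), Finset.sum_const, smul_eq_mul,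
      mul_comm]
  have hall : (∀ t, Pur q a β t) → r = b := by
    intro h
    rw [hrs]
    conv_rhs => rw [hbs]
    exact Finset.sum_congr rfl fun t _ => if_pos (h t)
  refine ⟨r, hPC, ?_, ?_, ?_, ?_⟩
  · rw [hrn]
    apply Finset.sum_le_sum
    intro n _
    split_ifs with ho
    · rcases Nat.eq_zero_or_pos n with h0 | hn
      · rw [h0, zero_mul]
      · rw [hblocks n hn, split_count q a β n, hodd n hn] at ho
        have : (univ.filter fun t => a t = n ∧ Pur q a β t).card ≠ 0 := by
          intro h0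
          rw [h0, zero_add] at ho
          exact (Nat.not_odd_iff_even.mpr ⟨_, rfl⟩) ho
        exact Nat.le_mul_of_pos_right n (Nat.pos_of_ne_zero this)
    · exact Nat.zero_le _
  · refine ⟨∑ n ∈ range (b + 1), n * (univ.filter fun t => a t = n ∧
      ‖β t‖ < q ^ (((n : ℝ) - 1) / 2)).card, ?_⟩
    conv_lhs => rw [hbn]
    rw [hrn, Finset.mul_sum, ← Finset.sum_add_distrib]
    refine Finset.sum_congr rfl fun n _ => ?_
    rcases Nat.eq_zero_or_pos n with h0 | hn
    · rw [h0]; simp
    · rw [split_count q a β n, hodd n hn]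
      ring
  · intro hiso
    apply hall
    intro t
    have hn := ha t
    have hpos : ∀ t', a t' = a t → 0 < KK a β (a t) (β t') := by
      intro t' ht'
      unfold KK
      exact Finset.card_pos.mpr ⟨t', by rw [mem_filter]; exact ⟨mem_univ _, ht', rfl⟩⟩
    have hmC : ∀ s c, mult (Matrix.toLin' Φ) M c s = CC (q : ℂ) a β s c := by
      intro s c
      rw [hm, CC]
      exact key fun x => sS a x = s ∧ aS (q : ℂ) a β x = c
    have hsame : ∀ t', a t' = a t → ‖β t'‖ = ‖β t‖ := by
      intro t' ht'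
      apply hiso M hM (a t) hn (β t') (β t)
      · rw [hmC, hmC]
        have e1 := KK_eq (q : ℂ) a hqc β (a t) hn (β t')
        have e2 := hpos t' ht'
        omega
      · rw [hmC, hmC]
        have e1 := KK_eq (q : ℂ) a hqc β (a t) hn (β t)
        have e2 := hpos t rfl
        omega
    have hod := hodd (a t) hn
    unfold Pur
    rcases lt_trichotomy ‖β t‖ (q ^ (((a t : ℝ) - 1) / 2)) with h3 | h3 | h3
    · exfalso
      have e1 : (univ.filter fun t' => a t' = a t ∧ q ^ (((a t : ℝ) - 1) / 2) < ‖β t'‖).card = 0 := by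
        rw [Finset.card_eq_zero, Finset.filter_eq_empty_iff]
        rintro t' _ ⟨h4, h5⟩
        rw [hsame t' h4] at h5
        linarith
      have e2 : 0 < (univ.filter fun t' => a t' = a t ∧
          ‖β t'‖ < q ^ (((a t : ℝ) - 1) / 2)).card :=
        Finset.card_pos.mpr ⟨t, by rw [mem_filter]; exact ⟨mem_univ _, rfl, h3⟩⟩
      omega
    · exact h3
    · exfalso
      have e1 : (univ.filter fun t' => a t' = a t ∧
          ‖β t'‖ < q ^ (((a t : ℝ) - 1) / 2)).card = 0 := by
        rw [Finset.card_eq_zero, Finset.filter_eq_empty_iff]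
        rintro t' _ ⟨h4, h5⟩
        rw [hsame t' h4] at h5
        linarith
      have e2 : 0 < (univ.filter fun t' => a t' = a t ∧ q ^ (((a t : ℝ) - 1) / 2) < ‖β t'‖).card :=
        Finset.card_pos.mpr ⟨t, by rw [mem_filter]; exact ⟨mem_univ _, rfl, h3⟩⟩
      omega
  · intro hb1
    apply hall
    intro t
    have hn := ha t
    have e1 := hb1 (a t) hn
    rw [hblocks (a t) hn, split_count q a β (a t), hodd (a t) hn] at e1
    by_contra hP
    have h3 : ‖β t‖ ≠ q ^ (((a t : ℝ) - 1) / 2) := hP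
    rcases lt_or_gt_of_ne h3 with h4 | h4
    · have e2 : 0 < (univ.filter fun t' => a t' = a t ∧
          ‖β t'‖ < q ^ (((a t : ℝ) - 1) / 2)).card :=
        Finset.card_pos.mpr ⟨t, by rw [mem_filter]; exact ⟨mem_univ _, rfl, h4⟩⟩
      omega
    · have e2 : 0 < (univ.filter fun t' => a t' = a t ∧ q ^ (((a t : ℝ) - 1) / 2) < ‖β t'‖).card :=
        Finset.card_pos.mpr ⟨t, by rw [mem_filter]; exact ⟨mem_univ _, rfl, h4⟩⟩
      rw [hodd (a t) hn] at e2
      omega

end Pool.Agent.WM77
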