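import Pool.Agent.WM77.Std

/-!
The multiplicities in an adapted basis.
-/

namespace Pool.Agent.WM77

open Module Matrix

section
variable {ι : Type*} [Fintype ι] [DecidableEq ι]

/-- the vectors supported on `P` -/
def supp (P : ι → Prop) : Submodule ℂ (ι → ℂ) where
  carrier := {x | ∀ i, ¬ P i → x i = 0}
  add_mem' := by
    intro x y hx hy i hi
    simp [hx i hi, hy i hi]
  zero_mem' := fun _ _ => rfl
  smul_mem' := by
    intro c x hx i hi
    simp [hx i hi]

/-- the coordinates on `supp P` -/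
def suppEquiv (P : ι → Prop) [DecidablePred P] : supp (ι := ι) P ≃ₗ[ℂ] ({i // P i} → ℂ) where
  toFun x := fun i => x.1 i.1
  map_add' x y := rfl
  map_smul' c x := rfl
  invFun y := ⟨fun i => if h : P i then y ⟨i, h⟩ else 0, fun i hi => dif_neg hi⟩
  left_inv x := by
    apply Subtype.ext
    funext i
    by_cases h : P i
    · simp [h]
    · simp [h, x.2 i h]
  right_inv y := by
    funext i
    simp [i.2]

omit [DecidableEq ι] in
theorem finrank_supp (P : ι → Prop) [DecidablePred P] :
    finrank ℂ (supp (ι := ι) P) = (Finset.univ.filter P).card := by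
  rw [(suppEquiv P).finrank_eq, Module.finrank_fintype_fun_eq_card, Fintype.card_subtype]

theorem diag_apply (α : ι → ℂ) (x : ι → ℂ) (i : ι) :
    Matrix.toLin' (Matrix.diagonal α) x i = α i * x i := by
  simp [Matrix.mulVec_diagonal]

variable {Φ : Matrix ι ι ℂ} {α : ι → ℂ}

theorem comm_entry (hc : Commute Φ (Matrix.diagonal α)) (i j : ι) (hij : α i ≠ α j) :
    Φ i j = 0 := by
  have h1 := congrFun (congrFun hc.eq i) j
  rw [Matrix.diagonal_mul, Matrix.mul_diagonal] at h1
  have h2 : (α i - α j) * Φ i j = 0 := by rw [sub_mul, ← h1]; ring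
  rcases mul_eq_zero.mp h2 with h3 | h3
  · exact absurd (sub_eq_zero.mp h3) hij
  · exact h3

/-- the projection to the coordinates with `α = b` -/
def pr (α : ι → ℂ) [DecidableEq ℂ] (b : ℂ) : (ι → ℂ) →ₗ[ℂ] (ι → ℂ) where
  toFun x := fun i => if α i = b then x i else 0
  map_add' x y := by
    funext i
    simp only [Pi.add_apply]
    split_ifs
    · rfl
    · rw [add_zero]
  map_smul' c x := by
    funext i
    simp only [Pi.smul_apply, smul_eq_mul, RingHom.id_apply]
    split_ifs
    · rfl
    · rw [mul_zero]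

open Classical in
theorem pr_comm (hc : Commute Φ (Matrix.diagonal α)) (b : ℂ) (x : ι → ℂ) :
    pr α b (Matrix.toLin' Φ x) = Matrix.toLin' Φ (pr α b x) := by
  funext i
  simp only [pr, LinearMap.coe_mk, AddHom.coe_mk, Matrix.toLin'_apply, Matrix.mulVec, dotProduct]
  split_ifs with hi
  · refine Finset.sum_congr rfl fun j _ => ?_
    by_cases hj : α j = b
    · rw [if_pos hj]
    · rw [comm_entry hc i j (by rw [hi]; exact fun h => hj h.symm), zero_mul, zero_mul]
  · symm
    apply Finset.sum_eq_zero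
    intro j _
    by_cases hj : α j = b
    · rw [comm_entry hc i j (by rw [hj]; exact hi), zero_mul]
    · rw [if_neg hj, mul_zero]

theorem supp_le (hc : Commute Φ (Matrix.diagonal α)) (hn : IsNilpotent (Φ - Matrix.diagonal α))
    (a : ℂ) : supp (fun i => α i = a) ≤ Module.End.maxGenEigenspace (Matrix.toLin' Φ) a := by
  intro x hx
  obtain ⟨k, hk⟩ := hn
  have hc' : Commute (Matrix.toLin' (Φ - Matrix.diagonal α)) (Matrix.toLin' (Matrix.diagonal α)) := by
    have : Commute (Φ - Matrix.diagonal α) (Matrix.diagonal α) := hc.sub_left (Commute.refl _)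
    rw [Commute, SemiconjBy, Module.End.mul_eq_comp, Module.End.mul_eq_comp,
      ← Matrix.toLin'_mul, ← Matrix.toLin'_mul, this.eq]
  have hD : ∀ y : ι → ℂ, (∀ i, α i ≠ a → y i = 0) ↔
      Matrix.toLin' (Matrix.diagonal α) y = a • y := by
    intro y
    constructor
    · intro h
      funext i
      rw [diag_apply, Pi.smul_apply, smul_eq_mul]
      by_cases hi : α i = a
      · rw [hi]
      · rw [h i hi, mul_zero, mul_zero]
    · intro h i hi
      have h1 := congrFun h i
      rw [diag_apply, Pi.smul_apply, smul_eq_mul] at h1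
      have h2 : (α i - a) * y i = 0 := by rw [sub_mul, h1, sub_self]
      rcases mul_eq_zero.mp h2 with h3 | h3
      · exact absurd (sub_eq_zero.mp h3) hi
      · exact h3
  have key : ∀ j : ℕ, ∀ y : ι → ℂ, Matrix.toLin' (Matrix.diagonal α) y = a • y →
      ((Matrix.toLin' Φ - algebraMap ℂ (Module.End ℂ (ι → ℂ)) a) ^ j) y
        = (Matrix.toLin' (Φ - Matrix.diagonal α) ^ j) y := by
    intro j
    induction j with
    | zero => intro y _; rfl
    | succ j ih =>
      intro y hy
      have h1 : (Matrix.toLin' Φ - algebraMap ℂ (Module.End ℂ (ι → ℂ)) a) y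
          = Matrix.toLin' (Φ - Matrix.diagonal α) y := by
        rw [map_sub, LinearMap.sub_apply, LinearMap.sub_apply, hy]
        rfl
      have h2 : Matrix.toLin' (Matrix.diagonal α) (Matrix.toLin' (Φ - Matrix.diagonal α) y)
          = a • Matrix.toLin' (Φ - Matrix.diagonal α) y := by
        have := congrArg (fun f : Module.End ℂ (ι → ℂ) => f y) hc'.eq
        simp only [Module.End.mul_apply] at this
        rw [← this, hy, map_smul]
      rw [pow_succ, pow_succ, Module.End.mul_apply, Module.End.mul_apply, h1, ih _ h2]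
  rw [Module.End.mem_maxGenEigenspace]
  refine ⟨k, ?_⟩
  have h0 := key k x ((hD x).mp (fun i hi => hx i hi))
  have h3 : Matrix.toLin' (Φ - Matrix.diagonal α) ^ k = 0 := by
    rw [← Matrix.toLin'_pow, hk, map_zero]
  rw [h3] at h0
  simpa [Algebra.algebraMap_eq_smul_one] using h0

theorem maxGen_eq (hc : Commute Φ (Matrix.diagonal α)) (hn : IsNilpotent (Φ - Matrix.diagonal α))
    (a : ℂ) : Module.End.maxGenEigenspace (Matrix.toLin' Φ) a = supp (fun i => α i = a) := by
  classical
  apply le_antisymm _ (supp_le hc hn a)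
  intro x hx i hi
  have h1 : pr α (α i) x ∈ Module.End.maxGenEigenspace (Matrix.toLin' Φ) a := by
    rw [Module.End.mem_maxGenEigenspace] at hx ⊢
    obtain ⟨k, hk⟩ := hx
    refine ⟨k, ?_⟩
    have hcomm : ∀ y, pr α (α i) ((Matrix.toLin' Φ - a • (1 : Module.End ℂ (ι → ℂ))) y)
        = (Matrix.toLin' Φ - a • (1 : Module.End ℂ (ι → ℂ))) (pr α (α i) y) := by
      intro y
      simp only [LinearMap.sub_apply, LinearMap.smul_apply, Module.End.one_apply, map_sub,
        map_smul, pr_comm hc]
    have : ∀ j : ℕ, ∀ y, pr α (α i) (((Matrix.toLin' Φ - a • (1 : Module.End ℂ (ι → ℂ))) ^ j) y)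
        = ((Matrix.toLin' Φ - a • (1 : Module.End ℂ (ι → ℂ))) ^ j) (pr α (α i) y) := by
      intro j
      induction j with
      | zero => intro y; rfl
      | succ j ih =>
        intro y
        rw [pow_succ', Module.End.mul_apply, Module.End.mul_apply, hcomm, ih]
    rw [← this, hk, map_zero]
  have h2 : pr α (α i) x ∈ Module.End.maxGenEigenspace (Matrix.toLin' Φ) (α i) := by
    apply supp_le hc hn
    intro j hj
    simp only [pr, LinearMap.coe_mk, AddHom.coe_mk]
    rw [if_neg hj]
  have h3 := Module.End.disjoint_genEigenspace (Matrix.toLin' Φ) hi ⊤ ⊤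
  have h4 := Submodule.disjoint_def.mp h3 _ h2 h1
  have h5 := congrFun h4 i
  simpa [pr] using h5

open Classical in
theorem mult_eq (s : ι → ℤ) (hc : Commute Φ (Matrix.diagonal α))
    (hn : IsNilpotent (Φ - Matrix.diagonal α)) (a : ℂ) (t : ℤ) :
    mult (Matrix.toLin' Φ) (Mstd s) a t
      = (Finset.univ.filter fun i => s i = t ∧ α i = a).card := by
  have h1 : ∀ t : ℤ, Mstd s t ⊓ Module.End.maxGenEigenspace (Matrix.toLin' Φ) a
      = supp (fun i => s i ≤ t ∧ α i = a) := by
    intro t
    rw [maxGen_eq hc hn]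
    ext x
    constructor
    · rintro ⟨h1, h2⟩ i hi
      by_cases h : α i = a
      · exact h1 i (by
          by_contra hlt
          exact hi ⟨by omega, h⟩)
      · exact h2 i h
    · intro h
      exact ⟨fun i hi => h i fun h' => by omega, fun i hi => h i fun h' => hi h'.2⟩
  rw [mult, h1, h1, finrank_supp, finrank_supp]
  have h2 : (Finset.univ.filter fun i => s i ≤ t ∧ α i = a)
      = (Finset.univ.filter fun i => s i ≤ t - 1 ∧ α i = a)
        ∪ (Finset.univ.filter fun i => s i = t ∧ α i = a) := by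
    ext i
    simp only [Finset.mem_filter, Finset.mem_univ, true_and, Finset.mem_union]
    constructor
    · rintro ⟨h1, h2⟩
      rcases lt_or_eq_of_le h1 with h3 | h3
      · exact Or.inl ⟨by omega, h2⟩
      · exact Or.inr ⟨h3, h2⟩
    · rintro (⟨h1, h2⟩ | ⟨h1, h2⟩)
      · exact ⟨by omega, h2⟩
      · exact ⟨by omega, h2⟩
  rw [h2, Finset.card_union_of_disjoint]
  · omega
  · rw [Finset.disjoint_filter]
    rintro i _ ⟨h1, _⟩ ⟨h2, _⟩
    omega

open Classical in
theorem pureDim_eq (q : ℝ) (s : ι → ℤ) (hc : Commute Φ (Matrix.diagonal α))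
    (hn : IsNilpotent (Φ - Matrix.diagonal α)) :
    pureDim q (Matrix.toLin' Φ) (Mstd s)
      = (Finset.univ.filter fun i => ‖α i‖ = q ^ ((s i : ℝ) / 2)).card := by
  unfold pureDim
  simp only [mult_eq s hc hn]
  set F := Finset.univ.filter fun i => ‖α i‖ = q ^ ((s i : ℝ) / 2) with hF
  have h1 : ∀ p : ℂ × ℤ, (if ‖p.1‖ = q ^ ((p.2 : ℝ) / 2)
      then (Finset.univ.filter fun i => s i = p.2 ∧ α i = p.1).card else 0)
      = (F.filter fun i => (α i, s i) = p).card := by
    intro p
    split_ifs with hp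
    · congr 1
      ext i
      simp only [hF, Finset.mem_filter, Finset.mem_univ, true_and, Prod.ext_iff]
      constructor
      · rintro ⟨h1, h2⟩
        exact ⟨by rw [h1, h2]; exact hp, h2, h1⟩
      · rintro ⟨_, h2, h1⟩
        exact ⟨h1, h2⟩
    · symm
      rw [Finset.card_eq_zero, Finset.filter_eq_empty_iff]
      intro i hi h
      apply hp
      rw [hF, Finset.mem_filter] at hi
      rw [← h]
      exact hi.2
  simp only [h1]
  rw [finsum_eq_sum_of_support_subset (s := F.image fun i => (α i, s i))]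
  · exact (Finset.card_eq_sum_card_image (fun i => (α i, s i)) F).symm
  · intro p hp
    rw [Function.mem_support] at hp
    rw [Finset.mem_coe, Finset.mem_image]
    obtain ⟨i, hi⟩ := Finset.card_pos.mp (Nat.pos_of_ne_zero hp)
    rw [Finset.mem_filter] at hi
    exact ⟨i, hi.1, hi.2⟩

end

section
variable {V W : Type*} [AddCommGroup V] [Module ℂ V] [AddCommGroup W] [Module ℂ W]
  (e : V ≃ₗ[ℂ] W) {Φ N : Module.End ℂ V} {Φ' N' : Module.End ℂ W} {M : ℤ → Submodule ℂ V}

theorem pow_conj (hN : ∀ x, e (N x) = N' (e x)) (j : ℕ) : ∀ x, e ((N ^ j) x) = (N' ^ j) (e x) := by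
  induction j with
  | zero => intro x; rfl
  | succ j ih =>
    intro x
    rw [pow_succ', pow_succ', Module.End.mul_apply, Module.End.mul_apply, hN, ih]

theorem IsMono.map (h : IsMono N M) (hN : ∀ x, e (N x) = N' (e x)) :
    IsMono N' (fun t => (M t).map (e : V →ₗ[ℂ] W)) where
  mono := fun s => Submodule.map_mono (h.mono s)
  bot := by
    obtain ⟨s, hs⟩ := h.bot
    exact ⟨s, by simp [hs]⟩
  top := by
    obtain ⟨s, hs⟩ := h.top
    exact ⟨s, by simp [hs, LinearMap.range_eq_top.mpr e.surjective]⟩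
  shift := by
    rintro s y ⟨x, hx, rfl⟩
    exact ⟨N x, h.shift s x hx, hN x⟩
  inj := by
    rintro s y ⟨x, hx, rfl⟩ h2
    refine ⟨x, ?_, rfl⟩
    apply h.inj s x hx
    obtain ⟨z, hz, hz2⟩ := h2
    have h3 : e z = e ((N ^ s) x) := by
      rw [pow_conj e hN]
      exact hz2
    rw [← e.injective h3]
    exact hz
  surj := by
    rintro s y ⟨y, hy, rfl⟩
    obtain ⟨x, hx, hxy⟩ := h.surj s y hy
    refine ⟨e x, ⟨x, hx, rfl⟩, ⟨y - (N ^ s) x, hxy, ?_⟩⟩
    have := pow_conj e hN s x
    simp only [LinearEquiv.coe_coe, map_sub, this]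

theorem maxGen_map (hΦ : ∀ x, e (Φ x) = Φ' (e x)) (a : ℂ) :
    Φ'.maxGenEigenspace a = (Φ.maxGenEigenspace a).map (e : V →ₗ[ℂ] W) := by
  have h1 : ∀ x, e ((Φ - a • (1 : Module.End ℂ V)) x) = (Φ' - a • (1 : Module.End ℂ W)) (e x) := by
    intro x
    simp only [LinearMap.sub_apply, LinearMap.smul_apply, Module.End.one_apply, map_sub,
      map_smul, hΦ]
  ext y
  constructor
  · intro hy
    rw [Module.End.mem_maxGenEigenspace] at hy
    obtain ⟨k, hk⟩ := hy
    refine ⟨e.symm y, ?_, e.apply_symm_apply y⟩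
    rw [SetLike.mem_coe, Module.End.mem_maxGenEigenspace]
    refine ⟨k, ?_⟩
    apply e.injective
    rw [pow_conj e h1, e.apply_symm_apply, hk, map_zero]
  · rintro ⟨x, hx, rfl⟩
    rw [SetLike.mem_coe, Module.End.mem_maxGenEigenspace] at hx
    obtain ⟨k, hk⟩ := hx
    rw [Module.End.mem_maxGenEigenspace]
    refine ⟨k, ?_⟩
    have := pow_conj e h1 k x
    rw [hk, map_zero] at this
    exact this.symm

theorem pureDim_map (q : ℝ) (hΦ : ∀ x, e (Φ x) = Φ' (e x)) :
    pureDim q Φ' (fun t => (M t).map (e : V →ₗ[ℂ] W)) = pureDim q Φ M := by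
  have h1 : ∀ a t, mult Φ' (fun t => (M t).map (e : V →ₗ[ℂ] W)) a t = mult Φ M a t := by
    intro a t
    unfold mult
    rw [maxGen_map e hΦ, ← Submodule.map_inf _ e.injective, ← Submodule.map_inf _ e.injective,
      LinearEquiv.finrank_map_eq, LinearEquiv.finrank_map_eq]
  unfold pureDim
  simp only [h1]

end

end Pool.Agent.WM77
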