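import Pool.Agent.WM77.Defs

/-!
The hard Lefschetz property of representations of `sl_2`.
-/

namespace Pool.Agent.WM77

open Module

section
variable {V : Type*} [AddCommGroup V] [Module ℂ V] (H E N : Module.End ℂ V)

/-- the relations of `sl_2` -/
structure Sl2 : Prop where
  hN : ∀ x, H (N x) = N (H x) - (2 : ℂ) • N x
  hE : ∀ x, H (E x) = E (H x) + (2 : ℂ) • E x
  hH : ∀ x, E (N x) - N (E x) = H x
  bdd : ∃ R : ℤ, ∀ r : ℤ, R ≤ r → ∀ x, H x = (r : ℂ) • x → x = 0
  bdd' : ∃ R : ℤ, ∀ r : ℤ, r ≤ R → ∀ x, H x = (r : ℂ) • x → x = 0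

variable {H E N}

theorem Sl2.swap (h : Sl2 H E N) : Sl2 (-H) N E where
  hN := by
    intro x
    simp only [LinearMap.neg_apply, h.hE, map_neg]
    abel
  hE := by
    intro x
    simp only [LinearMap.neg_apply, h.hN, map_neg]
    abel
  hH := by
    intro x
    rw [LinearMap.neg_apply, ← h.hH]
    abel
  bdd := by
    obtain ⟨R, hR⟩ := h.bdd'
    refine ⟨-R, fun r hr x hx => hR (-r) (by omega) x ?_⟩
    rw [LinearMap.neg_apply] at hx
    push_cast
    rw [neg_smul, ← hx, neg_neg]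
  bdd' := by
    obtain ⟨R, hR⟩ := h.bdd
    refine ⟨-R, fun r hr x hx => hR (-r) (by omega) x ?_⟩
    rw [LinearMap.neg_apply] at hx
    push_cast
    rw [neg_smul, ← hx, neg_neg]

theorem Sl2.E_wt (h : Sl2 H E N) {r : ℤ} {x : V} (hx : H x = (r : ℂ) • x) :
    H (E x) = ((r + 2 : ℤ) : ℂ) • E x := by
  rw [h.hE, hx, map_smul, ← add_smul]
  push_cast
  rfl

theorem Sl2.N_wt (h : Sl2 H E N) {r : ℤ} {x : V} (hx : H x = (r : ℂ) • x) :
    H (N x) = ((r - 2 : ℤ) : ℂ) • N x := by
  rw [h.hN, hx, map_smul, ← sub_smul]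
  push_cast
  rfl

theorem Sl2.N_pow_wt (h : Sl2 H E N) {r : ℤ} {x : V} (hx : H x = (r : ℂ) • x) (k : ℕ) :
    H ((N ^ k) x) = ((r - 2 * k : ℤ) : ℂ) • (N ^ k) x := by
  induction k with
  | zero => simpa using hx
  | succ k ih =>
    rw [pow_succ', Module.End.mul_apply, h.N_wt ih]
    congr 2
    push_cast
    ring

/-- `N E + t` is injective on weight spaces with weight `≥ -1`, for `t > 0` -/
theorem Sl2.inj_add (h : Sl2 H E N) : ∀ r : ℤ, -1 ≤ r → ∀ t : ℤ, 0 < t → ∀ x : V,
    H x = (r : ℂ) • x → N (E x) = -(t : ℂ) • x → x = 0 := by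
  obtain ⟨R, hR⟩ := h.bdd
  have key : ∀ d : ℕ, ∀ r : ℤ, -1 ≤ r → R ≤ r + d → ∀ t : ℤ, 0 < t → ∀ x : V,
      H x = (r : ℂ) • x → N (E x) = -(t : ℂ) • x → x = 0 := by
    intro d
    induction d using Nat.strong_induction_on with
    | _ d ih =>
      intro r hr hd t ht x hx hNE
      by_cases hRr : R ≤ r
      · exact hR r hRr x hx
      · have hE := h.E_wt hx
        have h1 : N (E (E x)) = -((t + r + 2 : ℤ) : ℂ) • E x := by
          have h2 := h.hH (E x)
          rw [hNE, map_smul, hE] at h2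
          have h3 : N (E (E x)) = -(t : ℂ) • E x - ((r + 2 : ℤ) : ℂ) • E x := by
            rw [← h2]; abel
          rw [h3, ← sub_smul]
          congr 1
          push_cast
          ring
        have h4 : E x = 0 := by
          rcases Nat.lt_or_ge d 2 with hd2 | hd2
          · exact hR (r + 2) (by omega) _ hE
          · exact ih (d - 2) (by omega) (r + 2) (by omega) (by omega) (t + r + 2) (by omega) _ hE h1
        rw [h4, map_zero] at hNE
        have ht' : (-(t : ℂ)) ≠ 0 := by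
          simpa using (by omega : t ≠ 0)
        exact (smul_eq_zero.mp hNE.symm).resolve_left ht'
  intro r hr
  exact key (R - r).toNat r hr (by omega)

theorem Sl2.E_N_pow (h : Sl2 H E N) {r : ℤ} {x : V} (hx : H x = (r : ℂ) • x) (k : ℕ) :
    E ((N ^ (k + 1)) x) = (N ^ (k + 1)) (E x) + (((k + 1) * (r - k) : ℤ) : ℂ) • (N ^ k) x := by
  induction k with
  | zero =>
    have := h.hH x
    rw [hx] at this
    simp only [zero_add, pow_one, pow_zero, Module.End.one_apply]
    rw [← sub_eq_iff_eq_add', this]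
    congr 1
    push_cast
    ring
  | succ k ih =>
    have h1 := h.hH ((N ^ (k + 1)) x)
    rw [h.N_pow_wt hx, ih] at h1
    rw [pow_succ' N (k + 1), Module.End.mul_apply, Module.End.mul_apply]
    rw [sub_eq_iff_eq_add] at h1
    rw [h1, map_add, map_smul, ← Module.End.mul_apply N, ← Module.End.mul_apply N, ← pow_succ']
    rw [add_comm, add_assoc, ← pow_succ' N k, ← add_smul]
    congr 2
    push_cast
    ring

/-- `N ^ s` is injective on the space of weight `s` -/
theorem Sl2.inj_pow (h : Sl2 H E N) (r : ℤ) (hr : 0 ≤ r) : ∀ k : ℕ, (k : ℤ) ≤ r → ∀ x : V,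
    H x = (r : ℂ) • x → (E ^ k) ((N ^ k) x) = 0 → x = 0 := by
  intro k
  induction k with
  | zero => intro _ x _ h0; simpa using h0
  | succ k ih =>
    intro hk x hx h0
    have h1 : (E ^ (k + 1)) ((N ^ (k + 1)) x)
        = (E ^ k) ((N ^ k) (N (E x) + (((k + 1) * (r - k) : ℤ) : ℂ) • x)) := by
      rw [pow_succ, Module.End.mul_apply, h.E_N_pow hx k]
      rw [pow_succ, Module.End.mul_apply, map_add (N ^ k), map_smul (N ^ k)]
    rw [h1] at h0
    have hw : H (N (E x) + (((k + 1) * (r - k) : ℤ) : ℂ) • x)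
        = (r : ℂ) • (N (E x) + (((k + 1) * (r - k) : ℤ) : ℂ) • x) := by
      rw [map_add, map_smul, hx, h.N_wt (h.E_wt hx), smul_add, smul_comm]
      congr 2
      push_cast
      ring
    have h2 := ih (by push_cast at hk; omega) _ hw h0
    refine h.inj_add r (by omega) ((k + 1) * (r - k)) ?_ x hx ?_
    · push_cast at hk
      have : 0 < r - k := by omega
      positivity
    · rw [neg_smul]
      exact eq_neg_of_add_eq_zero_left h2

variable [FiniteDimensional ℂ V]

/-- hard Lefschetz -/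
theorem Sl2.bij (h : Sl2 H E N) (m : ℕ) :
    (∀ x, H x = ((m : ℤ) : ℂ) • x → (N ^ m) x = 0 → x = 0) ∧
    (∀ y, H y = ((-m : ℤ) : ℂ) • y → ∃ x, H x = ((m : ℤ) : ℂ) • x ∧ (N ^ m) x = y) := by
  have i1 : ∀ {H E N : Module.End ℂ V}, Sl2 H E N →
      ∀ x, H x = ((m : ℤ) : ℂ) • x → (N ^ m) x = 0 → x = 0 := by
    intro H E N h x hx h0
    refine h.inj_pow m (by omega) m le_rfl x hx ?_
    rw [h0, map_zero]
  refine ⟨i1 h, ?_⟩
  -- the two weight spaces
  let W := H.eigenspace ((m : ℤ) : ℂ)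
  let W' := H.eigenspace ((-m : ℤ) : ℂ)
  have hN : ∀ x ∈ W, (N ^ m) x ∈ W' := by
    intro x hx
    rw [Module.End.mem_eigenspace_iff] at hx ⊢
    rw [h.N_pow_wt hx]
    congr 2
    ring
  have hE : ∀ x ∈ W', (E ^ m) x ∈ W := by
    intro x hx
    rw [Module.End.mem_eigenspace_iff] at hx ⊢
    have h2 := h.swap.N_pow_wt (r := m) (x := x) (by
      rw [LinearMap.neg_apply, hx]
      push_cast
      rw [neg_smul, neg_neg]) m
    rw [LinearMap.neg_apply] at h2
    have h3 := congrArg Neg.neg h2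
    rw [neg_neg] at h3
    rw [h3, ← neg_smul]
    congr 1
    push_cast
    ring
  have d1 : finrank ℂ W ≤ finrank ℂ W' := by
    refine LinearMap.finrank_le_finrank_of_injective (f := (N ^ m).restrict hN) ?_
    rw [← LinearMap.ker_eq_bot, LinearMap.ker_eq_bot']
    rintro ⟨x, hx⟩ h0
    apply Subtype.ext
    exact i1 h x (Module.End.mem_eigenspace_iff.mp hx) (congrArg Subtype.val h0)
  have d2 : finrank ℂ W' ≤ finrank ℂ W := by
    refine LinearMap.finrank_le_finrank_of_injective (f := (E ^ m).restrict hE) ?_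
    rw [← LinearMap.ker_eq_bot, LinearMap.ker_eq_bot']
    rintro ⟨x, hx⟩ h0
    apply Subtype.ext
    refine i1 h.swap x ?_ (congrArg Subtype.val h0)
    rw [LinearMap.neg_apply, Module.End.mem_eigenspace_iff.mp hx]
    push_cast
    rw [neg_smul, neg_neg]
  have hinj : Function.Injective ((N ^ m).restrict hN) := by
    rw [← LinearMap.ker_eq_bot, LinearMap.ker_eq_bot']
    rintro ⟨x, hx⟩ h0
    apply Subtype.ext
    exact i1 h x (Module.End.mem_eigenspace_iff.mp hx) (congrArg Subtype.val h0)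
  have hsurj : Function.Surjective ((N ^ m).restrict hN) :=
    (LinearMap.injective_iff_surjective_of_finrank_eq_finrank (le_antisymm d1 d2)).mp hinj
  intro y hy
  obtain ⟨⟨x, hx⟩, hxy⟩ := hsurj ⟨y, Module.End.mem_eigenspace_iff.mpr hy⟩
  exact ⟨x, Module.End.mem_eigenspace_iff.mp hx, congrArg Subtype.val hxy⟩

end

end Pool.Agent.WM77
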