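import Pool.Agent.WM77.Unique
import Pool.Agent.WM77.Sl2

/-!
The monodromy filtration in an adapted basis.
-/

namespace Pool.Agent.WM77

open Module Matrix

section
variable {ι : Type*} [Fintype ι] [DecidableEq ι] (s : ι → ℤ) (α : ι → ℂ)

/-- the standard filtration -/
def Mstd (t : ℤ) : Submodule ℂ (ι → ℂ) where
  carrier := {x | ∀ i, t < s i → x i = 0}
  add_mem' := by
    intro x y hx hy i hi
    simp [hx i hi, hy i hi]
  zero_mem' := fun _ _ => rfl
  smul_mem' := by
    intro c x hx i hi
    simp [hx i hi]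

/-- the part of weight `r` of a vector -/
def prj (r : ℤ) (x : ι → ℂ) : ι → ℂ := fun i => if s i = r then x i else 0

omit [Fintype ι] [DecidableEq ι] in
theorem mem_Mstd (t : ℤ) (x : ι → ℂ) : x ∈ Mstd s t ↔ ∀ i, t < s i → x i = 0 := Iff.rfl

/-- the operator `H` -/
noncomputable def HH : Module.End ℂ (ι → ℂ) := Matrix.toLin' (Matrix.diagonal fun i => (s i : ℂ))

theorem HH_apply (x : ι → ℂ) (i : ι) : HH s x i = (s i : ℂ) * x i := by
  simp [HH, Matrix.mulVec_diagonal]

theorem HH_eig (r : ℤ) (x : ι → ℂ) : HH s x = (r : ℂ) • x ↔ ∀ i, s i ≠ r → x i = 0 := by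
  constructor
  · intro h i hi
    have h1 := congrFun h i
    rw [HH_apply, Pi.smul_apply, smul_eq_mul] at h1
    have h2 : ((s i : ℂ) - r) * x i = 0 := by rw [sub_mul, h1, sub_self]
    rcases mul_eq_zero.mp h2 with h3 | h3
    · exact absurd (by exact_mod_cast sub_eq_zero.mp h3) hi
    · exact h3
  · intro h
    funext i
    rw [HH_apply, Pi.smul_apply, smul_eq_mul]
    by_cases hi : s i = r
    · rw [hi]
    · rw [h i hi, mul_zero, mul_zero]

/-- the data of an adapted basis: `E, N, H = diag s` satisfy the relations of `sl_2` -/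
structure Rel (N E : Matrix ι ι ℂ) : Prop where
  hN : (Matrix.diagonal fun i => (s i : ℂ)) * N = N * (Matrix.diagonal fun i => (s i : ℂ))
    - (2 : ℂ) • N
  hE : (Matrix.diagonal fun i => (s i : ℂ)) * E = E * (Matrix.diagonal fun i => (s i : ℂ))
    + (2 : ℂ) • E
  hH : E * N - N * E = Matrix.diagonal fun i => (s i : ℂ)

variable {s} {N E : Matrix ι ι ℂ}

theorem Rel.sl2 (h : Rel s N E) : Sl2 (HH s) (Matrix.toLin' E) (Matrix.toLin' N) where
  hN := by
    intro x
    have := congrArg (fun A => Matrix.toLin' A x) h.hN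
    simp only [Matrix.toLin'_mul, map_sub, map_smul, LinearMap.sub_apply, LinearMap.comp_apply,
      LinearMap.smul_apply] at this
    exact this
  hE := by
    intro x
    have := congrArg (fun A => Matrix.toLin' A x) h.hE
    simp only [Matrix.toLin'_mul, map_add, map_smul, LinearMap.add_apply, LinearMap.comp_apply,
      LinearMap.smul_apply] at this
    exact this
  hH := by
    intro x
    have := congrArg (fun A => Matrix.toLin' A x) h.hH
    simp only [Matrix.toLin'_mul, map_sub, LinearMap.sub_apply, LinearMap.comp_apply] at this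
    exact this
  bdd := by
    refine ⟨1 + ∑ i, |s i|, fun r hr x hx => ?_⟩
    funext i
    refine (HH_eig s r x).mp hx i ?_
    have h1 : |s i| ≤ ∑ i, |s i| :=
      Finset.single_le_sum (fun j _ => abs_nonneg (s j)) (Finset.mem_univ i)
    have h2 := le_abs_self (s i)
    omega
  bdd' := by
    refine ⟨-1 - ∑ i, |s i|, fun r hr x hx => ?_⟩
    funext i
    refine (HH_eig s r x).mp hx i ?_
    have h1 : |s i| ≤ ∑ i, |s i| :=
      Finset.single_le_sum (fun j _ => abs_nonneg (s j)) (Finset.mem_univ i)
    have h2 := neg_abs_le (s i)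
    omega

theorem Rel.N_entry (h : Rel s N E) (i j : ι) (hij : s i ≠ s j - 2) : N i j = 0 := by
  have h1 := congrFun (congrFun h.hN i) j
  rw [Matrix.diagonal_mul, Matrix.sub_apply, Matrix.mul_diagonal, Matrix.smul_apply,
    smul_eq_mul] at h1
  have h2 : ((s i : ℂ) - s j + 2) * N i j = 0 := by linear_combination h1
  rcases mul_eq_zero.mp h2 with h3 | h3
  · exfalso
    apply hij
    have h4 : (((s i - s j + 2 : ℤ)) : ℂ) = 0 := by push_cast; exact h3
    have h5 : s i - s j + 2 = 0 := by exact_mod_cast h4
    omega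
  · exact h3

/-- `N` is graded -/
theorem Rel.N_prj (h : Rel s N E) (r : ℤ) (x : ι → ℂ) :
    Matrix.toLin' N (prj s r x) = prj s (r - 2) (Matrix.toLin' N x) := by
  funext i
  simp only [Matrix.toLin'_apply, Matrix.mulVec, dotProduct, prj]
  split_ifs with hi
  · refine Finset.sum_congr rfl fun j _ => ?_
    by_cases hj : s j = r
    · rw [if_pos hj]
    · rw [h.N_entry i j (by omega), zero_mul, zero_mul]
  · apply Finset.sum_eq_zero
    intro j _
    by_cases hj : s j = r
    · rw [h.N_entry i j (by omega), zero_mul]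
    · rw [if_neg hj, mul_zero]

theorem Rel.N_pow_prj (h : Rel s N E) (k : ℕ) : ∀ (r : ℤ) (x : ι → ℂ),
    (Matrix.toLin' N ^ k) (prj s r x) = prj s (r - 2 * k) ((Matrix.toLin' N ^ k) x) := by
  induction k with
  | zero => intro r x; simp
  | succ k ih =>
    intro r x
    rw [pow_succ', Module.End.mul_apply, Module.End.mul_apply, ih, h.N_prj]
    congr 1
    push_cast
    ring

omit [Fintype ι] [DecidableEq ι] in
theorem prj_eq_zero_of_Mstd (t r : ℤ) (htr : t < r) (x : ι → ℂ) (hx : x ∈ Mstd s t) :
    prj s r x = 0 := by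
  funext i
  simp only [prj, Pi.zero_apply]
  split_ifs with hi
  · exact hx i (by omega)
  · rfl

theorem Rel.isMono (h : Rel s N E) : IsMono (Matrix.toLin' N) (Mstd s) where
  mono := by
    intro t x hx i hi
    exact hx i (by omega)
  bot := by
    refine ⟨-1 - ∑ i, |s i|, ?_⟩
    rw [Submodule.eq_bot_iff]
    intro x hx
    funext i
    apply hx i
    have h1 : |s i| ≤ ∑ i, |s i| :=
      Finset.single_le_sum (fun j _ => abs_nonneg (s j)) (Finset.mem_univ i)
    have h2 := neg_abs_le (s i)
    omega
  top := by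
    refine ⟨∑ i, |s i|, ?_⟩
    rw [Submodule.eq_top_iff']
    intro x i hi
    exfalso
    have h1 : |s i| ≤ ∑ i, |s i| :=
      Finset.single_le_sum (fun j _ => abs_nonneg (s j)) (Finset.mem_univ i)
    have h2 := le_abs_self (s i)
    omega
  shift := by
    intro t x hx i hi
    rw [Matrix.toLin'_apply, Matrix.mulVec, dotProduct]
    apply Finset.sum_eq_zero
    intro j _
    by_cases hj : s i = s j - 2
    · rw [hx j (by omega), mul_zero]
    · rw [h.N_entry i j hj, zero_mul]
  inj := by
    intro m x hx hNx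
    have h1 : (Matrix.toLin' N ^ m) (prj s m x) = 0 := by
      rw [h.N_pow_prj]
      apply prj_eq_zero_of_Mstd (-m - 1) _ (by omega) _ hNx
    have h2 : prj s m x = 0 := by
      refine (h.sl2.bij m).1 _ ?_ h1
      rw [HH_eig]
      intro i hi
      simp only [prj]
      rw [if_neg hi]
    intro i hi
    rcases lt_or_eq_of_le (show (m : ℤ) ≤ s i by omega) with h3 | h3
    · exact hx i h3
    · have := congrFun h2 i
      simp only [prj, Pi.zero_apply] at this
      rwa [if_pos h3.symm] at this
  surj := by
    intro m y hy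
    obtain ⟨x, hx, hxy⟩ := (h.sl2.bij m).2 (prj s (-m) y) (by
      rw [HH_eig]
      intro i hi
      simp only [prj]
      rw [if_neg hi])
    refine ⟨x, ?_, ?_⟩
    · intro i hi
      exact (HH_eig s m x).mp hx i (by omega)
    · rw [hxy]
      intro i hi
      simp only [Pi.sub_apply, prj]
      split_ifs with h3
      · exact sub_self _
      · rw [sub_zero]
        exact hy i (by omega)

end

end Pool.Agent.WM77
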