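import Pool.Agent.WM77.Exist

/-!
Bases of strings.
-/

namespace Pool.Agent.WM77

open Module

/-- a basis of strings `v, N v, …, N ^ (a - 1) v` of eigenvectors of `Ψ` -/
def StrB {V : Type} [AddCommGroup V] [Module ℂ V] (Ψ N : Module.End ℂ V) : Prop :=
  ∃ (T : Type) (_ : Fintype T) (_ : DecidableEq T) (a : T → ℕ) (β : T → ℂ)
    (B : Basis (Σ t, Fin (a t)) ℂ V) (v : T → V), (∀ t, 0 < a t) ∧
    (∀ t (j : Fin (a t)), B ⟨t, j⟩ = (N ^ (j : ℕ)) (v t)) ∧ (∀ t, (N ^ (a t)) (v t) = 0) ∧
    (∀ t, Ψ (v t) = β t • v t)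

theorem str_exists (n : ℕ) : ∀ (V : Type) [AddCommGroup V] [Module ℂ V] [FiniteDimensional ℂ V]
    (Ψ N : Module.End ℂ V) (q : ℂ), finrank ℂ V = n → Ψ.IsSemisimple → Function.Injective Ψ →
    IsNilpotent N → q ≠ 0 → (∀ l : ℕ, 0 < l → q ^ l ≠ 1) → (∀ x, N (Ψ x) = q • Ψ (N x)) →
    StrB Ψ N := by
  induction n using Nat.strong_induction_on with
  | _ n ih =>
  intro V _ _ _ Ψ N q hn hs hinj hN hq0 hq hc
  rcases subsingleton_or_nontrivial V with hV | hV
  · refine ⟨Empty, inferInstance, inferInstance, fun t => t.elim, fun t => t.elim,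
      Basis.empty V, fun t => t.elim, fun t => t.elim, fun t => t.elim, fun t => t.elim,
      fun t => t.elim⟩
  -- the index of nilpotency
  classical
  have hex : ∃ k, N ^ k = 0 := hN
  obtain ⟨m, hm1, hm2⟩ : ∃ m : ℕ, N ^ (m + 1) = 0 ∧ N ^ m ≠ 0 := by
    have h0 : Nat.find hex ≠ 0 := by
      intro h
      have := Nat.find_spec hex
      rw [h, pow_zero] at this
      exact one_ne_zero this
    obtain ⟨m, hm⟩ := Nat.exists_eq_succ_of_ne_zero h0
    refine ⟨m, ?_, ?_⟩
    · have := Nat.find_spec hex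
      rwa [hm] at this
    · exact Nat.find_min hex (by omega)
  have hbig : ∀ j, m < j → N ^ j = 0 := by
    intro j hj
    obtain ⟨i, rfl⟩ : ∃ i, j = m + 1 + i := ⟨j - (m + 1), by omega⟩
    rw [pow_add, hm1, zero_mul]
  obtain ⟨β, v, hβ, hv⟩ := exists_eig hs (N ^ m) hm2
  have hv0 : v ≠ 0 := by
    intro h
    rw [h, map_zero] at hv
    exact hv rfl
  have hβ0 : β ≠ 0 := by
    intro h
    rw [h, zero_smul] at hβ
    exact hv0 (hinj (by rw [hβ, map_zero]))
  have heig : ∀ l : ℕ, Ψ ((N ^ l) v) = (β * (q⁻¹) ^ l) • (N ^ l) v := by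
    intro l
    have h1 := comm_pow hc l v
    rw [hβ, map_smul] at h1
    have h2 : (q⁻¹ ^ l) • (β • (N ^ l) v) = Ψ ((N ^ l) v) := by
      rw [h1, smul_smul, ← mul_pow, inv_mul_cancel₀ hq0, one_pow, one_smul]
    rw [← h2, smul_smul, mul_comm]
  obtain ⟨l, hl1, hl2⟩ := exists_fun hs (β * (q⁻¹) ^ m) ((N ^ m) v) hv (heig m)
  have hlj : ∀ j : ℕ, l ((N ^ j) v) = if j = m then 1 else 0 := by
    intro j
    split_ifs with hj
    · rw [hj, hl1]
    · rcases lt_or_gt_of_ne hj with h | h
      · have h1 := hl2 ((N ^ j) v)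
        rw [heig, map_smul, smul_eq_mul] at h1
        have h2 : (β * q⁻¹ ^ j - β * q⁻¹ ^ m) * l ((N ^ j) v) = 0 := by
          rw [sub_mul, h1, sub_self]
        rcases mul_eq_zero.mp h2 with h3 | h3
        · exfalso
          have h4 : q⁻¹ ^ j = q⁻¹ ^ m := by
            apply mul_left_cancel₀ hβ0
            exact sub_eq_zero.mp h3
          obtain ⟨d, hd⟩ : ∃ d, m = j + d := ⟨m - j, by omega⟩
          rw [hd, pow_add] at h4
          have h5 : q⁻¹ ^ j ≠ 0 := pow_ne_zero _ (inv_ne_zero hq0)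
          have h6 : q⁻¹ ^ d = 1 := by
            apply mul_left_cancel₀ h5
            rw [← h4, mul_one]
          apply hq d (by omega)
          rw [inv_pow, inv_eq_one] at h6
          exact h6
        · exact h3
      · rw [hbig j h, LinearMap.zero_apply, map_zero]
  -- the complement
  let W : Submodule ℂ V := ⨅ j : ℕ, LinearMap.ker (l ∘ₗ (N ^ j))
  have hW : ∀ x, x ∈ W ↔ ∀ j : ℕ, l ((N ^ j) x) = 0 := by
    intro x
    simp only [W, Submodule.mem_iInf, LinearMap.mem_ker, LinearMap.comp_apply]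
  have hWN : ∀ x ∈ W, N x ∈ W := by
    intro x hx
    rw [hW] at hx ⊢
    intro j
    have := hx (j + 1)
    rwa [pow_succ, Module.End.mul_apply] at this
  have hWΨ : ∀ x ∈ W, Ψ x ∈ W := by
    intro x hx
    rw [hW] at hx ⊢
    intro j
    rw [comm_pow hc, map_smul, hl2, hx j, mul_zero, smul_zero]
  have hjv : ∀ i j : Fin (m + 1), l ((N ^ (m - (j : ℕ))) ((N ^ (i : ℕ)) v))
      = if i = j then 1 else 0 := by
    intro i j
    rw [← Module.End.mul_apply, ← pow_add, hlj]
    by_cases hij : i = j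
    · rw [if_pos hij, if_pos]
      have := j.2
      rw [hij]
      omega
    · rw [if_neg hij, if_neg]
      intro h
      apply hij
      apply Fin.ext
      have := j.2
      omega
  let P : V →ₗ[ℂ] V := ∑ j : Fin (m + 1), (l ∘ₗ N ^ (m - (j : ℕ))).smulRight ((N ^ (j : ℕ)) v)
  have hP : ∀ x, P x = ∑ j : Fin (m + 1), l ((N ^ (m - (j : ℕ))) x) • (N ^ (j : ℕ)) v := by
    intro x
    simp only [P, LinearMap.sum_apply, LinearMap.smulRight_apply, LinearMap.comp_apply]
  have hPW : ∀ x, x - P x ∈ W := by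
    intro x
    rw [hW]
    intro j
    by_cases hj : j < m + 1
    · have h1 : l ((N ^ j) (P x)) = l ((N ^ j) x) := by
        rw [hP, map_sum, map_sum]
        have h2 : ∀ i : Fin (m + 1), l ((N ^ j) (l ((N ^ (m - (i : ℕ))) x) • (N ^ (i : ℕ)) v))
            = if i = (⟨m - j, by omega⟩ : Fin (m + 1)) then l ((N ^ (m - (i : ℕ))) x) else 0 := by
          intro i
          rw [map_smul, map_smul, smul_eq_mul]
          have h3 := hjv i ⟨m - j, by omega⟩
          have h4 : m - (m - j) = j := by omega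
          simp only [h4] at h3
          rw [h3]
          split_ifs <;> simp
        rw [Finset.sum_congr rfl fun i _ => h2 i, Finset.sum_ite_eq', if_pos (Finset.mem_univ _)]
        have h4 : m - (m - j) = j := by omega
        simp only [h4]
      rw [map_sub, map_sub, h1, sub_self]
    · rw [hbig j (by omega), LinearMap.zero_apply, map_zero]
  let f : V →ₗ[ℂ] (Fin (m + 1) → ℂ) × W :=
    (LinearMap.pi fun j : Fin (m + 1) => l ∘ₗ N ^ (m - (j : ℕ))).prod
      ((LinearMap.id - P).codRestrict W hPW)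
  let g : (Fin (m + 1) → ℂ) × W →ₗ[ℂ] V :=
    ((∑ j : Fin (m + 1), (LinearMap.proj j).smulRight ((N ^ (j : ℕ)) v) :
      (Fin (m + 1) → ℂ) →ₗ[ℂ] V)).coprod W.subtype
  have hg : ∀ c w, g (c, w) = (∑ j : Fin (m + 1), c j • (N ^ (j : ℕ)) v) + w := by
    intro c w
    simp only [g, LinearMap.coprod_apply, LinearMap.sum_apply, LinearMap.smulRight_apply,
      LinearMap.proj_apply, Submodule.subtype_apply]
  have hf : ∀ x, f x = (fun j : Fin (m + 1) => l ((N ^ (m - (j : ℕ))) x), ⟨x - P x, hPW x⟩) := by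
    intro x
    rfl
  have hgf : ∀ x, g (f x) = x := by
    intro x
    rw [hf, hg, ← hP]
    simp
  have hfg : ∀ y, f (g y) = y := by
    rintro ⟨c, w⟩
    have h1 : ∀ j : Fin (m + 1), l ((N ^ (m - (j : ℕ))) (g (c, w))) = c j := by
      intro j
      rw [hg, map_add, map_add, map_sum, map_sum, (hW w).mp w.2, add_zero]
      have h2 : ∀ i : Fin (m + 1), l ((N ^ (m - (j : ℕ))) (c i • (N ^ (i : ℕ)) v))
          = if i = j then c i else 0 := by
        intro i
        rw [map_smul, map_smul, smul_eq_mul, hjv i j]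
        split_ifs <;> simp
      rw [Finset.sum_congr rfl fun i _ => h2 i, Finset.sum_ite_eq', if_pos (Finset.mem_univ _)]
    rw [hf]
    apply Prod.ext
    · funext j
      exact h1 j
    · apply Subtype.ext
      simp only
      rw [hP]
      simp only [h1]
      rw [hg]
      simp
  let e : V ≃ₗ[ℂ] (Fin (m + 1) → ℂ) × W := LinearEquiv.ofLinearMap f g
    (LinearMap.ext hfg) (LinearMap.ext hgf)
  have hdim : finrank ℂ V = (m + 1) + finrank ℂ W := by
    rw [e.finrank_eq, Module.finrank_prod, Module.finrank_fin_fun]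
  have hpw : ∀ (k : ℕ) (x : W), (((N.restrict hWN) ^ k) x : V) = (N ^ k) (x : V) := by
    intro k
    induction k with
    | zero => intro x; rfl
    | succ k ihk =>
      intro x
      rw [pow_succ', pow_succ', Module.End.mul_apply, Module.End.mul_apply, ← ihk]
      rfl
  obtain ⟨T, i1, i2, a, γ, B, u, ha, hB1, hB2, hB3⟩ :=
    ih (finrank ℂ W) (by omega) W (Ψ.restrict hWΨ) (N.restrict hWN) q rfl (hs.restrict hWΨ)
      (by
        intro x y hxy
        apply Subtype.ext
        apply hinj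
        exact congrArg Subtype.val hxy)
      (by
        refine ⟨m + 1, ?_⟩
        apply LinearMap.ext
        intro x
        apply Subtype.ext
        rw [hpw, hm1]
        rfl)
      hq0 hq (by
        intro x
        apply Subtype.ext
        exact hc x)
  let a' : Unit ⊕ T → ℕ := Sum.elim (fun _ => m + 1) a
  let eι : (Σ t : Unit ⊕ T, Fin (a' t)) ≃ Fin (m + 1) ⊕ (Σ t : T, Fin (a t)) :=
    (Equiv.sumSigmaDistrib (fun t => Fin (a' t))).trans
      (Equiv.sumCongr (Equiv.uniqueSigma (fun t : Unit => Fin (a' (Sum.inl t)))) (Equiv.refl _))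
  have hes : ∀ y, e.symm y = g y := fun y => rfl
  let C : Basis (Fin (m + 1) ⊕ (Σ t : T, Fin (a t))) ℂ V :=
    ((Pi.basisFun ℂ (Fin (m + 1))).prod B).map e.symm
  have hCl : ∀ j : Fin (m + 1), C (Sum.inl j) = (N ^ (j : ℕ)) v := by
    intro j
    rw [Basis.map_apply, hes]
    have h2 : ((Pi.basisFun ℂ (Fin (m + 1))).prod B) (Sum.inl j) = (Pi.single j 1, 0) := by
      apply Prod.ext
      · simp
      · simp
    rw [h2, hg]
    simp [Pi.single_apply]
  have hCr : ∀ x : (Σ t : T, Fin (a t)), C (Sum.inr x) = (B x : V) := by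
    intro x
    rw [Basis.map_apply, hes]
    have h2 : ((Pi.basisFun ℂ (Fin (m + 1))).prod B) (Sum.inr x) = (0, B x) := by
      apply Prod.ext
      · simp
      · simp
    rw [h2, hg]
    simp
  let B' : Basis (Σ t : Unit ⊕ T, Fin (a' t)) ℂ V := C.reindex eι.symm
  have hB' : ∀ x, B' x = C (eι x) := by
    intro x
    rw [Basis.reindex_apply, Equiv.symm_symm]
  refine ⟨Unit ⊕ T, inferInstance, inferInstance, a', Sum.elim (fun _ => β) γ, B',
    Sum.elim (fun _ => v) (fun t => (u t : V)), ?_, ?_, ?_, ?_⟩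
  · rintro (t | t)
    · exact Nat.succ_pos m
    · exact ha t
  · rintro (t | t) j
    · exact (hB' ⟨Sum.inl t, j⟩).trans (hCl j)
    · refine (hB' ⟨Sum.inr t, j⟩).trans ((hCr ⟨t, j⟩).trans ?_)
      have := congrArg Subtype.val (hB1 t j)
      rw [hpw] at this
      exact this
  · rintro (t | t)
    · show (N ^ (m + 1)) v = 0
      rw [hm1]
      rfl
    · show (N ^ (a t)) (u t : V) = 0
      rw [← hpw, hB2]
      rfl
  · rintro (t | t)
    · exact hβ
    · exact congrArg Subtype.val (hB3 t)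

end Pool.Agent.WM77
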