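import Pool.Agent.WM77.StrE
import Pool.Agent.WM77.Final

/-!
Duality and the multiplicities of strings.
-/

namespace Pool.Agent.WM77

open Module Matrix Finset

section
variable {V W : Type*} [AddCommGroup V] [Module ℂ V] [AddCommGroup W] [Module ℂ W]
  (e : V ≃ₗ[ℂ] W) {Φ : Module.End ℂ V} {Φ' : Module.End ℂ W} {M : ℤ → Submodule ℂ V}

theorem mult_map (hΦ : ∀ x, e (Φ x) = Φ' (e x)) (a : ℂ) (t : ℤ) :
    mult Φ' (fun t => (M t).map (e : V →ₗ[ℂ] W)) a t = mult Φ M a t := by
  unfold mult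
  rw [maxGen_map e hΦ, ← Submodule.map_inf _ e.injective, ← Submodule.map_inf _ e.injective,
    LinearEquiv.finrank_map_eq, LinearEquiv.finrank_map_eq]

end

section
variable {ι : Type*} [Fintype ι] [DecidableEq ι]

open Classical in
theorem Adapted.mults {Φ N : Matrix ι ι ℂ} {s : ι → ℤ} {α : ι → ℂ}
    (h : Adapted Φ N s α) : ∃ M, IsMono (Matrix.toLin' N) M ∧ ∀ a t,
      mult (Matrix.toLin' Φ) M a t = (Finset.univ.filter fun i => s i = t ∧ α i = a).card := by
  obtain ⟨P, Q, Ψ, E, H, hPQ, hΨ, hH, hc, hn, h1, h2, h3⟩ := h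
  have hQP : Q * P = 1 := mul_eq_one_comm.mp hPQ
  have cP : ∀ A : Matrix ι ι ℂ, P * (Q * A) = A := by
    intro A
    rw [← Matrix.mul_assoc, hPQ, Matrix.one_mul]
  have cQ : ∀ A : Matrix ι ι ℂ, Q * (P * A) = A := by
    intro A
    rw [← Matrix.mul_assoc, hQP, Matrix.one_mul]
  have hR : Rel s (Q * N * P) (Q * E * P) := by
    have e1 : (Matrix.diagonal fun i => (s i : ℂ)) = Q * H * P := by
      rw [hH]
      simp only [Matrix.mul_assoc, hQP, Matrix.mul_one, cQ]
    refine ⟨?_, ?_, ?_⟩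
    · rw [e1]
      have := congrArg (fun A => Q * A * P) h1
      simp only [Matrix.mul_sub, Matrix.sub_mul, Matrix.mul_smul, Matrix.smul_mul] at this
      simpa only [Matrix.mul_assoc, cP] using this
    · rw [e1]
      have := congrArg (fun A => Q * A * P) h2
      simp only [Matrix.mul_add, Matrix.add_mul, Matrix.mul_smul, Matrix.smul_mul] at this
      simpa only [Matrix.mul_assoc, cP] using this
    · rw [e1]
      have := congrArg (fun A => Q * A * P) h3
      simp only [Matrix.mul_sub, Matrix.sub_mul] at this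
      simpa only [Matrix.mul_assoc, cP] using this
  have hcc : Commute (Q * Φ * P) (Matrix.diagonal α) := by
    have e1 : Matrix.diagonal α = Q * Ψ * P := by
      rw [hΨ]
      simp only [Matrix.mul_assoc, hQP, Matrix.mul_one, cQ]
    rw [e1, Commute, SemiconjBy]
    have := congrArg (fun A => Q * A * P) hc.eq
    simpa only [Matrix.mul_assoc, cP] using this
  have hnn : IsNilpotent (Q * Φ * P - Matrix.diagonal α) := by
    have e1 : Q * Φ * P - Matrix.diagonal α = Q * (Φ - Ψ) * P := by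
      rw [Matrix.mul_sub, Matrix.sub_mul, hΨ]
      simp only [Matrix.mul_assoc, hQP, Matrix.mul_one, cQ]
    rw [e1]
    obtain ⟨k, hk⟩ := hn
    refine ⟨k, ?_⟩
    have : ∀ k : ℕ, (Q * (Φ - Ψ) * P) ^ k = Q * (Φ - Ψ) ^ k * P := by
      intro k
      induction k with
      | zero => simp [hQP]
      | succ k ih =>
        rw [pow_succ, ih, pow_succ]
        simp only [Matrix.mul_assoc, cP]
    rw [this, hk]
    simp
  let e : (ι → ℂ) ≃ₗ[ℂ] (ι → ℂ) := Matrix.toLin'OfInv hQP hPQ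
  have he : ∀ x, e x = Matrix.toLin' P x := fun x => rfl
  have hN : ∀ x, e (Matrix.toLin' (Q * N * P) x) = Matrix.toLin' N (e x) := by
    intro x
    rw [he, he, ← LinearMap.comp_apply, ← LinearMap.comp_apply, ← Matrix.toLin'_mul,
      ← Matrix.toLin'_mul]
    simp only [Matrix.mul_assoc, cP]
  have hΦ : ∀ x, e (Matrix.toLin' (Q * Φ * P) x) = Matrix.toLin' Φ (e x) := by
    intro x
    rw [he, he, ← LinearMap.comp_apply, ← LinearMap.comp_apply, ← Matrix.toLin'_mul,
      ← Matrix.toLin'_mul]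
    simp only [Matrix.mul_assoc, cP]
  refine ⟨_, hR.isMono.map e hN, fun a t => ?_⟩
  rw [mult_map e hΦ, mult_eq s hcc hnn]

end

open Classical in
/-- duality for the multiplicities -/
theorem dual_count {b : ℕ} {Φ N S : Matrix (Fin b) (Fin b) ℂ} {s : Fin b → ℤ} {α : Fin b → ℂ}
    (h : Adapted Φ N s α) (hα : ∀ i, α i ≠ 0) (hΦ : Φ.det ≠ 0) (hS : S.det ≠ 0)
    (h1 : Φᵀ * S * Φ = S) (h2 : Nᵀ * S + S * N = 0) (a : ℂ) (t : ℤ) :
    (Finset.univ.filter fun i => s i = t ∧ α i = a).card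
      = (Finset.univ.filter fun i => -s i = t ∧ (α i)⁻¹ = a).card := by
  obtain ⟨M, hM, hm⟩ := h.mults
  obtain ⟨M', hM', hm'⟩ := (h.dual hα hΦ).mults
  have hSu : IsUnit S.det := isUnit_iff_ne_zero.mpr hS
  have hS1 : S * S⁻¹ = 1 := Matrix.mul_nonsing_inv _ hSu
  have hS2 : S⁻¹ * S = 1 := Matrix.nonsing_inv_mul _ hSu
  have hΦu : IsUnit Φ.det := isUnit_iff_ne_zero.mpr hΦ
  have hΦi : Φ * Φ⁻¹ = 1 := Matrix.mul_nonsing_inv _ hΦu
  let e : (Fin b → ℂ) ≃ₗ[ℂ] (Fin b → ℂ) := Matrix.toLin'OfInv hS2 hS1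
  have he : ∀ x, e x = Matrix.toLin' S x := fun x => rfl
  have eN : S * N = -Nᵀ * S := by
    rw [Matrix.neg_mul]
    exact eq_neg_of_add_eq_zero_right h2
  have eΦ : S * Φ = (Φ⁻¹)ᵀ * S := by
    have h3 : (Φ⁻¹)ᵀ * Φᵀ = 1 := by rw [← Matrix.transpose_mul, hΦi, Matrix.transpose_one]
    calc S * Φ = ((Φ⁻¹)ᵀ * Φᵀ) * (S * Φ) := by rw [h3, Matrix.one_mul]
      _ = (Φ⁻¹)ᵀ * (Φᵀ * S * Φ) := by simp only [Matrix.mul_assoc]
      _ = (Φ⁻¹)ᵀ * S := by rw [h1]
  have hN : ∀ x, e (Matrix.toLin' N x) = Matrix.toLin' (-Nᵀ) (e x) := by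
    intro x
    rw [he, he, ← LinearMap.comp_apply, ← LinearMap.comp_apply, ← Matrix.toLin'_mul,
      ← Matrix.toLin'_mul, eN]
  have hΦ' : ∀ x, e (Matrix.toLin' Φ x) = Matrix.toLin' (Φ⁻¹)ᵀ (e x) := by
    intro x
    rw [he, he, ← LinearMap.comp_apply, ← LinearMap.comp_apply, ← Matrix.toLin'_mul,
      ← Matrix.toLin'_mul, eΦ]
  have h5 : M' = fun t => (M t).map (e : (Fin b → ℂ) →ₗ[ℂ] (Fin b → ℂ)) :=
    hM'.unique (hM.map e hN)
  rw [← hm, ← hm', h5, mult_map e hΦ']

section strings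
variable {T : Type} [Fintype T] [DecidableEq T] (q : ℂ) (a : T → ℕ)

open Classical in
/-- the number of basis vectors of weight `s` and eigenvalue `c` -/
noncomputable def CC (β : T → ℂ) (s : ℤ) (c : ℂ) : ℕ :=
  (univ.filter fun x : (Σ t, Fin (a t)) => sS a x = s ∧ aS q a β x = c).card

open Classical in
/-- the number of strings of length `n` and top eigenvalue `c` -/
noncomputable def KK (β : T → ℂ) (n : ℕ) (c : ℂ) : ℕ :=
  (univ.filter fun t => a t = n ∧ β t = c).card

theorem KK_eq (hq : q ≠ 0) (β : T → ℂ) (n : ℕ) (hn : 1 ≤ n) (c : ℂ) :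
    KK a β n c + CC q a β (n + 1) (q * c) = CC q a β (n - 1) c := by
  classical
  unfold KK CC
  have h1 : (univ.filter fun x : (Σ t, Fin (a t)) => sS a x = (n : ℤ) - 1 ∧ aS q a β x = c)
      = (univ.filter fun x : (Σ t, Fin (a t)) => (x.2 : ℕ) = 0 ∧ (a x.1 = n ∧ β x.1 = c))
        ∪ (univ.filter fun x : (Σ t, Fin (a t)) =>
          (x.2 : ℕ) ≠ 0 ∧ (sS a x = (n : ℤ) - 1 ∧ aS q a β x = c)) := by
    ext x
    simp only [mem_filter, mem_univ, true_and, mem_union]
    by_cases hx : (x.2 : ℕ) = 0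
    · simp only [hx, true_and, not_true_eq_false, ne_eq, false_and, or_false, sS, aS,
        pow_zero, mul_one, Nat.cast_zero, mul_zero, sub_zero]
      constructor
      · rintro ⟨h1, h2⟩
        exact ⟨by omega, h2⟩
      · rintro ⟨h1, h2⟩
        exact ⟨by omega, h2⟩
    · simp only [hx, false_and, false_or, ne_eq, not_false_eq_true, true_and]
  rw [h1, Finset.card_union_of_disjoint]
  · congr 1
    · refine Finset.card_bij (fun t ht => (⟨t, ⟨0, by
        rw [mem_filter] at ht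
        omega⟩⟩ : Σ t, Fin (a t))) ?_ ?_ ?_
      · intro t ht
        rw [mem_filter] at ht ⊢
        exact ⟨mem_univ _, rfl, ht.2⟩
      · intro t ht t' ht' h
        exact congrArg Sigma.fst h
      · rintro ⟨t, j⟩ hx
        rw [mem_filter] at hx
        refine ⟨t, ?_, ?_⟩
        · rw [mem_filter]
          exact ⟨mem_univ _, hx.2.2⟩
        · have hj : (j : ℕ) = 0 := hx.2.1
          simp only [Sigma.mk.injEq, heq_eq_eq, true_and]
          exact Fin.ext hj.symm
    · refine Finset.card_bij (fun x hx => (⟨x.1, ⟨(x.2 : ℕ) + 1, by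
        rw [mem_filter] at hx
        have h2 := hx.2.1
        simp only [sS] at h2
        omega⟩⟩ : Σ t, Fin (a t))) ?_ ?_ ?_
      · intro x hx
        rw [mem_filter] at hx ⊢
        obtain ⟨_, h2, h3⟩ := hx
        refine ⟨mem_univ _, by simp, ?_, ?_⟩
        · simp only [sS] at h2 ⊢
          push_cast
          omega
        · simp only [aS] at h3 ⊢
          rw [pow_succ, ← mul_assoc, h3, mul_comm q c, mul_assoc, mul_inv_cancel₀ hq, mul_one]
      · rintro ⟨t, j⟩ hx ⟨t', j'⟩ hx' h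
        simp only [Sigma.mk.injEq] at h
        obtain ⟨rfl, h2⟩ := h
        have h3 := eq_of_heq h2
        simp only [Fin.mk.injEq] at h3
        have h4 : j = j' := Fin.ext (by omega)
        rw [h4]
      · rintro ⟨t, j⟩ hx
        rw [mem_filter] at hx
        obtain ⟨_, h0, h2, h3⟩ := hx
        have hj0 : (j : ℕ) ≠ 0 := h0
        refine ⟨⟨t, ⟨(j : ℕ) - 1, by have := j.2; omega⟩⟩, ?_, ?_⟩
        · rw [mem_filter]
          refine ⟨mem_univ _, ?_, ?_⟩
          · simp only [sS] at h2 ⊢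
            omega
          · simp only [aS] at h3 ⊢
            rw [← h3]
            have h5 : (q⁻¹) ^ (j : ℕ) = (q⁻¹) ^ ((j : ℕ) - 1) * q⁻¹ := by
              rw [← pow_succ]
              congr 1
              omega
            rw [h5]
            field_simp
        · have h6 : (j : ℕ) - 1 + 1 = j := by omega
          simp only [h6]
  · rw [Finset.disjoint_filter]
    intro x _ h2 h3
    exact h3.1 h2.1

/-- the eigenvalues of the dual strings -/
noncomputable def dualB (β : T → ℂ) : T → ℂ := fun t => q ^ (a t - 1) / β t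

theorem CC_dual (hq : q ≠ 0) (β : T → ℂ) (hβ : ∀ t, β t ≠ 0) (s : ℤ) (c : ℂ) :
    CC q a (dualB q a β) s c = (univ.filter fun x : (Σ t, Fin (a t)) =>
      -sS a x = s ∧ (aS q a β x)⁻¹ = c).card := by
  classical
  unfold CC
  have hr : ∀ x : (Σ t, Fin (a t)), a x.1 - 1 - (x.2 : ℕ) < a x.1 := by
    intro x
    have := x.2.2
    omega
  refine Finset.card_bij (fun x _ => (⟨x.1, ⟨a x.1 - 1 - (x.2 : ℕ), hr x⟩⟩ : Σ t, Fin (a t)))
    ?_ ?_ ?_
  · rintro ⟨t, j⟩ hx
    rw [mem_filter] at hx ⊢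
    obtain ⟨_, h2, h3⟩ := hx
    have hj := j.2
    refine ⟨mem_univ _, ?_, ?_⟩
    · simp only [sS] at h2 ⊢
      omega
    · simp only [aS, dualB] at h3 ⊢
      rw [← h3]
      have h5 : q ^ (a t - 1) = q ^ (a t - 1 - (j : ℕ)) * q ^ (j : ℕ) := by
        rw [← pow_add]
        congr 1
        omega
      rw [h5]
      have := hβ t
      have h7 : q ^ (j : ℕ) ≠ 0 := pow_ne_zero _ hq
      rw [inv_pow, inv_pow]
      field_simp
  · rintro ⟨t, j⟩ hx ⟨t', j'⟩ hx' h
    simp only [Sigma.mk.injEq] at h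
    obtain ⟨rfl, h2⟩ := h
    have h3 := eq_of_heq h2
    simp only [Fin.mk.injEq] at h3
    have hj := j.2
    have hj' := j'.2
    have h4 : j = j' := Fin.ext (by omega)
    rw [h4]
  · rintro ⟨t, j⟩ hx
    rw [mem_filter] at hx
    obtain ⟨_, h2, h3⟩ := hx
    have hj := j.2
    refine ⟨⟨t, ⟨a t - 1 - (j : ℕ), by omega⟩⟩, ?_, ?_⟩
    · rw [mem_filter]
      refine ⟨mem_univ _, ?_, ?_⟩
      · simp only [sS] at h2 ⊢
        omega
      · simp only [aS, dualB] at h3 ⊢
        rw [← h3]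
        have h5 : q ^ (a t - 1) = q ^ (a t - 1 - (j : ℕ)) * q ^ (j : ℕ) := by
          rw [← pow_add]
          congr 1
          omega
        rw [h5]
        have := hβ t
        have h7 : q ^ (a t - 1 - (j : ℕ)) ≠ 0 := pow_ne_zero _ hq
        rw [inv_pow, inv_pow]
        field_simp
    · have h6 : a t - 1 - (a t - 1 - (j : ℕ)) = j := by omega
      simp only [h6]

end strings

end Pool.Agent.WM77
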