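import Pool.Agent.WM77.StrM

/-!
Existence of string bases for matrices; the dual pair.
-/

namespace Pool.Agent.WM77

open Module Matrix

theorem exists_strings {b : ℕ} (q : ℝ) (hq : 1 < q) (Φ N : Matrix (Fin b) (Fin b) ℂ)
    (hΦ : Φ.det ≠ 0) (hN : IsNilpotent N) (hc : N * Φ = (q : ℂ) • (Φ * N)) :
    ∃ (T : Type) (_ : Fintype T) (_ : DecidableEq T) (a : T → ℕ) (β : T → ℂ)
      (e : (Σ t, Fin (a t)) ≃ Fin b), (∀ t, 0 < a t) ∧ (∀ t, β t ≠ 0) ∧
      Adapted Φ N (fun i => sS a (e.symm i)) (fun i => aS (q : ℂ) a β (e.symm i)) ∧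
      ∀ k : ℕ, (N ^ k).rank = ∑ t, (a t - k) := by
  have hq0 : (q : ℂ) ≠ 0 := by
    have : q ≠ 0 := by linarith
    exact_mod_cast this
  have hql : ∀ l : ℕ, 0 < l → (q : ℂ) ^ l ≠ 1 := by
    intro l hl h
    have h1 : q ^ l = 1 := by exact_mod_cast h
    have h2 : 1 < q ^ l := one_lt_pow₀ hq (by omega)
    linarith
  have hcx : ∀ x, Matrix.toLin' N (Matrix.toLin' Φ x)
      = (q : ℂ) • Matrix.toLin' Φ (Matrix.toLin' N x) := by
    intro x
    rw [← LinearMap.comp_apply, ← Matrix.toLin'_mul, hc, map_smul, Matrix.toLin'_mul]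
    rfl
  obtain ⟨Ψ, hss, hcomm, hnil, hcΨ⟩ := exists_ss hq0 hcx
  have hinjΦ : Function.Injective (Matrix.toLin' Φ) := by
    intro v w h
    rw [Matrix.toLin'_apply, Matrix.toLin'_apply] at h
    exact Matrix.mulVec_injective_iff_isUnit.mpr
      ((Matrix.isUnit_iff_isUnit_det Φ).mpr (isUnit_iff_ne_zero.mpr hΦ)) h
  have hinj : Function.Injective Ψ := by
    rw [← LinearMap.ker_eq_bot, LinearMap.ker_eq_bot']
    intro x hx
    obtain ⟨k, hk⟩ := hnil
    have h1 : ∀ j : ℕ, ((Matrix.toLin' Φ - Ψ) ^ j) x = (Matrix.toLin' Φ ^ j) x := by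
      intro j
      induction j with
      | zero => rfl
      | succ j ih =>
        have h2 : Ψ ((Matrix.toLin' Φ ^ j) x) = 0 := by
          have h3 : Commute (Matrix.toLin' Φ ^ j) Ψ := Commute.pow_left hcomm j
          have h4 := LinearMap.congr_fun h3.eq x
          rw [Module.End.mul_apply, Module.End.mul_apply, hx, map_zero] at h4
          exact h4.symm
        rw [pow_succ', Module.End.mul_apply, ih, LinearMap.sub_apply, h2, sub_zero, pow_succ',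
          Module.End.mul_apply]
    have h5 := h1 k
    rw [hk, LinearMap.zero_apply] at h5
    have h6 : ∀ j : ℕ, Function.Injective (Matrix.toLin' Φ ^ j) := by
      intro j
      induction j with
      | zero => exact fun _ _ h => h
      | succ j ih =>
        rw [pow_succ]
        intro y z h
        rw [Module.End.mul_apply, Module.End.mul_apply] at h
        exact hinjΦ (ih h)
    exact h6 k (by rw [← h5, map_zero])
  have hNn : IsNilpotent (Matrix.toLin' N : Module.End ℂ (Fin b → ℂ)) := by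
    obtain ⟨k, hk⟩ := hN
    exact ⟨k, by rw [← Matrix.toLin'_pow, hk, map_zero]⟩
  obtain ⟨T, i1, i2, a, β, B, v, ha, hB, hv, hβ⟩ :=
    str_exists _ (Fin b → ℂ) Ψ (Matrix.toLin' N) q rfl hss hinj hNn hq0 hql hcΨ
  have hcard : Fintype.card (Σ t, Fin (a t)) = b := by
    have := Module.finrank_eq_card_basis B
    rw [Module.finrank_fin_fun] at this
    exact this.symm
  let e : (Σ t, Fin (a t)) ≃ Fin b := (Fintype.equivFin _).trans (finCongr hcard)
  obtain ⟨H, E, hH, hE1, hE2, hE3⟩ := strings_sl2 B v hB hv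
  have hv0 : ∀ t, v t ≠ 0 := by
    intro t h
    have h1 := hB t ⟨0, ha t⟩
    rw [pow_zero, h] at h1
    exact B.ne_zero _ (h1.trans (by simp))
  refine ⟨T, i1, i2, a, β, e, ha, ?_, ?_, ?_⟩
  · intro t h
    have h1 : Ψ (v t) = 0 := by rw [hβ, h, zero_smul]
    exact hv0 t (hinj (by rw [h1, map_zero]))
  · have hΨB : ∀ x, Ψ (B x) = aS (q : ℂ) a β x • B x := by
      rintro ⟨t, j⟩
      rw [hB]
      have h1 := comm_pow hcΨ (j : ℕ) (v t)
      rw [hβ, map_smul] at h1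
      have h2 : ((q : ℂ)⁻¹ ^ (j : ℕ)) • (β t • (Matrix.toLin' N ^ (j : ℕ)) (v t))
          = Ψ ((Matrix.toLin' N ^ (j : ℕ)) (v t)) := by
        rw [h1, smul_smul, ← mul_pow, inv_mul_cancel₀ hq0, one_pow, one_smul]
      rw [← h2, smul_smul, mul_comm]
      rfl
    apply adapted_of_basis hcomm hnil (B.reindex e) _ _ _ _ hE1 hE2 hE3
    · intro i
      rw [Basis.reindex_apply]
      exact hH _
    · intro i
      rw [Basis.reindex_apply]
      exact hΨB _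
  · intro k
    have h1 := strings_ker B v hB hv k
    rw [← h1, Matrix.rank_eq_finrank_range_toLin (N ^ k) (Pi.basisFun ℂ (Fin b))
      (Pi.basisFun ℂ (Fin b)), Matrix.toLin_eq_toLin', Matrix.toLin'_pow]

/-- the dual pair in the dual basis -/
theorem Adapted.dual {b : ℕ} {Φ N : Matrix (Fin b) (Fin b) ℂ} {s : Fin b → ℤ} {α : Fin b → ℂ}
    (h : Adapted Φ N s α) (hα : ∀ i, α i ≠ 0) (hΦ : Φ.det ≠ 0) :
    Adapted (Φ⁻¹)ᵀ (-Nᵀ) (fun i => -s i) (fun i => (α i)⁻¹) := by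
  obtain ⟨P, Q, Ψ, E, H, hPQ, hΨ, hH, hc, hn, h1, h2, h3⟩ := h
  have hQP : Q * P = 1 := mul_eq_one_comm.mp hPQ
  have hdd : Matrix.diagonal α * Matrix.diagonal (fun i => (α i)⁻¹) = 1 := by
    rw [Matrix.diagonal_mul_diagonal, ← Matrix.diagonal_one]
    congr 1
    funext i
    exact mul_inv_cancel₀ (hα i)
  have hΨinv : Ψ * (P * Matrix.diagonal (fun i => (α i)⁻¹) * Q) = 1 := by
    rw [hΨ]
    calc P * Matrix.diagonal α * Q * (P * Matrix.diagonal (fun i => (α i)⁻¹) * Q)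
        = P * Matrix.diagonal α * (Q * P) * Matrix.diagonal (fun i => (α i)⁻¹) * Q := by
          simp only [Matrix.mul_assoc]
      _ = P * (Matrix.diagonal α * Matrix.diagonal (fun i => (α i)⁻¹)) * Q := by
          rw [hQP, Matrix.mul_one]
          simp only [Matrix.mul_assoc]
      _ = 1 := by rw [hdd, Matrix.mul_one, hPQ]
  set Ψi : Matrix (Fin b) (Fin b) ℂ := P * Matrix.diagonal (fun i => (α i)⁻¹) * Q with hΨi
  have hΨinv' : Ψi * Ψ = 1 := mul_eq_one_comm.mp hΨinv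
  have hΦu : IsUnit Φ.det := isUnit_iff_ne_zero.mpr hΦ
  have hΦi : Φ * Φ⁻¹ = 1 := Matrix.mul_nonsing_inv _ hΦu
  have hΦi' : Φ⁻¹ * Φ = 1 := Matrix.nonsing_inv_mul _ hΦu
  have c1 : Commute Φ⁻¹ Ψi := by
    rw [Commute, SemiconjBy]
    calc Φ⁻¹ * Ψi = (Ψi * Ψ) * Φ⁻¹ * Ψi := by rw [hΨinv', Matrix.one_mul]
      _ = Ψi * (Φ⁻¹ * Φ) * Ψ * Φ⁻¹ * Ψi := by rw [hΦi', Matrix.mul_one]
      _ = Ψi * Φ⁻¹ * (Φ * Ψ) * Φ⁻¹ * Ψi := by simp only [Matrix.mul_assoc]
      _ = Ψi * Φ⁻¹ * (Ψ * Φ) * Φ⁻¹ * Ψi := by rw [hc.eq]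
      _ = Ψi * Φ⁻¹ * Ψ * (Φ * Φ⁻¹) * Ψi := by simp only [Matrix.mul_assoc]
      _ = Ψi * Φ⁻¹ * (Ψ * Ψi) := by rw [hΦi, Matrix.mul_one]; simp only [Matrix.mul_assoc]
      _ = Ψi * Φ⁻¹ := by rw [hΨinv, Matrix.mul_one]
  have c2 : Commute Φ⁻¹ Ψ := by
    rw [Commute, SemiconjBy]
    calc Φ⁻¹ * Ψ = Φ⁻¹ * Ψ * (Φ * Φ⁻¹) := by rw [hΦi, Matrix.mul_one]
      _ = Φ⁻¹ * (Ψ * Φ) * Φ⁻¹ := by simp only [Matrix.mul_assoc]
      _ = Φ⁻¹ * (Φ * Ψ) * Φ⁻¹ := by rw [hc.eq]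
      _ = (Φ⁻¹ * Φ) * Ψ * Φ⁻¹ := by simp only [Matrix.mul_assoc]
      _ = Ψ * Φ⁻¹ := by rw [hΦi', Matrix.one_mul]
  have n1 : IsNilpotent (Φ⁻¹ - Ψi) := by
    have e1 : Φ⁻¹ - Ψi = -(Φ⁻¹ * Ψi) * (Φ - Ψ) := by
      have e2 : Φ⁻¹ * Ψi * Φ = Ψi := by rw [c1.eq, Matrix.mul_assoc, hΦi', Matrix.mul_one]
      have e3 : Φ⁻¹ * Ψi * Ψ = Φ⁻¹ := by rw [Matrix.mul_assoc, hΨinv', Matrix.mul_one]
      rw [Matrix.neg_mul, Matrix.mul_sub, e2, e3]
      abel
    rw [e1]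
    have c3 : Commute Φ⁻¹ (Φ - Ψ) := by
      apply Commute.sub_right _ c2
      rw [Commute, SemiconjBy, hΦi, hΦi']
    have c4 : Commute Ψi (Φ - Ψ) := by
      apply Commute.sub_right
      · rw [Commute, SemiconjBy]
        calc Ψi * Φ = Ψi * Φ * (Ψ * Ψi) := by rw [hΨinv, Matrix.mul_one]
          _ = Ψi * (Φ * Ψ) * Ψi := by simp only [Matrix.mul_assoc]
          _ = Ψi * (Ψ * Φ) * Ψi := by rw [hc.eq]
          _ = (Ψi * Ψ) * Φ * Ψi := by simp only [Matrix.mul_assoc]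
          _ = Φ * Ψi := by rw [hΨinv', Matrix.one_mul]
      · rw [Commute, SemiconjBy, hΨinv, hΨinv']
    exact Commute.isNilpotent_mul_left (c3.mul_left c4).neg_left hn
  refine ⟨Qᵀ, Pᵀ, Ψiᵀ, -Eᵀ, -Hᵀ, ?_, ?_, ?_, ?_, ?_, ?_, ?_, ?_⟩
  · rw [← Matrix.transpose_mul, hPQ, Matrix.transpose_one]
  · rw [hΨi, Matrix.transpose_mul, Matrix.transpose_mul, Matrix.diagonal_transpose,
      Matrix.mul_assoc]
  · have e1 : (Matrix.diagonal fun i => ((-s i : ℤ) : ℂ)) = -(Matrix.diagonal fun i => (s i : ℂ)) := by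
      ext i j
      by_cases hij : i = j
      · subst hij; simp
      · simp [Matrix.diagonal_apply_ne _ hij]
    rw [e1, hH, Matrix.transpose_mul, Matrix.transpose_mul, Matrix.diagonal_transpose]
    simp only [Matrix.mul_neg, Matrix.neg_mul, Matrix.mul_assoc]
  · rw [Commute, SemiconjBy, ← Matrix.transpose_mul, ← Matrix.transpose_mul, c1.eq]
  · obtain ⟨k, hk⟩ := n1
    refine ⟨k, ?_⟩
    rw [← Matrix.transpose_sub, ← Matrix.transpose_pow, hk, Matrix.transpose_zero]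
  · have := congrArg Matrix.transpose h1
    rw [Matrix.transpose_sub, Matrix.transpose_mul, Matrix.transpose_mul,
      Matrix.transpose_smul] at this
    simp only [Matrix.neg_mul, Matrix.mul_neg, neg_neg, smul_neg, sub_neg_eq_add]
    rw [← sub_eq_iff_eq_add'] 
    have h5 : Hᵀ * Nᵀ - Nᵀ * Hᵀ = (2 : ℂ) • Nᵀ := by rw [this]; abel
    rw [h5]
  · have := congrArg Matrix.transpose h2
    rw [Matrix.transpose_add, Matrix.transpose_mul, Matrix.transpose_mul,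
      Matrix.transpose_smul] at this
    simp only [Matrix.neg_mul, Matrix.mul_neg, neg_neg, smul_neg]
    rw [this]
    abel
  · have := congrArg Matrix.transpose h3
    rw [Matrix.transpose_sub, Matrix.transpose_mul, Matrix.transpose_mul] at this
    simp only [Matrix.neg_mul, Matrix.mul_neg, neg_neg]
    rw [← this]
    abel

end Pool.Agent.WM77
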