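import Pool.Agent.WM77.StrB

/-!
Adapted bases that consist of strings.
-/

namespace Pool.Agent.WM77

open Module Matrix

theorem adapted_of_basis {b : ℕ} {Φ N : Matrix (Fin b) (Fin b) ℂ} {Ψ H E : Module.End ℂ (Fin b → ℂ)}
    (hcomm : Commute (Matrix.toLin' Φ) Ψ) (hnil : IsNilpotent (Matrix.toLin' Φ - Ψ))
    (B' : Basis (Fin b) ℂ (Fin b → ℂ)) (s : Fin b → ℤ) (α : Fin b → ℂ)
    (hB1' : ∀ i, H (B' i) = (s i : ℂ) • B' i) (hB2' : ∀ i, Ψ (B' i) = α i • B' i)
    (hE1 : ∀ x, E (Matrix.toLin' N x) - Matrix.toLin' N (E x) = H x)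
    (hE2 : ∀ x, H (Matrix.toLin' N x) = Matrix.toLin' N (H x) - (2 : ℂ) • Matrix.toLin' N x)
    (hE3 : ∀ x, H (E x) = E (H x) + (2 : ℂ) • E x) : Adapted Φ N s α := by
  let P : Matrix (Fin b) (Fin b) ℂ := (Pi.basisFun ℂ (Fin b)).toMatrix B'
  let Q : Matrix (Fin b) (Fin b) ℂ := B'.toMatrix (Pi.basisFun ℂ (Fin b))
  have hPQ : P * Q = 1 := Basis.toMatrix_mul_toMatrix_flip _ _
  have hPc : ∀ i j, P i j = B' j i := fun i j => rfl
  have hdiag : ∀ (T : Module.End ℂ (Fin b → ℂ)) (t : Fin b → ℂ), (∀ i, T (B' i) = t i • B' i) →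
      LinearMap.toMatrix' T = P * Matrix.diagonal t * Q := by
    intro T t hT
    have h1 : LinearMap.toMatrix' T * P = P * Matrix.diagonal t := by
      ext i j
      rw [Matrix.mul_diagonal]
      have h2 : (LinearMap.toMatrix' T * P) i j = (LinearMap.toMatrix' T).mulVec (B' j) i := by
        simp only [Matrix.mul_apply, Matrix.mulVec, dotProduct, hPc]
      rw [h2, LinearMap.toMatrix'_mulVec, hT, hPc, Pi.smul_apply, smul_eq_mul, mul_comm]
    rw [← h1, Matrix.mul_assoc, hPQ, Matrix.mul_one]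
  have hmul : ∀ S T : Module.End ℂ (Fin b → ℂ), LinearMap.toMatrix' (S * T)
      = LinearMap.toMatrix' S * LinearMap.toMatrix' T := fun S T => LinearMap.toMatrix'_comp S T
  refine ⟨P, Q, LinearMap.toMatrix' Ψ, LinearMap.toMatrix' E, LinearMap.toMatrix' H, hPQ,
    hdiag Ψ _ hB2', hdiag H _ hB1', ?_, ?_, ?_, ?_, ?_⟩
  · have h1 := congrArg LinearMap.toMatrix' hcomm.eq
    rw [hmul, hmul, LinearMap.toMatrix'_toLin'] at h1
    exact h1
  · obtain ⟨k, hk⟩ := hnil
    refine ⟨k, ?_⟩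
    have h1 : ∀ (T : Module.End ℂ (Fin b → ℂ)) (k : ℕ), LinearMap.toMatrix' (T ^ k)
        = (LinearMap.toMatrix' T) ^ k := by
      intro T k
      induction k with
      | zero => simp
      | succ k ih => rw [pow_succ, hmul, ih, pow_succ]
    have h2 : Φ - LinearMap.toMatrix' Ψ = LinearMap.toMatrix' (Matrix.toLin' Φ - Ψ) := by
      rw [map_sub, LinearMap.toMatrix'_toLin']
    rw [h2, ← h1, hk, map_zero]
  · have h1 : H * Matrix.toLin' N = Matrix.toLin' N * H - (2 : ℂ) • Matrix.toLin' N :=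
      LinearMap.ext hE2
    have h2 := congrArg LinearMap.toMatrix' h1
    rw [map_sub, map_smul, hmul, hmul, LinearMap.toMatrix'_toLin'] at h2
    exact h2
  · have h1 : H * E = E * H + (2 : ℂ) • E := LinearMap.ext hE3
    have h2 := congrArg LinearMap.toMatrix' h1
    rw [map_add, map_smul, hmul, hmul] at h2
    exact h2
  · have h1 : E * Matrix.toLin' N - Matrix.toLin' N * E = H := LinearMap.ext hE1
    have h2 := congrArg LinearMap.toMatrix' h1
    rw [map_sub, hmul, hmul, LinearMap.toMatrix'_toLin'] at h2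
    exact h2

/-- the weights -/
def sS {T : Type} (a : T → ℕ) (x : Σ t, Fin (a t)) : ℤ := (a x.1 : ℤ) - 1 - 2 * (x.2 : ℕ)

/-- the eigenvalues -/
noncomputable def aS {T : Type} (q : ℂ) (a : T → ℕ) (β : T → ℂ) (x : Σ t, Fin (a t)) : ℂ :=
  β x.1 * (q⁻¹) ^ (x.2 : ℕ)

theorem strings_sl2 {V : Type} [AddCommGroup V] [Module ℂ V] {N : Module.End ℂ V} {T : Type}
    [Fintype T] [DecidableEq T] {a : T → ℕ} (B : Basis (Σ t, Fin (a t)) ℂ V) (v : T → V)
    (hB : ∀ t (j : Fin (a t)), B ⟨t, j⟩ = (N ^ (j : ℕ)) (v t))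
    (hv : ∀ t, (N ^ (a t)) (v t) = 0) :
    ∃ H E : Module.End ℂ V, (∀ x, H (B x) = (sS a x : ℂ) • B x) ∧
      (∀ x, E (N x) - N (E x) = H x) ∧ (∀ x, H (N x) = N (H x) - (2 : ℂ) • N x) ∧
      (∀ x, H (E x) = E (H x) + (2 : ℂ) • E x) := by
  have hbig : ∀ t j, a t ≤ j → (N ^ j) (v t) = 0 := by
    intro t j hj
    obtain ⟨i, rfl⟩ := Nat.exists_eq_add_of_le' hj
    rw [pow_add, Module.End.mul_apply, hv, map_zero]
  let H : Module.End ℂ V := B.constr ℂ (fun x => (sS a x : ℂ) • B x)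
  let E : Module.End ℂ V := B.constr ℂ (fun x => (((x.2 : ℕ) : ℂ) * ((a x.1 : ℂ) - (x.2 : ℕ))) •
    (N ^ ((x.2 : ℕ) - 1)) (v x.1))
  have hH : ∀ t (j : ℕ), H ((N ^ j) (v t)) = ((a t : ℂ) - 1 - 2 * j) • (N ^ j) (v t) := by
    intro t j
    by_cases hj : j < a t
    · have h1 := hB t ⟨j, hj⟩
      simp only at h1
      rw [← h1, Basis.constr_basis]
      congr 1
      simp [sS]
    · rw [hbig t j (by omega), map_zero, smul_zero]
  have hE : ∀ t (j : ℕ), j ≤ a t → E ((N ^ j) (v t)) = ((j : ℂ) * ((a t : ℂ) - j)) •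
      (N ^ (j - 1)) (v t) := by
    intro t j hj'
    by_cases hj : j < a t
    · have h1 := hB t ⟨j, hj⟩
      simp only at h1
      rw [← h1, Basis.constr_basis]
    · have h2 : j = a t := by omega
      rw [h2, hv, map_zero, sub_self, mul_zero, zero_smul]
  have hNs : ∀ t (j : ℕ), N ((N ^ j) (v t)) = (N ^ (j + 1)) (v t) := by
    intro t j
    rw [pow_succ', Module.End.mul_apply]
  have hEN : ∀ t (j : ℕ), N ((((j : ℂ)) * ((a t : ℂ) - j)) • (N ^ (j - 1)) (v t))
      = (((j : ℂ)) * ((a t : ℂ) - j)) • (N ^ j) (v t) := by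
    intro t j
    rcases j with _ | j
    · simp
    · rw [map_smul, hNs, Nat.add_sub_cancel]
  refine ⟨H, E, fun x => B.constr_basis ℂ _ x, ?_, ?_, ?_⟩
  · have : E ∘ₗ N - N ∘ₗ E = H := by
      apply B.ext
      rintro ⟨t, j⟩
      simp only [LinearMap.sub_apply, LinearMap.comp_apply]
      have hj := j.2
      rw [hB, hNs, hE t _ (by omega), hE t _ (by omega), hEN, hH, Nat.add_sub_cancel, ← sub_smul]
      congr 1
      push_cast
      ring
    intro x
    exact LinearMap.congr_fun this x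
  · have : H ∘ₗ N = N ∘ₗ H - (2 : ℂ) • N := by
      apply B.ext
      rintro ⟨t, j⟩
      simp only [LinearMap.sub_apply, LinearMap.comp_apply, LinearMap.smul_apply]
      rw [hB, hNs, hH, hH, map_smul, hNs, ← sub_smul]
      congr 1
      push_cast
      ring
    intro x
    exact LinearMap.congr_fun this x
  · have : H ∘ₗ E = E ∘ₗ H + (2 : ℂ) • E := by
      apply B.ext
      rintro ⟨t, j⟩
      simp only [LinearMap.add_apply, LinearMap.comp_apply, LinearMap.smul_apply]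
      have hj := j.2
      rw [hB, hE t _ (by omega), hH, map_smul, map_smul, hH, hE t _ (by omega)]
      rcases hj0 : (j : ℕ) with _ | j'
      · simp
      · rw [smul_smul, smul_smul, smul_smul, ← add_smul, Nat.add_sub_cancel]
        congr 1
        push_cast
        ring
    intro x
    exact LinearMap.congr_fun this x

theorem strings_ker {V : Type} [AddCommGroup V] [Module ℂ V] {N : Module.End ℂ V} {T : Type}
    [Fintype T] [DecidableEq T] {a : T → ℕ} (B : Basis (Σ t, Fin (a t)) ℂ V) (v : T → V)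
    (hB : ∀ t (j : Fin (a t)), B ⟨t, j⟩ = (N ^ (j : ℕ)) (v t))
    (hv : ∀ t, (N ^ (a t)) (v t) = 0) (k : ℕ) :
    finrank ℂ (LinearMap.range (N ^ k)) = ∑ t, (a t - k) := by
  have hbig : ∀ t j, a t ≤ j → (N ^ j) (v t) = 0 := by
    intro t j hj
    obtain ⟨i, rfl⟩ := Nat.exists_eq_add_of_le' hj
    rw [pow_add, Module.End.mul_apply, hv, map_zero]
  let w : (Σ t, Fin (a t - k)) → V := fun x => B ⟨x.1, ⟨k + (x.2 : ℕ), by have := x.2.2; omega⟩⟩
  have hw : LinearIndependent ℂ w := by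
    have : w = B ∘ fun x : (Σ t, Fin (a t - k)) =>
        (⟨x.1, ⟨k + (x.2 : ℕ), by have := x.2.2; omega⟩⟩ : Σ t, Fin (a t)) := rfl
    rw [this]
    apply B.linearIndependent.comp
    rintro ⟨t, j⟩ ⟨t', j'⟩ h
    simp only [Sigma.mk.injEq] at h
    obtain ⟨rfl, h2⟩ := h
    have h3 := eq_of_heq h2
    simp only [Fin.mk.injEq] at h3
    have h4 : j = j' := Fin.ext (by omega)
    rw [h4]
  have hr : LinearMap.range (N ^ k) = Submodule.span ℂ (Set.range w) := by
    apply le_antisymm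
    · rw [LinearMap.range_eq_map, ← B.span_eq, Submodule.map_span, Submodule.span_le]
      rintro _ ⟨_, ⟨⟨t, j⟩, rfl⟩, rfl⟩
      rw [hB, ← Module.End.mul_apply, ← pow_add]
      by_cases hj : k + (j : ℕ) < a t
      · apply Submodule.subset_span
        refine ⟨⟨t, ⟨(j : ℕ), by omega⟩⟩, ?_⟩
        show B ⟨t, ⟨k + (j : ℕ), _⟩⟩ = _
        rw [hB]
      · rw [hbig t _ (by omega)]
        exact Submodule.zero_mem _
    · rw [Submodule.span_le]
      rintro _ ⟨⟨t, j⟩, rfl⟩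
      have hj := j.2
      refine ⟨B ⟨t, ⟨(j : ℕ), by omega⟩⟩, ?_⟩
      show _ = B ⟨t, ⟨k + (j : ℕ), _⟩⟩
      rw [hB, hB, ← Module.End.mul_apply, ← pow_add]
  rw [hr, finrank_span_eq_card hw, Fintype.card_sigma]
  simp

end Pool.Agent.WM77
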