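import Pool.Agent.WM77.Defs

/-!
Uniqueness of the monodromy filtration.
-/

namespace Pool.Agent.WM77

open Module

variable {V : Type*} [AddCommGroup V] [Module ℂ V] {N : Module.End ℂ V}
  {M M' : ℤ → Submodule ℂ V}

theorem IsMono.monotone (h : IsMono N M) : Monotone M := by
  apply monotone_int_of_le_succ
  intro s
  have := h.mono (s + 1)
  simpa using this

theorem IsMono.shift_pow (h : IsMono N M) (j : ℕ) : ∀ s, ∀ x ∈ M s, (N ^ j) x ∈ M (s - 2 * j) := by
  induction j with
  | zero => intro s x hx; simpa using hx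
  | succ j ih =>
    intro s x hx
    have h1 := ih s x hx
    have h2 := h.shift _ _ h1
    rw [pow_succ', Module.End.mul_apply]
    have e : s - 2 * (j : ℤ) - 2 = s - 2 * ((j + 1 : ℕ) : ℤ) := by push_cast; ring
    rwa [e] at h2

/-- `ker N ^ (u + 1)` lies in `M u` -/
theorem IsMono.ker_le (h : IsMono N M) (u : ℕ) (x : V) (hx : (N ^ (u + 1)) x = 0) : x ∈ M u := by
  obtain ⟨t, ht⟩ := h.top
  have key : ∀ d : ℕ, x ∈ M ((u : ℤ) + d) → x ∈ M u := by
    intro d
    induction d with
    | zero => intro hx; simpa using hx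
    | succ d ih =>
      intro hd
      apply ih
      have h1 := h.inj (u + (d + 1)) x (by push_cast at hd ⊢; exact hd) (by
        have : (N ^ (u + (d + 1))) x = 0 := by
          rw [show u + (d + 1) = d + (u + 1) by ring, pow_add, Module.End.mul_apply, hx, map_zero]
        rw [this]
        exact Submodule.zero_mem _)
      have e : ((u + (d + 1) : ℕ) : ℤ) - 1 = (u : ℤ) + d := by push_cast; ring
      rwa [e] at h1
  apply key (t.toNat)
  apply h.monotone (show t ≤ (u : ℤ) + t.toNat by omega)
  rw [ht]
  exact Submodule.mem_top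

/-- exact surjectivity of `N ^ s : M s → M (-s)` -/
theorem IsMono.surj' (h : IsMono N M) (s : ℕ) (y : V) (hy : y ∈ M (-s)) :
    ∃ x ∈ M s, (N ^ s) x = y := by
  obtain ⟨t, ht⟩ := h.bot
  have key : ∀ d : ℕ, ∀ s : ℕ, (-t).toNat ≤ s + d → ∀ y ∈ M (-s), ∃ x ∈ M s, (N ^ s) x = y := by
    intro d
    induction d with
    | zero =>
      intro s hs y hy
      have h1 : M (-s) ≤ M t := h.monotone (by omega)
      have h2 := h1 hy
      rw [ht, Submodule.mem_bot] at h2
      exact ⟨0, Submodule.zero_mem _, by rw [h2, map_zero]⟩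
    | succ d ih =>
      intro s hs y hy
      obtain ⟨x, hx, hxy⟩ := h.surj s y hy
      have e : (-(s : ℤ) - 1) = -((s + 1 : ℕ) : ℤ) := by push_cast; ring
      rw [e] at hxy
      obtain ⟨z, hz, hzy⟩ := ih (s + 1) (by omega) _ hxy
      refine ⟨x + N z, Submodule.add_mem _ hx ?_, ?_⟩
      · have h1 := h.shift _ _ hz
        exact h.monotone (by push_cast; omega) h1
      · rw [map_add, ← Module.End.mul_apply, ← pow_succ, hzy]
        abel
  exact key (-t).toNat s (by omega) y hy

theorem IsMono.le (h : IsMono N M) (h' : IsMono N M') : ∀ s, M s ≤ M' s := by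
  obtain ⟨t, ht⟩ := h'.top
  -- nonnegative indices
  have key : ∀ d : ℕ, ∀ s : ℕ, t.toNat ≤ s + d → M s ≤ M' s := by
    intro d
    induction d with
    | zero =>
      intro s hs
      have : M' t ≤ M' s := h'.monotone (by omega)
      rw [ht] at this
      exact le_top.trans this
    | succ d ih =>
      intro s hs x hx
      have h1 : (N ^ (s + 1)) x ∈ M (-((s + 2 : ℕ) : ℤ)) := by
        have := h.shift_pow (s + 1) s x hx
        refine h.monotone ?_ this
        push_cast; omega
      obtain ⟨y, hy, hyx⟩ := h.surj' (s + 2) _ h1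
      have h2 : x - N y ∈ M' s := by
        apply h'.ker_le
        rw [map_sub, ← Module.End.mul_apply, ← pow_succ, hyx, sub_self]
      have h3 : N y ∈ M' s := by
        have h4 : y ∈ M' ((s + 2 : ℕ) : ℤ) := ih (s + 2) (by omega) hy
        have h5 := h'.shift _ _ h4
        have e : (((s + 2 : ℕ) : ℤ)) - 2 = s := by push_cast; ring
        rwa [e] at h5
      have := Submodule.add_mem _ h2 h3
      simpa using this
  have key2 : ∀ s : ℕ, M s ≤ M' s := fun s => key t.toNat s (by omega)
  intro s
  rcases le_or_gt 0 s with hs | hs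
  · have := key2 s.toNat
    rwa [Int.toNat_of_nonneg hs] at this
  · intro x hx
    have e : s = -((-s).toNat : ℤ) := by omega
    rw [e] at hx
    obtain ⟨y, hy, hyx⟩ := h.surj' (-s).toNat x hx
    have h1 := h'.shift_pow (-s).toNat _ _ (key2 _ hy)
    rw [hyx] at h1
    refine h'.monotone ?_ h1
    omega

theorem IsMono.unique (h : IsMono N M) (h' : IsMono N M') : M = M' :=
  funext fun s => le_antisymm (h.le h' s) (h'.le h s)

end Pool.Agent.WM77
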